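import Pool.Agent.J6H79.FR.Lin

/-!
# Substitution certificates for the linear real variables of a group
-/

set_option autoImplicit false

namespace Pool.Agent.J6H79.FR

open Pool.Agent.H625R2 Pool.Agent.NPC Pool.Agent.NPC.ER Pool.Agent.NPC.ER.Ball
open Pool.Agent.J6H79.RS

/-- new numbers of the variables -/
def nv (k g i : ℕ) : ℕ := if i < k * (g + 1) then (k + 2) * (i / k) + i % k else i + 2 * (g + 1)

theorem grp_le (k g i : ℕ) : grp k g i ≤ g := by
  unfold grp
  split_ifs with h
  · exact Nat.lt_succ_iff.1 (Nat.div_lt_of_lt_mul h)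
  · exact Nat.lt_succ_iff.1 (Nat.mod_lt _ (Nat.succ_pos _))

theorem slot_lt {k g γ r : ℕ} (hγ : γ ≤ g) (hr : r < k + 2) :
    (k + 2) * γ + r < (k + 2) * (g + 1) := by
  calc (k + 2) * γ + r < (k + 2) * γ + (k + 2) := by omega
    _ = (k + 2) * (γ + 1) := by ring
    _ ≤ (k + 2) * (g + 1) := Nat.mul_le_mul_left _ (by omega)

theorem slot_div {k γ r : ℕ} (hr : r < k + 2) : ((k + 2) * γ + r) / (k + 2) = γ := by
  rw [Nat.mul_add_div (by omega), Nat.div_eq_of_lt hr, add_zero]

theorem slot_mod {k γ r : ℕ} (hr : r < k + 2) : ((k + 2) * γ + r) % (k + 2) = r := by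
  rw [Nat.mul_add_mod, Nat.mod_eq_of_lt hr]

theorem nv_real {k g i : ℕ} (h : i < k * (g + 1)) : ∃ r < k, i % k = r ∧
    nv k g i = (k + 2) * (i / k) + r := by
  have hk : 0 < k := by
    rcases Nat.eq_zero_or_pos k with h0 | h0
    · simp [h0] at h
    · exact h0
  exact ⟨i % k, Nat.mod_lt _ hk, rfl, if_pos h⟩

theorem nv_bit {k g i : ℕ} (h : ¬ i < k * (g + 1)) : nv k g i = i + 2 * (g + 1) := if_neg h

theorem nv_le (k g i : ℕ) : nv k g i ≤ i + (k + 2) * (g + 1) + 2 * (g + 1) := by
  by_cases h : i < k * (g + 1)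
  · obtain ⟨r, hr, _, h2⟩ := nv_real h
    have h3 : i / k ≤ g := by
      have := grp_le k g i
      rwa [grp, if_pos h] at this
    have h4 := slot_lt (k := k) (r := r) h3 (by omega)
    omega
  · rw [nv_bit h]
    omega

/-! ### Sizes, degrees and variables of the constants and sums -/

theorem tsz_intTm (z : ℤ) : tsz (intTm z) ≤ 6 * z.natAbs.size + 2 := by
  have h1 : ∀ n : ℕ, tsz (natTm n) ≤ 6 * n.size + 1 := by
    intro n
    rw [← tsz_eq, natTm, toks_bitsTm]
    simp [List.length_flatMap, Nat.size_eq_bits_len]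
    omega
  have h2 := h1 z.natAbs
  unfold intTm
  split_ifs
  · simp only [tsz]
    omega
  · omega

theorem tvars_bitsTm (l : List Bool) : tvars (bitsTm l) = [] := by
  induction l with
  | nil => rfl
  | cons b l ih =>
    have h : bitsTm (b :: l) = Tm.add (Tm.mul (bitsTm l) (Tm.add Tm.one Tm.one)) (bTm b) := rfl
    rw [h]
    cases b <;> simp [tvars, ih, bTm]

theorem tvars_intTm (z : ℤ) : tvars (intTm z) = [] := by
  unfold intTm natTm
  split_ifs
  · simp [tvars, tvars_bitsTm]
  · exact tvars_bitsTm _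

theorem mem_tvars_sumTm {l : List Tm} {m : ℕ} : m ∈ tvars (sumTm l) ↔ ∃ t ∈ l, m ∈ tvars t := by
  induction l with
  | nil => simp [sumTm, tvars]
  | cons t l ih =>
    have h : sumTm (t :: l) = Tm.add t (sumTm l) := rfl
    rw [h]
    simp [tvars, ih]

theorem rdeg_sumTm {K B : ℕ} {l : List Tm} (h : ∀ t ∈ l, rdeg K t ≤ B) : rdeg K (sumTm l) ≤ B := by
  induction l with
  | nil => exact Nat.zero_le _
  | cons t l ih =>
    have h0 : sumTm (t :: l) = Tm.add t (sumTm l) := rfl
    rw [h0]
    exact max_le (h t (by simp)) (ih fun t ht => h t (by simp [ht]))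

theorem tsz_sumTm {B : ℕ} {l : List Tm} (h : ∀ t ∈ l, tsz t ≤ B) :
    tsz (sumTm l) ≤ l.length * (B + 1) + 1 := by
  induction l with
  | nil => simp [sumTm, tsz]
  | cons t l ih =>
    have h0 : sumTm (t :: l) = Tm.add t (sumTm l) := rfl
    have h1 := h t (by simp)
    have h2 := ih fun t ht => h t (by simp [ht])
    rw [h0, List.length_cons, Nat.add_mul, Nat.one_mul]
    simp only [tsz]
    omega

theorem tsz_sub_var {S : ℕ → Tm} (h : ∀ i, tsz (S i) = 1) (t : Tm) : tsz (sub S t) = tsz t := by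
  induction t <;> simp [sub, tsz, *]

/-- the part of an expression without linear variables, in the new variables -/
def zs (k g : ℕ) (t : Tm) : Tm :=
  sub (fun i => if isLin (k * (g + 1)) i then .zero else .var (nv k g i)) t

theorem tsz_zs (k g : ℕ) (t : Tm) : tsz (zs k g t) = tsz t :=
  tsz_sub_var (fun i => by split_ifs <;> rfl) t

theorem eval_zs {k g : ℕ} {x x' : ℕ → ℝ} (h : ∀ i, ¬ isLin (k * (g + 1)) i → x' (nv k g i) = x i)
    (t : Tm) : (zs k g t).eval x' = t.eval (mix (k * (g + 1)) 0 x) := by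
  unfold zs
  rw [eval_sub]
  apply eval_congr'
  intro i _
  unfold mix
  split_ifs with hi
  · rfl
  · exact h i hi

theorem rdeg_nv {k g i : ℕ} : rdeg ((k + 2) * (g + 1)) (.var (nv k g i)) ≤
    rdeg (k * (g + 1)) (.var i) := by
  simp only [rdeg]
  by_cases h : i < k * (g + 1)
  · rw [if_pos h]
    split_ifs <;> simp
  · rw [if_neg h, nv_bit h, if_neg]
    have : (k + 2) * (g + 1) = k * (g + 1) + 2 * (g + 1) := by ring
    omega

theorem rdeg_zs {k g : ℕ} : ∀ t : Tm, rdeg ((k + 2) * (g + 1)) (zs k g t) ≤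
    rdeg (k * (g + 1)) t
  | .var i => by
    show rdeg _ (if isLin (k * (g + 1)) i then Tm.zero else Tm.var (nv k g i)) ≤ _
    split_ifs with h
    · exact Nat.zero_le _
    · exact rdeg_nv
  | .zero => le_rfl
  | .one => le_rfl
  | .add s t => by
    have h1 := rdeg_zs (k := k) (g := g) s
    have h2 := rdeg_zs (k := k) (g := g) t
    show max (rdeg _ (zs k g s)) (rdeg _ (zs k g t)) ≤ max _ _
    exact max_le_max h1 h2
  | .neg t => rdeg_zs (k := k) (g := g) t
  | .mul s t => by
    have h1 := rdeg_zs (k := k) (g := g) s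
    have h2 := rdeg_zs (k := k) (g := g) t
    exact Nat.add_le_add h1 h2

theorem tvars_zs {k g m : ℕ} {t : Tm} (h : m ∈ tvars (zs k g t)) :
    ∃ i ∈ tvars t, ¬ isLin (k * (g + 1)) i ∧ m = nv k g i := by
  obtain ⟨i, hi, h1⟩ := tvars_sub.1 h
  refine ⟨i, hi, ?_⟩
  split_ifs at h1 with h2
  · simp [tvars] at h1
  · simp only [tvars, List.mem_singleton] at h1
    exact ⟨h2, h1⟩

/-- size bound for the certificates -/
def tb (c T : ℕ) : ℕ := c * (6 * (c * c + T * c + 1) + T + 7 + 1) + 3

theorem size_adj {s c T : ℕ} (hs : s ≤ c) {M : Matrix (Fin s) (Fin s) ℤ}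
    (hM : ∀ a b, |M a b| ≤ 2 ^ T) (a b : Fin s) :
    (M.adjugate a b).natAbs.size ≤ c * c + T * c + 1 := by
  rw [Matrix.adjugate_apply]
  have h1 : |(M.updateRow b (Pi.single a 1)).det| ≤ (Nat.factorial s : ℤ) * (2 ^ T) ^ s := by
    have h2 := Matrix.det_le (A := M.updateRow b (Pi.single a 1)) (abv := AbsoluteValue.abs)
      (x := (2 ^ T : ℤ)) (by
        intro i j
        show |_| ≤ _
        rw [Matrix.updateRow_apply]
        split_ifs with h
        · rw [Pi.single_apply]
          split_ifs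
          · rw [abs_one]
            exact one_le_pow₀ (by norm_num)
          · rw [abs_zero]
            positivity
        · exact hM i j)
    rw [Fintype.card_fin, nsmul_eq_mul] at h2
    exact h2
  have h3 : (M.updateRow b (Pi.single a 1)).det.natAbs ≤ s.factorial * (2 ^ T) ^ s := by
    zify
    exact h1
  refine (Nat.size_le_size h3).trans ?_
  have h4 : s.factorial * (2 ^ T) ^ s ≤ 2 ^ (c * c + T * c) := by
    rw [pow_add]
    apply Nat.mul_le_mul
    · calc s.factorial ≤ s ^ s := Nat.factorial_le_pow s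
        _ ≤ (2 ^ s) ^ s := Nat.pow_le_pow_left Nat.lt_two_pow_self.le s
        _ = 2 ^ (s * s) := (pow_mul _ _ _).symm
        _ ≤ _ := Nat.pow_le_pow_right (by norm_num) (Nat.mul_le_mul hs hs)
    · rw [← pow_mul]
      exact Nat.pow_le_pow_right (by norm_num) (Nat.mul_le_mul_left _ hs)
  have h5 : Nat.size (2 ^ (c * c + T * c)) ≤ c * c + T * c + 1 := by
    rw [Nat.size_le]
    exact Nat.pow_lt_pow_right (by norm_num) (Nat.lt_succ_self _)
  exact (Nat.size_le_size h4).trans h5

theorem group_sub {k g D T : ℕ} {R : Finset Tm} {γ : ℕ} (hγ : γ ≤ g)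
    (hR : ∀ t ∈ R, rdeg (k * (g + 1)) t ≤ D ∧ LinOK (k * (g + 1)) t ∧ tsz t ≤ T ∧
      ∀ i ∈ tvars t, isReal (k * (g + 1)) i → grp k g i = γ)
    {M : ℕ} (hM : ∀ t ∈ R, ∀ i ∈ tvars t, i ≤ M)
    {v : ℕ → ℤ} (hv1 : ∀ i, |v i| ≤ 1) {x : ℕ → ℝ}
    (hv : ∀ i, ¬ isReal (k * (g + 1)) i → x i = v i)
    {d : ℝ} (hd : 0 < d) (hdx : ∀ t ∈ R, t.eval x ≠ 0 → d ≤ |t.eval x|) :
    ∃ (τ : ℕ → Tm) (n : ℝ),
      (∀ j, tsz (τ j) ≤ tb R.card T ∧ rdeg ((k + 2) * (g + 1)) (τ j) ≤ D + 2 ∧
        ∀ m ∈ tvars (τ j), (m < (k + 2) * (g + 1) → m / (k + 2) = γ) ∧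
          m ≤ M + (k + 2) * (g + 1) + 2 * (g + 1)) ∧
      ∀ x' : ℕ → ℝ, (∀ i, ¬ isLin (k * (g + 1)) i → x' (nv k g i) = x i) →
        x' ((k + 2) * γ + k) = d → x' ((k + 2) * γ + (k + 1)) = n →
        ∀ t ∈ R, SignType.sign (t.eval (mix (k * (g + 1)) (fun j => (τ j).eval x') x)) =
          SignType.sign (t.eval x) := by
  classical
  set K := k * (g + 1) with hK
  set J : Finset ℕ := (R.biUnion fun t => (tvars t).toFinset).filter (isLin K) with hJdef
  have hJ : ∀ j ∈ J, isLin K j := fun j hj => (Finset.mem_filter.1 hj).2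
  have hJmem : ∀ t ∈ R, ∀ i ∈ tvars t, isLin K i → i ∈ J := by
    intro t ht i hi hl
    exact Finset.mem_filter.2 ⟨Finset.mem_biUnion.2 ⟨t, ht, List.mem_toFinset.2 hi⟩, hl⟩
  have hdec : ∀ (z : ℕ → ℝ), ∀ t ∈ R, t.eval (mix K z x) =
      t.eval (mix K 0 x) + ∑ j ∈ J, (cof v j t : ℝ) * z j := fun z t ht =>
    lin_dec hv hJ z (hR t ht).2.1 (hJmem t ht)
  set A : {t // t ∈ R} → {j // j ∈ J} → ℤ := fun t j =>
    if t.1.eval x < 0 then -cof v j.1 t.1 else cof v j.1 t.1 with hA
  set r : {t // t ∈ R} → ℝ := fun t =>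
    if t.1.eval x = 0 then -(t.1.eval (mix K 0 x))
    else if 0 < t.1.eval x then d + -(t.1.eval (mix K 0 x)) else d + t.1.eval (mix K 0 x) with hr
  set rT : {t // t ∈ R} → Tm := fun t =>
    if t.1.eval x = 0 then .neg (zs k g t.1)
    else if 0 < t.1.eval x then .add (.var ((k + 2) * γ + k)) (.neg (zs k g t.1))
    else .add (.var ((k + 2) * γ + k)) (zs k g t.1) with hrT
  have hself : ∀ t : {t // t ∈ R}, t.1.eval x = t.1.eval (mix K 0 x) +
      ∑ j : {j // j ∈ J}, (cof v j.1 t.1 : ℝ) * x j.1 := by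
    intro t
    have h1 := hdec x t.1 t.2
    rw [mix_self] at h1
    rw [Finset.sum_coe_sort J fun j => (cof v j t.1 : ℝ) * x j]
    exact h1
  -- the relation between the constraints and the signs
  have hcon : ∀ (t : {t // t ∈ R}) (S V : ℝ), V = t.1.eval (mix K 0 x) + S →
      ((r t ≤ (if t.1.eval x < 0 then -S else S)) ↔
        (if t.1.eval x = 0 then 0 ≤ V else if 0 < t.1.eval x then d ≤ V else d ≤ -V)) := by
    intro t S V hV
    simp only [hr]
    rcases lt_trichotomy (t.1.eval x) 0 with h | h | h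
    · rw [if_pos h, if_neg h.ne, if_neg (not_lt.2 h.le), if_neg h.ne, if_neg (not_lt.2 h.le)]
      constructor <;> intro h2 <;> linarith
    · rw [if_pos h, if_neg (not_lt.2 h.ge), if_pos h]
      constructor <;> intro h2 <;> linarith
    · rw [if_neg (not_lt.2 h.le), if_neg h.ne', if_pos h, if_neg h.ne', if_pos h]
      constructor <;> intro h2 <;> linarith
  have hsumA : ∀ (t : {t // t ∈ R}) {β : Type} [Fintype β] (c : β → {j // j ∈ J}) (w : β → ℝ),
      ∑ b, (A t (c b) : ℝ) * w b =
        if t.1.eval x < 0 then -(∑ b, (cof v (c b).1 t.1 : ℝ) * w b)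
        else ∑ b, (cof v (c b).1 t.1 : ℝ) * w b := by
    intro t β _ c w
    simp only [hA]
    split_ifs
    · rw [← Finset.sum_neg_distrib]
      refine Finset.sum_congr rfl fun b _ => ?_
      push_cast
      ring
    · rfl
  have hfeas : ∀ t, r t ≤ ∑ j, (A t j : ℝ) * x j.1 := by
    intro t
    have h1 : ∑ j, (A t j : ℝ) * x j.1 =
        if t.1.eval x < 0 then -(∑ j : {j // j ∈ J}, (cof v j.1 t.1 : ℝ) * x j.1)
        else ∑ j : {j // j ∈ J}, (cof v j.1 t.1 : ℝ) * x j.1 :=
      hsumA t (fun j => j) (fun j => x j.1)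
    rw [h1, hcon t _ (t.1.eval x) (hself t)]
    by_cases h0 : t.1.eval x = 0
    · rw [if_pos h0, h0]
    · rw [if_neg h0]
      have h2 := hdx t.1 t.2 h0
      split_ifs with h3
      · rwa [abs_of_pos h3] at h2
      · rwa [abs_of_neg (lt_of_le_of_ne (not_lt.1 h3) h0)] at h2
  have hE : ∀ t : {t // t ∈ R}, t.1.eval x = 0 → ∑ j, (A t j : ℝ) * x j.1 = r t := by
    intro t h0
    have h1 : ∑ j, (A t j : ℝ) * x j.1 =
        if t.1.eval x < 0 then -(∑ j : {j // j ∈ J}, (cof v j.1 t.1 : ℝ) * x j.1)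
        else ∑ j : {j // j ∈ J}, (cof v j.1 t.1 : ℝ) * x j.1 :=
      hsumA t (fun j => j) (fun j => x j.1)
    have h2 := hself t
    rw [h1, if_neg (by rw [h0]; exact lt_irrefl _)]
    simp only [hr]
    rw [if_pos h0]
    linarith
  obtain ⟨s, e, f, he, hf, hdet, hw⟩ := basic_solution A r (fun t => t.1.eval x = 0)
    (fun j => x j.1) hfeas hE
  set Mt : Matrix (Fin s) (Fin s) ℤ := Matrix.of fun a b => A (e a) (f b) with hMt
  have hs : s ≤ R.card := by
    have := Fintype.card_le_of_injective e he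
    rwa [Fintype.card_fin, Fintype.card_coe] at this
  have hMtb : ∀ a b, |Mt a b| ≤ 2 ^ T := by
    intro a b
    have h1 : |cof v (f b).1 (e a).1| ≤ 2 ^ T :=
      (abs_cof_le hv1 _ _).trans (pow_le_pow_right₀ (by norm_num) (hR _ (e a).2).2.2.1)
    show |A (e a) (f b)| ≤ _
    simp only [hA]
    split_ifs
    · rwa [abs_neg]
    · exact h1
  set w : Fin s → ℝ := fun b => 1 / (Mt.det : ℝ) * ∑ a, (Mt.adjugate b a : ℝ) * r (e a) with hwdef
  have hdetR : (Mt.det : ℝ) ≠ 0 := by exact_mod_cast hdet
  have hww : ∀ a, ∑ b, (A (e a) (f b) : ℝ) * w b = r (e a) := by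
    intro a
    have h1 : ∀ c, ∑ b, (A (e a) (f b) : ℝ) * (Mt.adjugate b c : ℝ) =
        if a = c then (Mt.det : ℝ) else 0 := by
      intro c
      have h2 := congrFun (congrFun (Matrix.mul_adjugate Mt) a) c
      rw [Matrix.mul_apply, Matrix.smul_apply, Matrix.one_apply] at h2
      have h3 := congrArg (fun z : ℤ => (z : ℝ)) h2
      simp only [Int.cast_sum, Int.cast_mul, smul_eq_mul] at h3
      rw [show ∑ b, (A (e a) (f b) : ℝ) * (Mt.adjugate b c : ℝ) =
        ∑ b, (Mt a b : ℝ) * (Mt.adjugate b c : ℝ) from rfl, h3]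
      split_ifs <;> simp
    calc ∑ b, (A (e a) (f b) : ℝ) * w b
        = 1 / (Mt.det : ℝ) * ∑ c, (∑ b, (A (e a) (f b) : ℝ) * (Mt.adjugate b c : ℝ)) * r (e c) := by
          simp only [hwdef, Finset.mul_sum, Finset.sum_mul]
          rw [Finset.sum_comm]
          refine Finset.sum_congr rfl fun c _ => Finset.sum_congr rfl fun b _ => ?_
          ring
      _ = 1 / (Mt.det : ℝ) * ((Mt.det : ℝ) * r (e a)) := by
          congr 1
          simp only [h1]
          rw [Finset.sum_eq_single a]
          · rw [if_pos rfl]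
          · intro c _ hc
            rw [if_neg (Ne.symm hc), zero_mul]
          · intro h
            exact absurd (Finset.mem_univ _) h
      _ = r (e a) := by field_simp
  obtain ⟨hw1, hw2⟩ := hw w hww
  set Sb : Fin s → Tm := fun b => .mul (.var ((k + 2) * γ + (k + 1)))
    (sumTm ((List.finRange s).map fun a => .mul (intTm (Mt.adjugate b a)) (rT (e a)))) with hSb
  set τ : ℕ → Tm := fun j => if h : ∃ b, (f b).1 = j then Sb h.choose else .zero with hτ
  have hτf : ∀ b, τ (f b).1 = Sb b := by
    intro b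
    have h : ∃ b', (f b').1 = (f b).1 := ⟨b, rfl⟩
    simp only [hτ]
    rw [dif_pos h]
    congr 1
    exact hf (Subtype.ext h.choose_spec)
  refine ⟨τ, 1 / (Mt.det : ℝ), ?_, ?_⟩
  · intro j
    by_cases hj : ∃ b, (f b).1 = j
    · obtain ⟨b, rfl⟩ := hj
      rw [hτf]
      have hrT1 : ∀ t : {t // t ∈ R}, tsz (rT t) ≤ T + 3 ∧
          rdeg ((k + 2) * (g + 1)) (rT t) ≤ D + 1 ∧ ∀ m ∈ tvars (rT t),
          m = (k + 2) * γ + k ∨ ∃ i ∈ tvars t.1, ¬ isLin K i ∧ m = nv k g i := by
        intro t
        have h1 := (hR t.1 t.2).2.2.1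
        have h2 := (rdeg_zs (k := k) (g := g) t.1).trans (hR t.1 t.2).1
        have h3 : rdeg ((k + 2) * (g + 1)) (.var ((k + 2) * γ + k)) ≤ 1 := by
          simp only [rdeg]
          split_ifs <;> simp
        simp only [hrT]
        split_ifs
        · refine ⟨?_, ?_, ?_⟩
          · simp only [tsz, tsz_zs]
            omega
          · simp only [rdeg] at h3 ⊢
            omega
          · intro m hm
            exact Or.inr (tvars_zs hm)
        · refine ⟨?_, ?_, ?_⟩
          · simp only [tsz, tsz_zs]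
            omega
          · simp only [rdeg] at h3 ⊢
            omega
          · intro m hm
            simp only [tvars, List.mem_append, List.mem_singleton] at hm
            rcases hm with hm | hm
            · exact Or.inl hm
            · exact Or.inr (tvars_zs hm)
        · refine ⟨?_, ?_, ?_⟩
          · simp only [tsz, tsz_zs]
            omega
          · simp only [rdeg] at h3 ⊢
            omega
          · intro m hm
            simp only [tvars, List.mem_append, List.mem_singleton] at hm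
            rcases hm with hm | hm
            · exact Or.inl hm
            · exact Or.inr (tvars_zs hm)
      refine ⟨?_, ?_, ?_⟩
      · have h1 : tsz (sumTm ((List.finRange s).map fun a => .mul (intTm (Mt.adjugate b a))
            (rT (e a)))) ≤ s * (6 * (R.card * R.card + T * R.card + 1) + T + 7 + 1) + 1 := by
          have h2 := tsz_sumTm (l := (List.finRange s).map fun a =>
            .mul (intTm (Mt.adjugate b a)) (rT (e a)))
            (B := 6 * (R.card * R.card + T * R.card + 1) + T + 7) (by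
              intro t ht
              obtain ⟨a, _, rfl⟩ := List.mem_map.1 ht
              have h3 := tsz_intTm (Mt.adjugate b a)
              have h4 := size_adj hs hMtb b a
              have h5 := (hrT1 (e a)).1
              simp only [tsz]
              omega)
          rwa [List.length_map, List.length_finRange] at h2
        have h2 : s * (6 * (R.card * R.card + T * R.card + 1) + T + 7 + 1) ≤
            R.card * (6 * (R.card * R.card + T * R.card + 1) + T + 7 + 1) :=
          Nat.mul_le_mul_right _ hs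
        simp only [hSb, tsz, tb]
        omega
      · have h3 : rdeg ((k + 2) * (g + 1)) (.var ((k + 2) * γ + (k + 1))) ≤ 1 := by
          simp only [rdeg]
          split_ifs <;> simp
        have h2 : rdeg ((k + 2) * (g + 1)) (sumTm ((List.finRange s).map fun a =>
            .mul (intTm (Mt.adjugate b a)) (rT (e a)))) ≤ D + 1 := by
          apply rdeg_sumTm
          intro t ht
          obtain ⟨a, _, rfl⟩ := List.mem_map.1 ht
          have h4 : rdeg ((k + 2) * (g + 1)) (intTm (Mt.adjugate b a)) = 0 := by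
            apply rdeg_zero
            rw [tvars_intTm]
            simp
          have h5 := (hrT1 (e a)).2.1
          simp only [rdeg]
          omega
        show rdeg _ (.var ((k + 2) * γ + (k + 1))) + rdeg _ _ ≤ D + 2
        omega
      · intro m hm
        have h6 : m = (k + 2) * γ + (k + 1) ∨ m = (k + 2) * γ + k ∨
            ∃ t ∈ R, ∃ i ∈ tvars t, ¬ isLin K i ∧ m = nv k g i := by
          simp only [hSb, tvars, List.mem_append, List.mem_singleton, mem_tvars_sumTm] at hm
          rcases hm with hm | ⟨t, ht, hm⟩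
          · exact Or.inl hm
          · obtain ⟨a, _, rfl⟩ := List.mem_map.1 ht
            simp only [tvars, tvars_intTm, List.nil_append] at hm
            rcases (hrT1 (e a)).2.2 m hm with h | ⟨i, hi, h1, h2⟩
            · exact Or.inr (Or.inl h)
            · exact Or.inr (Or.inr ⟨_, (e a).2, i, hi, h1, h2⟩)
        rcases h6 with rfl | rfl | ⟨t, ht, i, hi, hl, rfl⟩
        · refine ⟨fun _ => slot_div (by omega), ?_⟩
          have := slot_lt (k := k) (r := k + 1) hγ (by omega)
          omega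
        · refine ⟨fun _ => slot_div (by omega), ?_⟩
          have := slot_lt (k := k) (r := k) hγ (by omega)
          omega
        · have h7 := nv_le k g i
          have h8 := hM t ht i hi
          refine ⟨fun h9 => ?_, by omega⟩
          by_cases h10 : i < K
          · obtain ⟨r', hr', _, h11⟩ := nv_real h10
            rw [h11, slot_div (by omega)]
            have h12 := (hR t ht).2.2.2 i hi (Or.inl h10)
            rwa [grp, if_pos h10] at h12
          · rw [nv_bit h10] at h9
            have : (k + 2) * (g + 1) = k * (g + 1) + 2 * (g + 1) := by ring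
            omega
    · simp only [hτ]
      rw [_root_.dif_neg hj]
      refine ⟨?_, Nat.zero_le _, by simp [tvars]⟩
      simp only [tsz, tb]
      omega
  · intro x' hx' hd' hn t ht
    have hrTe : ∀ a, (rT a).eval x' = r a := by
      intro a
      simp only [hrT, hr]
      split_ifs
      · simp only [Tm.eval, eval_zs hx', hK]
      · simp only [Tm.eval, eval_zs hx', hK, hd']
      · simp only [Tm.eval, eval_zs hx', hK, hd']
    have hSe : ∀ b, (τ (f b).1).eval x' = w b := by
      intro b
      rw [hτf]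
      simp only [hSb, Tm.eval, hn, eval_sumTm, List.map_map, hwdef]
      congr 1
      rw [← List.sum_ofFn, List.ofFn_eq_map]
      congr 1
      refine List.map_congr_left fun a _ => ?_
      simp only [Function.comp_apply, Tm.eval, eval_intTm, hrTe]
    have hoff : ∀ j, (¬ ∃ b, (f b).1 = j) → (τ j).eval x' = 0 := by
      intro j hj
      simp only [hτ]
      rw [_root_.dif_neg hj]
      rfl
    have hsum : ∑ j ∈ J, (cof v j t : ℝ) * (τ j).eval x' =
        ∑ b, (cof v (f b).1 t : ℝ) * w b := by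
      rw [← Finset.sum_coe_sort J fun j => (cof v j t : ℝ) * (τ j).eval x']
      symm
      apply Fintype.sum_of_injective f hf
      · intro j hj
        rw [hoff j.1, mul_zero]
        rintro ⟨b, hb⟩
        exact hj ⟨b, Subtype.ext hb⟩
      · intro b
        rw [hSe]
    have h1 := hdec (fun j => (τ j).eval x') t ht
    rw [hsum] at h1
    have h2 := hw1 ⟨t, ht⟩
    rw [hsumA ⟨t, ht⟩ f w, hcon ⟨t, ht⟩ _ _ h1] at h2
    by_cases h0 : t.eval x = 0
    · rw [h0, sign_zero, sign_eq_zero_iff]
      have h3 := hw2 ⟨t, ht⟩ h0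
      rw [hsumA ⟨t, ht⟩ f w] at h3
      simp only [hr] at h3
      rw [if_pos h0, if_neg (by rw [h0]; exact lt_irrefl _)] at h3
      rw [h1, h3]
      ring
    · rw [if_neg h0] at h2
      by_cases h3 : 0 < t.eval x
      · rw [if_pos h3] at h2
        rw [sign_pos h3, sign_eq_one_iff]
        linarith
      · rw [if_neg h3] at h2
        rw [sign_neg (lt_of_le_of_ne (not_lt.1 h3) h0), sign_eq_neg_one_iff]
        linarith

end Pool.Agent.J6H79.FR
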