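import Pool.Agent.ER.Defs

/-!
# Formulas with real variables in groups and 0/1 variables: definitions

The variables of a formula are of three kinds, which depend on numbers `k`, `g`. Let
`K = k * (g + 1)`.

* `i < K`: real variables in `g + 1` groups of `k` variables, the group of `i` is `i / k`;
* `i ≥ K`, `i` odd: real variables that may occur only linearly, the group of `i` is
  `(i / 2) % (g + 1)`;
* `i ≥ K`, `i` even: variables with the values `0` and `1`.
-/

set_option autoImplicit false

namespace Pool.Agent.J6H79.FR

open Pool.Agent.NPC.ER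

/-- The variables of an expression. -/
def tvars : Tm → List ℕ
  | .var i => [i]
  | .zero => []
  | .one => []
  | .add s t => tvars s ++ tvars t
  | .neg t => tvars t
  | .mul s t => tvars s ++ tvars t

/-- For every atomic formula `s = t`, `s < t`, `s ≤ t` of `φ` the difference `s - t`. -/
def atoms : Fm → List Tm
  | .eq s t => [.add s (.neg t)]
  | .lt s t => [.add s (.neg t)]
  | .le s t => [.add s (.neg t)]
  | .not φ => atoms φ
  | .and φ ψ => atoms φ ++ atoms ψ
  | .or φ ψ => atoms φ ++ atoms ψ

/-- Degree of an expression in the first `k` variables. -/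
def rdeg (k : ℕ) : Tm → ℕ
  | .var i => if i < k then 1 else 0
  | .zero => 0
  | .one => 0
  | .add s t => max (rdeg k s) (rdeg k t)
  | .neg t => rdeg k t
  | .mul s t => rdeg k s + rdeg k t

/-- The variable `i` is real and may occur only linearly. -/
def isLin (K i : ℕ) : Prop := K ≤ i ∧ i % 2 = 1

/-- The variable `i` is real. -/
def isReal (K i : ℕ) : Prop := i < K ∨ i % 2 = 1

/-- The variables of the kind `isLin` occur only linearly: they are multiplied only by expressions
without real variables. -/
def LinOK (K : ℕ) : Tm → Prop
  | .var _ => True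
  | .zero => True
  | .one => True
  | .add s t => LinOK K s ∧ LinOK K t
  | .neg t => LinOK K t
  | .mul s t => LinOK K s ∧ LinOK K t ∧
      ((∀ i ∈ tvars s, ¬ isLin K i) ∨ ∀ i ∈ tvars t, ¬ isReal K i) ∧
      ((∀ i ∈ tvars t, ¬ isLin K i) ∨ ∀ i ∈ tvars s, ¬ isReal K i)

/-- The number of the group of a real variable; the groups have the numbers `0, …, g`. -/
def grp (k g i : ℕ) : ℕ := if i < k * (g + 1) then i / k else i / 2 % (g + 1)

/-- All real variables of the expression are in the same group. -/
def OneGrp (k g : ℕ) (t : Tm) : Prop :=
  ∀ i ∈ tvars t, ∀ j ∈ tvars t, isReal (k * (g + 1)) i → isReal (k * (g + 1)) j →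
    grp k g i = grp k g j

end Pool.Agent.J6H79.FR
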