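import Pool.Agent.J6H79.FR.Pieces
import Pool.Agent.J6H79.FR.Defs
import Pool.Agent.J6H79.RS.Tm

/-!
# Systems with few real variables: exact and approximate solutions
-/

set_option autoImplicit false

namespace Pool.Agent.J6H79.FR

open Pool.Agent.H625R2 Pool.Agent.NPC Pool.Agent.NPC.ER Pool.Agent.NPC.ER.Ball
open Pool.Agent.J6H79.RS

/-- The number of symbols of an expression. -/
def tsz : Tm → ℕ
  | .var _ => 1
  | .zero => 1
  | .one => 1
  | .add s t => tsz s + tsz t + 1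
  | .neg t => tsz t + 1
  | .mul s t => tsz s + tsz t + 1

theorem tsz_eq (t : Tm) : t.toks.length = tsz t := by
  induction t <;> simp [Tm.toks, tsz, *] <;> omega

theorem tsz_pos (t : Tm) : 1 ≤ tsz t := by
  cases t <;> simp [tsz]

/-- the point with the first `k` coordinates given by `u` and the other ones given by the bits `b` -/
def pt (k : ℕ) (b : ℕ → Bool) (u : ℕ → ℝ) : ℕ → ℝ := fun i =>
  if i < k then u i else if b i then 1 else 0

/-- the variables as polynomials in `k + 1` variables -/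
noncomputable def vp (k : ℕ) (b : ℕ → Bool) : ℕ → MvPolynomial (Fin (k + 1)) ℤ := fun i =>
  if h : i < k then MvPolynomial.X ⟨i, by omega⟩ else if b i then 1 else 0

/-- extension by zero -/
def xtn {m : ℕ} (y : Fin m → ℝ) : ℕ → ℝ := fun i => if h : i < m then y ⟨i, h⟩ else 0

variable {k : ℕ} {b : ℕ → Bool}

theorem aeval_vp (y : Fin (k + 1) → ℝ) (t : Tm) :
    MvPolynomial.aeval y (tev (vp k b) t) = t.eval (pt k b (xtn y)) := by
  have h := map_tev (MvPolynomial.aeval y : MvPolynomial (Fin (k + 1)) ℤ →ₐ[ℤ] ℝ).toRingHom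
    (vp k b) t
  have h1 : (MvPolynomial.aeval y : MvPolynomial (Fin (k + 1)) ℤ →ₐ[ℤ] ℝ).toRingHom
    (tev (vp k b) t) = MvPolynomial.aeval y (tev (vp k b) t) := rfl
  rw [← h1, h, ← tev_real]
  congr 1
  funext i
  unfold vp pt xtn
  show (MvPolynomial.aeval y) _ = _
  by_cases hi : i < k
  · rw [dif_pos hi, if_pos hi, dif_pos (by omega), MvPolynomial.aeval_X]
  · rw [_root_.dif_neg hi, if_neg hi]
    split_ifs <;> simp

theorem deg_vp (t : Tm) : (tev (vp k b) t).totalDegree ≤ rdeg k t := by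
  induction t with
  | var i =>
    simp only [tev, vp, rdeg]
    by_cases hi : i < k
    · rw [dif_pos hi, if_pos hi, MvPolynomial.totalDegree_X]
    · rw [_root_.dif_neg hi, if_neg hi]
      split_ifs <;> simp
  | zero => simp [tev, rdeg]
  | one => simp [tev, rdeg]
  | add s t ihs iht => exact (MvPolynomial.totalDegree_add _ _).trans (max_le_max ihs iht)
  | neg t ih =>
    simp only [tev, rdeg, MvPolynomial.totalDegree_neg]
    exact ih
  | mul s t ihs iht => exact (MvPolynomial.totalDegree_mul _ _).trans (Nat.add_le_add ihs iht)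

theorem mnrm_one_le : mnrm (1 : MvPolynomial (Fin (k + 1)) ℤ) ≤ 1 := by
  rw [← MvPolynomial.C_1, mnrm_C]
  simp

theorem nrm_vp (t : Tm) : mnrm (tev (vp k b) t) ≤ 2 ^ tsz t := by
  induction t with
  | var i =>
    simp only [tev, vp, tsz]
    by_cases hi : i < k
    · rw [dif_pos hi, mnrm_X]; norm_num
    · rw [_root_.dif_neg hi]
      split_ifs
      · exact mnrm_one_le.trans (by norm_num)
      · rw [mnrm_zero]; norm_num
  | zero => simp [tev, tsz, mnrm_zero]
  | one => exact mnrm_one_le.trans (by simp [tsz])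
  | add s t ihs iht =>
    refine (mnrm_add_le _ _).trans ?_
    simp only [tsz]
    have h1 : 2 ^ tsz s ≤ 2 ^ (tsz s + tsz t) := Nat.pow_le_pow_right (by norm_num) (by omega)
    have h2 : 2 ^ tsz t ≤ 2 ^ (tsz s + tsz t) := Nat.pow_le_pow_right (by norm_num) (by omega)
    rw [pow_succ]
    omega
  | neg t ih =>
    simp only [tev, tsz, mnrm_neg]
    exact ih.trans (Nat.pow_le_pow_right (by norm_num) (by omega))
  | mul s t ihs iht =>
    refine (mnrm_mul_le _ _).trans ((Nat.mul_le_mul ihs iht).trans ?_)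
    rw [← pow_add]
    exact Nat.pow_le_pow_right (by norm_num) (by simp only [tsz]; omega)

/-- the polynomial of a strict inequality -/
noncomputable def qp (k : ℕ) (b : ℕ → Bool) (t : Tm) : MvPolynomial (Fin (k + 1)) ℤ :=
  tev (vp k b) t * MvPolynomial.X (Fin.last k) ^ 2 - 1

theorem aeval_qp (y : Fin (k + 1) → ℝ) (t : Tm) :
    MvPolynomial.aeval y (qp k b t) = t.eval (pt k b (xtn y)) * y (Fin.last k) ^ 2 - 1 := by
  simp only [qp, map_sub, map_mul, map_pow, MvPolynomial.aeval_X, map_one, aeval_vp]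

/-- the conditions on the expressions -/
def Good (k D s : ℕ) (E : List Tm) : Prop := ∀ t ∈ E, rdeg k t ≤ D ∧ tsz t ≤ s

/-- the function of the system -/
noncomputable def GG (k : ℕ) (b : ℕ → Bool) (E F : List Tm) : (Fin (k + 1) → ℝ) → ℝ :=
  Gf (E.map (tev (vp k b))) (F.map (qp k b))

/-- the bound for the coefficients -/
def gam (E F : List Tm) (s : ℕ) : ℕ := (E.length + F.length) * (2 ^ s + 1) ^ 2

theorem pw_GG {D s : ℕ} {E F : List Tm} (hE : Good k D s E) (hF : Good k D s F) :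
    PW (GG k b E F) (Pc (E.map (tev (vp k b))) (F.map (qp k b))) (2 * D + 5) (gam E F s) := by
  refine pw_Gf (d := D + 2) (μ := 2 ^ s + 1) ?_ ?_ (by omega) ?_
  · intro p hp
    obtain ⟨t, ht, rfl⟩ := List.mem_map.1 hp
    refine ⟨(deg_vp t).trans ((hE t ht).1.trans (by omega)), (nrm_vp t).trans ?_⟩
    exact (Nat.pow_le_pow_right (by norm_num) (hE t ht).2).trans (by omega)
  · intro p hp
    obtain ⟨t, ht, rfl⟩ := List.mem_map.1 hp
    constructor
    · unfold qp
      refine (MvPolynomial.totalDegree_sub _ _).trans (max_le ?_ (by simp))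
      refine (MvPolynomial.totalDegree_mul _ _).trans (Nat.add_le_add
        ((deg_vp t).trans (hF t ht).1) ?_)
      refine (MvPolynomial.totalDegree_pow _ _).trans ?_
      rw [MvPolynomial.totalDegree_X]
    · unfold qp
      refine (mnrm_sub_le _ _).trans (Nat.add_le_add ?_ mnrm_one_le)
      refine (mnrm_mul_le _ _).trans ?_
      have h1 : mnrm ((MvPolynomial.X (Fin.last k) : MvPolynomial (Fin (k + 1)) ℤ) ^ 2) ≤ 1 := by
        rw [pow_two]
        refine (mnrm_mul_le _ _).trans ?_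
        rw [mnrm_X]
      calc _ ≤ 2 ^ s * 1 := Nat.mul_le_mul ((nrm_vp t).trans
            (Nat.pow_le_pow_right (by norm_num) (hF t ht).2)) h1
        _ = 2 ^ s := mul_one _
  · simp [gam]

theorem GG_zero (E F : List Tm) (y : Fin (k + 1) → ℝ) : GG k b E F y = 0 ↔
    (∀ t ∈ E, t.eval (pt k b (xtn y)) = 0) ∧
      ∀ t ∈ F, 1 ≤ t.eval (pt k b (xtn y)) * y (Fin.last k) ^ 2 := by
  unfold GG
  rw [Gf_eq_zero]
  constructor
  · rintro ⟨h1, h2⟩
    refine ⟨fun t ht => ?_, fun t ht => ?_⟩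
    · have := h1 _ (List.mem_map.2 ⟨t, ht, rfl⟩)
      rwa [aeval_vp] at this
    · have := h2 _ (List.mem_map.2 ⟨t, ht, rfl⟩)
      rw [aeval_qp] at this
      linarith
  · rintro ⟨h1, h2⟩
    refine ⟨fun p hp => ?_, fun p hp => ?_⟩
    · obtain ⟨t, ht, rfl⟩ := List.mem_map.1 hp
      rw [aeval_vp]
      exact h1 t ht
    · obtain ⟨t, ht, rfl⟩ := List.mem_map.1 hp
      rw [aeval_qp]
      have := h2 t ht
      linarith

/-- the point of the space of dimension `k + 1` -/
def mkp (k : ℕ) (u : ℕ → ℝ) (τ : ℝ) : Fin (k + 1) → ℝ := fun i => if (i : ℕ) < k then u i else τ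

theorem pt_mkp (u : ℕ → ℝ) (τ : ℝ) : pt k b (xtn (mkp k u τ)) = pt k b u := by
  funext i
  unfold pt
  by_cases hi : i < k
  · rw [if_pos hi, if_pos hi, xtn, dif_pos (by omega), mkp]
    simp [hi]
  · rw [if_neg hi, if_neg hi]

theorem mkp_last (u : ℕ → ℝ) (τ : ℝ) : mkp k u τ (Fin.last k) = τ := by
  simp [mkp]

theorem exists_tau (F : List ℝ) (h : ∀ r ∈ F, 0 < r) : ∃ τ : ℝ, 1 ≤ τ ∧ ∀ r ∈ F, 1 ≤ r * τ ^ 2 := by
  induction F with
  | nil => exact ⟨1, le_rfl, by simp⟩
  | cons r F ih =>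
    obtain ⟨τ, h1, h2⟩ := ih fun r hr => h r (List.mem_cons_of_mem _ hr)
    have hr := h r List.mem_cons_self
    refine ⟨τ + 1 / r, ?_, ?_⟩
    · have : 0 < 1 / r := by positivity
      linarith
    · have h3 : 0 < 1 / r := by positivity
      intro r' hr'
      rcases List.mem_cons.1 hr' with rfl | hr'
      · have h4 : (1 : ℝ) / r' * r' = 1 := by field_simp
        have h5 : τ + 1 / r' ≥ 1 := by linarith
        have h6 : (τ + 1 / r') ^ 2 ≥ 1 / r' := by nlinarith
        nlinarith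
      · have h4 := h2 r' hr'
        have h5 := h r' (List.mem_cons_of_mem _ hr')
        have h6 : τ ^ 2 ≤ (τ + 1 / r) ^ 2 := by nlinarith
        nlinarith

/-- **Exact solutions of bounded size.** -/
theorem exact_bounded {D s : ℕ} {E F : List Tm} (hE : Good k D s E) (hF : Good k D s F)
    {u : ℕ → ℝ} (h : ∀ t ∈ E, t.eval (pt k b u) = 0) (h' : ∀ t ∈ F, 0 < t.eval (pt k b u)) :
    ∃ u' : ℕ → ℝ, (∀ i, |u' i| ≤ ((max 1 (BB (k + 1) (2 * D + 5) (gam E F s)) : ℕ) : ℝ)) ∧
      (∀ t ∈ E, t.eval (pt k b u') = 0) ∧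
      ∀ t ∈ F, 1 ≤ t.eval (pt k b u') *
        ((max 1 (BB (k + 1) (2 * D + 5) (gam E F s)) : ℕ) : ℝ) ^ 2 := by
  obtain ⟨τ, -, hτ⟩ := exists_tau (F.map fun t => t.eval (pt k b u)) (by
    intro r hr
    obtain ⟨t, ht, rfl⟩ := List.mem_map.1 hr
    exact h' t ht)
  have h0 : GG k b E F (mkp k u τ) = 0 := by
    rw [GG_zero, pt_mkp, mkp_last]
    exact ⟨h, fun t ht => hτ _ (List.mem_map.2 ⟨t, ht, rfl⟩)⟩
  obtain ⟨y, hy0, hy⟩ := (pw_GG (b := b) hE hF).ball ⟨D + 2, by ring⟩ _ h0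
  rw [GG_zero] at hy0
  obtain ⟨h1, h2⟩ := hy0
  set R : ℝ := ((max 1 (BB (k + 1) (2 * D + 5) (gam E F s)) : ℕ) : ℝ) with hR
  have hR1 : 1 ≤ R := by
    rw [hR]
    exact_mod_cast le_max_left _ _
  refine ⟨xtn y, ?_, h1, ?_⟩
  · intro i
    unfold xtn
    split_ifs with hi
    · exact hy _
    · rw [abs_zero]; linarith
  · intro t ht
    have h3 := h2 t ht
    have h4 : y (Fin.last k) ^ 2 ≤ R ^ 2 := by
      have := hy (Fin.last k)
      rw [← sq_abs]
      exact pow_le_pow_left₀ (abs_nonneg _) this 2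
    have h5 : 0 < t.eval (pt k b (xtn y)) := by
      by_contra hneg
      push Not at hneg
      have := mul_nonpos_of_nonpos_of_nonneg hneg (sq_nonneg (y (Fin.last k)))
      linarith
    calc (1 : ℝ) ≤ t.eval (pt k b (xtn y)) * y (Fin.last k) ^ 2 := h3
      _ ≤ _ := mul_le_mul_of_nonneg_left h4 h5.le

/-- **Exact solutions from approximate solutions.** -/
theorem exact_of_approx {D s : ℕ} {E F : List Tm} (hE : Good k D s E) (hF : Good k D s F)
    {R : ℕ} (hR : 1 ≤ R) {δ : ℝ} {u : ℕ → ℝ}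
    (hu : ∀ i < k, |u i| ≤ R + 1) (h : ∀ t ∈ E, |t.eval (pt k b u)| ≤ δ)
    (h' : ∀ t ∈ F, 1 ≤ t.eval (pt k b u) * (2 * R ^ 2))
    (hδ : (((2 * D + 6) * Hb (k + 1) (2 * D + 5) ((k + 1) * (2 * R + 2) ^ (2 * D + 6) + 1)
      (gam E F s) * E.length : ℕ) : ℝ) * δ ^ 2 < 1) :
    ∃ u' : ℕ → ℝ, (∀ t ∈ E, t.eval (pt k b u') = 0) ∧ ∀ t ∈ F, 0 < t.eval (pt k b u') := by
  by_contra hno
  have hR1 : (1 : ℝ) ≤ R := by exact_mod_cast hR
  have hpos : ∀ y, 0 < GG k b E F y := by
    intro y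
    refine lt_of_le_of_ne ((pw_GG (b := b) hE hF).nonneg y) fun h0 => hno ?_
    have h1 := (GG_zero E F y).1 h0.symm
    refine ⟨xtn y, h1.1, fun t ht => ?_⟩
    have h2 := h1.2 t ht
    by_contra hneg
    push Not at hneg
    have := mul_nonpos_of_nonpos_of_nonneg hneg (sq_nonneg (y (Fin.last k)))
    linarith
  set T : ℕ := (k + 1) * (2 * R + 2) ^ (2 * D + 6) + 1 with hT
  obtain ⟨τ, hτ2, hτ0, hττ⟩ : ∃ τ : ℝ, τ ^ 2 = 2 * R ^ 2 ∧ 0 ≤ τ ∧ τ ≤ 2 * R + 2 := by
    refine ⟨Real.sqrt (2 * R ^ 2), Real.sq_sqrt (by positivity), Real.sqrt_nonneg _, ?_⟩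
    rw [Real.sqrt_le_left (by positivity)]
    nlinarith
  set y : Fin (k + 1) → ℝ := mkp k u τ with hy
  have hgap := (pw_GG (b := b) hE hF).gap ⟨D + 2, by ring⟩ T (by omega)
    (fun x _ => hpos x) y
  have hyb : ∀ i, |y i| ≤ 2 * R + 2 := by
    intro i
    rw [hy, mkp]
    split_ifs with hi
    · have := hu i hi
      linarith
    · rw [abs_of_nonneg hτ0]
      exact hττ
  have hsum : ∑ i, y i ^ (2 * D + 5 + 1) ≤ T - 1 := by
    have h1 : ∀ i ∈ (Finset.univ : Finset (Fin (k + 1))), y i ^ (2 * D + 5 + 1) ≤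
        (2 * R + 2 : ℝ) ^ (2 * D + 6) := by
      intro i _
      have h2 : y i ^ (2 * D + 5 + 1) = |y i| ^ (2 * D + 6) := by
        rw [← abs_pow, abs_of_nonneg]
        exact Even.pow_nonneg ⟨D + 3, by ring⟩ _
      rw [h2]
      exact pow_le_pow_left₀ (abs_nonneg _) (hyb i) _
    have h2 := Finset.sum_le_card_nsmul _ _ _ h1
    have h3 : ((T : ℕ) : ℝ) - 1 = (k + 1) * (2 * R + 2) ^ (2 * D + 6) := by
      rw [hT]
      push_cast
      ring
    rw [h3]
    refine h2.trans (le_of_eq ?_)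
    simp
  have hG : GG k b E F y ≤ E.length * δ ^ 2 := by
    unfold GG Gf
    have h1 : ((F.map (qp k b)).map fun q => min 0 (MvPolynomial.aeval y q : ℝ) ^ 2).sum = 0 := by
      rw [List.map_map]
      have h2 : ∀ t ∈ F, ((fun q => min 0 (MvPolynomial.aeval y q : ℝ) ^ 2) ∘ qp k b) t = 0 := by
        intro t ht
        have h3 := h' t ht
        simp only [Function.comp, aeval_qp]
        rw [hy, pt_mkp, mkp_last, hτ2, min_eq_left (by linarith)]
        norm_num
      rw [List.map_congr_left h2]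
      simp
    rw [h1, add_zero, List.map_map]
    have h2 : ∀ E' : List Tm, (∀ t ∈ E', |t.eval (pt k b u)| ≤ δ) →
        (E'.map ((fun p => (MvPolynomial.aeval y p : ℝ) ^ 2) ∘ tev (vp k b))).sum ≤
          E'.length * δ ^ 2 := by
      intro E' hE'
      induction E' with
      | nil => simp
      | cons t E' ih =>
        have h3 := ih fun t ht => hE' t (List.mem_cons_of_mem _ ht)
        have h4 := hE' t List.mem_cons_self
        rw [List.map_cons, List.sum_cons, List.length_cons]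
        simp only [Function.comp, aeval_vp]
        simp only [Function.comp_def, aeval_vp] at h3 ⊢
        have h5 : t.eval (pt k b (xtn y)) ^ 2 ≤ δ ^ 2 := by
          rw [hy, pt_mkp, ← sq_abs]
          exact pow_le_pow_left₀ (abs_nonneg _) h4 2
        push_cast
        linarith
    exact h2 E h
  have hG0 := hpos y
  have h1 : (((2 * D + 5 : ℕ) : ℝ) + 1) * Hb (k + 1) (2 * D + 5) T (gam E F s) * GG k b E F y < 1 := by
    refine lt_of_le_of_lt ?_ hδ
    push_cast
    have h2 : (0 : ℝ) ≤ (2 * D + 6) * Hb (k + 1) (2 * D + 5) T (gam E F s) := by positivity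
    have h3 := mul_le_mul_of_nonneg_left hG h2
    calc _ = (2 * D + 6) * Hb (k + 1) (2 * D + 5) T (gam E F s) * GG k b E F y := by ring
      _ ≤ _ := h3
      _ = _ := by ring
  linarith

end Pool.Agent.J6H79.FR
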