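import Pool.Agent.J6H79.FR.Hard2
import Pool.Agent.H622R2.CoNP

/-!
# `NP = ∃ℝ` and the restricted problems
-/

set_option autoImplicit false

namespace Pool.Agent.NPC.ER.J6H79

open Pool.Agent.J6H79.FR Pool.Agent.J6H79.RS Pool.Agent.NPC.H670R2

theorem np_iff_of {P : ℕ × Fm → Prop} (hred : ∀ L : Set (List Bool), InER L →
    ∃ f : List Bool → ℕ × Fm, PolyTime (fun w => bits (f w)) ∧ ∀ w, P (f w) ∧
      (w ∈ L ↔ ETR (f w).2)) :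
    (∀ L : Set (List Bool), InER L → InNP L) ↔
    ∃ A : Set (List Bool), InNP A ∧ ∀ I : ℕ × Fm, P I → (bits I ∈ A ↔ ETR I.2) := by
  constructor
  · intro h
    have h1 : InER (lang fun I : ℕ × Fm => ETR I.2) :=
      ER.InER.of_poly (φ := fun I : ℕ × Fm => I.2) (Poly.snd Poly.id) fun _ => Iff.rfl
    exact ⟨_, h _ h1, fun I _ => bits_mem_lang⟩
  · rintro ⟨A, hA, h⟩ L hL
    obtain ⟨f, hf, hf'⟩ := hred L hL
    refine H622R2.InNP.of_reduces ⟨fun w => bits (f w), hf, fun w => ?_⟩ hA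
    rw [(hf' w).2, h _ (hf' w).1]

theorem np_iff_pow (c : ℕ) : (∀ L : Set (List Bool), InER L → InNP L) ↔
    ∃ A : Set (List Bool), InNP A ∧ ∀ (n : ℕ) (φ : Fm), n ^ c ≤ φ.toks.length →
      (∀ t ∈ atoms φ, rdeg n t ≤ 2 ∧ ∀ i ∈ tvars t, i < n) → (bits (n, φ) ∈ A ↔ ETR φ) := by
  rw [np_iff_of (P := fun I => I.1 ^ c ≤ I.2.toks.length ∧
    ∀ t ∈ atoms I.2, rdeg I.1 t ≤ 2 ∧ ∀ i ∈ tvars t, i < I.1) fun L hL => by
      obtain ⟨f, hf, hf'⟩ := hard_pow c hL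
      exact ⟨f, hf, fun w => ⟨⟨(hf' w).1, (hf' w).2.1⟩, (hf' w).2.2⟩⟩]
  constructor
  · rintro ⟨A, hA, h⟩
    exact ⟨A, hA, fun n φ h1 h2 => h (n, φ) ⟨h1, h2⟩⟩
  · rintro ⟨A, hA, h⟩
    exact ⟨A, hA, fun I hI => h I.1 I.2 hI.1 hI.2⟩

theorem np_iff_link : (∀ L : Set (List Bool), InER L → InNP L) ↔
    ∃ A : Set (List Bool), InNP A ∧ ∀ (g : ℕ) (φ : Fm),
      (∀ t ∈ atoms φ, rdeg (3 * (g + 1)) t ≤ 2 ∧ (∀ i ∈ tvars t, i < 3 * (g + 1)) ∧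
        (OneGrp 3 g t ∨ ∃ i j, t = .add (.var i) (.neg (.var j)))) →
      (bits (g, φ) ∈ A ↔ ETR φ) := by
  rw [np_iff_of (P := fun I => ∀ t ∈ atoms I.2, rdeg (3 * (I.1 + 1)) t ≤ 2 ∧
    (∀ i ∈ tvars t, i < 3 * (I.1 + 1)) ∧
    (OneGrp 3 I.1 t ∨ ∃ i j, t = .add (.var i) (.neg (.var j)))) fun L hL => hard_link hL]
  constructor
  · rintro ⟨A, hA, h⟩
    exact ⟨A, hA, fun n φ h1 => h (n, φ) h1⟩
  · rintro ⟨A, hA, h⟩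
    exact ⟨A, hA, fun I hI => h I.1 I.2 hI⟩

end Pool.Agent.NPC.ER.J6H79
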