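import Pool.Agent.J6H79.FR.Cert

/-!
# Substitution certificates for all groups
-/

set_option autoImplicit false

namespace Pool.Agent.J6H79.FR

open Pool.Agent.H625R2 Pool.Agent.NPC Pool.Agent.NPC.ER Pool.Agent.NPC.ER.Ball
open Pool.Agent.J6H79.RS

/-- the number of the group of an expression -/
noncomputable def gi (k g : ℕ) (t : Tm) : ℕ :=
  open Classical in if h : ∃ i ∈ tvars t, isReal (k * (g + 1)) i then grp k g h.choose else 0

theorem gi_le (k g : ℕ) (t : Tm) : gi k g t ≤ g := by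
  unfold gi
  split_ifs
  · exact grp_le _ _ _
  · exact Nat.zero_le _

theorem gi_spec {k g : ℕ} {t : Tm} (h : OneGrp k g t) : ∀ i ∈ tvars t, isReal (k * (g + 1)) i →
    grp k g i = gi k g t := by
  intro i hi hr
  have h1 : ∃ i ∈ tvars t, isReal (k * (g + 1)) i := ⟨i, hi, hr⟩
  unfold gi
  rw [dif_pos h1]
  exact h i hi _ h1.choose_spec.1 hr h1.choose_spec.2

/-- the substitution -/
def SS (k g : ℕ) (τ : ℕ → Tm) (i : ℕ) : Tm :=
  if isLin (k * (g + 1)) i then τ i else .var (nv k g i)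

theorem exists_gap (f : Tm → ℝ) : ∀ l : List Tm, ∃ d : ℝ, 0 < d ∧ ∀ t ∈ l, f t ≠ 0 → d ≤ |f t|
  | [] => ⟨1, one_pos, by simp⟩
  | t :: l => by
    obtain ⟨d, hd, h⟩ := exists_gap f l
    by_cases ht : f t = 0
    · refine ⟨d, hd, fun u hu hu0 => ?_⟩
      rcases List.mem_cons.1 hu with rfl | hu
      · exact absurd ht hu0
      · exact h u hu hu0
    · refine ⟨min d |f t|, lt_min hd (abs_pos.2 ht), fun u hu hu0 => ?_⟩
      rcases List.mem_cons.1 hu with rfl | hu
      · exact min_le_right _ _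
      · exact (min_le_left _ _).trans (h u hu hu0)

theorem tb_mono {c c' : ℕ} (h : c ≤ c') (T : ℕ) : tb c T ≤ tb c' T := by
  unfold tb
  have h1 : c * c ≤ c' * c' := Nat.mul_le_mul h h
  have h2 : T * c ≤ T * c' := Nat.mul_le_mul_left _ h
  exact Nat.add_le_add_right (Nat.mul_le_mul h (by omega)) 3

theorem exists_sub {k g D T M : ℕ} {φ : Fm}
    (hat : ∀ t ∈ atoms φ, rdeg (k * (g + 1)) t ≤ D ∧ LinOK (k * (g + 1)) t ∧ OneGrp k g t ∧
      tsz t ≤ T ∧ ∀ i ∈ tvars t, i ≤ M)
    {x : ℕ → ℝ} (hx : ∀ i, k * (g + 1) ≤ i → i % 2 = 0 → x i = 0 ∨ x i = 1) (hφ : φ.Holds x) :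
    ∃ τ : ℕ → Tm, (∀ j, tsz (τ j) ≤ tb (atoms φ).length T ∧
        ∀ m ∈ tvars (τ j), m ≤ M + (k + 2) * (g + 1) + 2 * (g + 1)) ∧
      (∀ t ∈ atoms (subF (SS k g τ) φ), rdeg ((k + 2) * (g + 1)) t ≤ D + 2 ∧
        OneGroup (k + 2) ((k + 2) * (g + 1)) t) ∧
      ∃ x' : ℕ → ℝ, (∀ i, (k + 2) * (g + 1) ≤ i → x' i = 0 ∨ x' i = 1) ∧
        (subF (SS k g τ) φ).Holds x' := by
  classical
  set K := k * (g + 1) with hK
  have hKK : (k + 2) * (g + 1) = K + 2 * (g + 1) := by rw [hK]; ring
  set v : ℕ → ℤ := fun i => if x i = 1 then 1 else 0 with hvdef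
  have hv1 : ∀ i, |v i| ≤ 1 := by
    intro i
    simp only [hvdef]
    split_ifs <;> simp
  have hv : ∀ i, ¬ isReal K i → x i = v i := by
    intro i hi
    unfold isReal at hi
    rcases hx i (by omega) (by omega) with h | h
    · simp [hvdef, h]
    · simp [hvdef, h]
  obtain ⟨d, hd, hdx⟩ := exists_gap (fun t => t.eval x) (atoms φ)
  set R : ℕ → Finset Tm := fun γ => ((atoms φ).filter fun t => gi k g t = γ).toFinset with hR
  have hRmem : ∀ γ t, t ∈ R γ → t ∈ atoms φ ∧ gi k g t = γ := by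
    intro γ t ht
    have h1 := List.mem_filter.1 (List.mem_toFinset.1 ht)
    exact ⟨h1.1, by simpa using h1.2⟩
  have hRcard : ∀ γ, (R γ).card ≤ (atoms φ).length := fun γ =>
    (List.toFinset_card_le _).trans (List.length_filter_le _ _)
  have hRin : ∀ t ∈ atoms φ, t ∈ R (gi k g t) := fun t ht =>
    List.mem_toFinset.2 (List.mem_filter.2 ⟨ht, by simp⟩)
  have H : ∀ γ, ∃ (τ : ℕ → Tm) (n : ℝ), γ ≤ g →
      (∀ j, tsz (τ j) ≤ tb (R γ).card T ∧ rdeg ((k + 2) * (g + 1)) (τ j) ≤ D + 2 ∧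
        ∀ m ∈ tvars (τ j), (m < (k + 2) * (g + 1) → m / (k + 2) = γ) ∧
          m ≤ M + (k + 2) * (g + 1) + 2 * (g + 1)) ∧
      ∀ x' : ℕ → ℝ, (∀ i, ¬ isLin (k * (g + 1)) i → x' (nv k g i) = x i) →
        x' ((k + 2) * γ + k) = d → x' ((k + 2) * γ + (k + 1)) = n →
        ∀ t ∈ R γ, SignType.sign (t.eval (mix (k * (g + 1)) (fun j => (τ j).eval x') x)) =
          SignType.sign (t.eval x) := by
    intro γ
    by_cases hγ : γ ≤ g
    · obtain ⟨τ, n, h⟩ := group_sub (R := R γ) (D := D) (T := T) (M := M) hγ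
        (fun t ht => by
          obtain ⟨h1, h2⟩ := hRmem γ t ht
          obtain ⟨e1, e2, e3, e4, _⟩ := hat t h1
          refine ⟨e1, e2, e4, fun i hi hr => ?_⟩
          rw [gi_spec e3 i hi hr, h2])
        (fun t ht => (hat t (hRmem γ t ht).1).2.2.2.2) hv1 hv hd
        (fun t ht => hdx t (hRmem γ t ht).1)
      exact ⟨τ, n, fun _ => h⟩
    · exact ⟨fun _ => .zero, 0, fun h => absurd h hγ⟩
  choose τ n H using H
  set τ' : ℕ → Tm := fun j => τ (grp k g j) j with hτ'
  set x' : ℕ → ℝ := fun m =>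
    if m < (k + 2) * (g + 1) then
      (if m % (k + 2) < k then x (k * (m / (k + 2)) + m % (k + 2))
        else if m % (k + 2) = k then d else n (m / (k + 2)))
    else if (m - 2 * (g + 1)) % 2 = 0 then x (m - 2 * (g + 1)) else 0 with hx'
  have hx'nv : ∀ i, ¬ isLin (k * (g + 1)) i → x' (nv k g i) = x i := by
    intro i hi
    by_cases h1 : i < k * (g + 1)
    · obtain ⟨r, hr, h2, h3⟩ := nv_real h1
      have h4 : i / k ≤ g := by
        have := grp_le k g i
        rwa [grp, if_pos h1] at this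
      simp only [hx']
      rw [h3, if_pos (slot_lt h4 (by omega)), slot_mod (by omega), slot_div (by omega), if_pos hr,
        ← h2, Nat.div_add_mod]
    · simp only [hx']
      rw [nv_bit h1, Nat.add_sub_cancel, if_neg (by omega), if_pos]
      unfold isLin at hi
      omega
  have hx'd : ∀ γ ≤ g, x' ((k + 2) * γ + k) = d := by
    intro γ hγ
    simp only [hx']
    rw [if_pos (slot_lt hγ (by omega)), slot_mod (by omega), if_neg (lt_irrefl _), if_pos rfl]
  have hx'n : ∀ γ ≤ g, x' ((k + 2) * γ + (k + 1)) = n γ := by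
    intro γ hγ
    simp only [hx']
    rw [if_pos (slot_lt hγ (by omega)), slot_mod (by omega), slot_div (by omega),
      if_neg (by omega), if_neg (by omega)]
  refine ⟨τ', fun j => ?_, ?_, x', fun i hi => ?_, ?_⟩
  · have h1 := (H _ (grp_le k g j)).1 j
    exact ⟨h1.1.trans (tb_mono (hRcard _) T), fun m hm => (h1.2.2 m hm).2⟩
  · rw [atoms_subF]
    intro u hu
    obtain ⟨t, ht, rfl⟩ := List.mem_map.1 hu
    obtain ⟨e1, e2, e3, e4, _⟩ := hat t ht
    constructor
    · have h1 := (rdeg_sub (K := K) (K' := (k + 2) * (g + 1)) (E := D + 2) (S := SS k g τ')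
        (fun i hi => by
          unfold SS
          rw [if_neg hi]
          exact rdeg_nv)
        (fun i hi => by
          unfold SS
          rw [if_pos hi]
          exact ((H _ (grp_le k g i)).1 i).2.1) e2).1
      omega
    · have key : ∀ m ∈ tvars (sub (SS k g τ') t), m < (k + 2) * (g + 1) →
          m / (k + 2) = gi k g t := by
        intro m hm hmK
        obtain ⟨i, hi, hmi⟩ := tvars_sub.1 hm
        unfold SS at hmi
        split_ifs at hmi with hl
        · have h1 := (((H _ (grp_le k g i)).1 i).2.2 m hmi).1 hmK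
          rw [h1]
          exact gi_spec e3 i hi (isReal_of_isLin hl)
        · simp only [tvars, List.mem_singleton] at hmi
          subst hmi
          by_cases h1 : i < k * (g + 1)
          · obtain ⟨r, hr, h2, h3⟩ := nv_real h1
            rw [h3, slot_div (by omega)]
            have h4 := gi_spec e3 i hi (Or.inl h1)
            rwa [grp, if_pos h1] at h4
          · rw [nv_bit h1] at hmK
            omega
      intro i hi j hj hiK hjK
      rw [key i hi hiK, key j hj hjK]
  · simp only [hx']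
    rw [if_neg (by omega)]
    split_ifs with h1
    · exact hx _ (by omega) h1
    · exact Or.inl rfl
  · rw [holds_subF]
    refine (holds_congr ?_).1 hφ
    intro t ht
    obtain ⟨e1, e2, e3, e4, _⟩ := hat t ht
    have h1 := (H _ (gi_le k g t)).2 x' hx'nv (hx'd _ (gi_le k g t)) (hx'n _ (gi_le k g t)) t
      (hRin t ht)
    rw [← h1]
    congr 1
    apply eval_congr'
    intro i hi
    unfold mix SS
    split_ifs with hl
    · show (τ (gi k g t) i).eval x' = (τ (grp k g i) i).eval x'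
      rw [gi_spec e3 i hi (isReal_of_isLin hl)]
    · exact (hx'nv i hl).symm

end Pool.Agent.J6H79.FR
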