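import Pool.Agent.J6H79.FR.Par

/-!
# Formulas with real variables in small groups and 0/1 variables

`main_iff` : satisfiability is equivalent to the existence of a dyadic point of polynomial size at
which the signs of all atomic formulas are clearly decided.
-/

set_option autoImplicit false

namespace Pool.Agent.J6H79.FR

open Pool.Agent.H625R2 Pool.Agent.NPC Pool.Agent.NPC.ER Pool.Agent.NPC.ER.Ball
open Pool.Agent.J6H79.RS

/-- All real variables (those with index `< K`) of the expression are in the same group; the group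
of the variable `i` has the number `i / k`. -/
def OneGroup (k K : ℕ) (t : Tm) : Prop :=
  ∀ i ∈ tvars t, ∀ j ∈ tvars t, i < K → j < K → i / k = j / k

theorem eval_congr' {x y : ℕ → ℝ} : ∀ {t : Tm}, (∀ i ∈ tvars t, x i = y i) → t.eval x = t.eval y
  | .var i, h => h i (by simp [tvars])
  | .zero, _ => rfl
  | .one, _ => rfl
  | .add s t, h => by
    have h1 := eval_congr' (t := s) fun i hi => h i (by simp [tvars, hi])
    have h2 := eval_congr' (t := t) fun i hi => h i (by simp [tvars, hi])
    simp only [Tm.eval, h1, h2]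
  | .neg t, h => by
    have h2 := eval_congr' (t := t) fun i hi => h i (by simpa [tvars] using hi)
    simp only [Tm.eval, h2]
  | .mul s t, h => by
    have h1 := eval_congr' (t := s) fun i hi => h i (by simp [tvars, hi])
    have h2 := eval_congr' (t := t) fun i hi => h i (by simp [tvars, hi])
    simp only [Tm.eval, h1, h2]

/-- renaming of variables -/
def ren (ρ : ℕ → ℕ) : Tm → Tm
  | .var i => .var (ρ i)
  | .zero => .zero
  | .one => .one
  | .add s t => .add (ren ρ s) (ren ρ t)
  | .neg t => .neg (ren ρ t)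
  | .mul s t => .mul (ren ρ s) (ren ρ t)

theorem eval_ren (ρ : ℕ → ℕ) (x : ℕ → ℝ) (t : Tm) : (ren ρ t).eval x = t.eval fun i => x (ρ i) := by
  induction t with
  | var i => rfl
  | zero => rfl
  | one => rfl
  | add s t hs ht => simp only [ren, Tm.eval, hs, ht]
  | neg t ht => simp only [ren, Tm.eval, ht]
  | mul s t hs ht => simp only [ren, Tm.eval, hs, ht]

theorem tsz_ren (ρ : ℕ → ℕ) (t : Tm) : tsz (ren ρ t) = tsz t := by
  induction t <;> simp [ren, tsz, *]

theorem rdeg_ren {ρ : ℕ → ℕ} {k K : ℕ} (h : ∀ i, ρ i < k ↔ i < K) (t : Tm) :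
    rdeg k (ren ρ t) = rdeg K t := by
  induction t <;> simp [ren, rdeg, *]

/-- the renaming that maps every group to the first one -/
def rho (k K i : ℕ) : ℕ := if i < K then i % k else i + k

theorem rho_lt {k g : ℕ} (i : ℕ) : rho k (k * g) i < k ↔ i < k * g := by
  unfold rho
  split_ifs with h
  · have : 0 < k := by
      rcases Nat.eq_zero_or_pos k with h0 | h0
      · simp [h0] at h
      · exact h0
    simp [h, Nat.mod_lt _ this]
  · omega

/-- approximate signs -/
def asg (A : ℕ) (v : ℝ) : SignType → Prop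
  | .zero => |v| ≤ 1 / 2 ^ A ^ 8
  | .pos => 1 ≤ v * 2 ^ (2 * A ^ 4 + 1)
  | .neg => 1 ≤ -v * 2 ^ (2 * A ^ 4 + 1)

theorem small_lt {A : ℕ} (hA : 2 ≤ A) {v : ℝ} (h : |v| ≤ 1 / 2 ^ A ^ 8) :
    |v| * 2 ^ (2 * A ^ 4 + 1) < 1 := by
  have h1 : 2 * A ^ 4 + 1 < A ^ 8 := by
    have e1 : A ^ 8 = A ^ 4 * A ^ 4 := by ring
    have e2 : 16 ≤ A ^ 4 := by
      calc 16 = 2 ^ 4 := by norm_num
        _ ≤ A ^ 4 := Nat.pow_le_pow_left hA 4
    have e3 : 16 * A ^ 4 ≤ A ^ 4 * A ^ 4 := Nat.mul_le_mul_right _ e2
    omega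
  have h2 : (2 : ℝ) ^ (2 * A ^ 4 + 1) < 2 ^ A ^ 8 := pow_lt_pow_right₀ (by norm_num) h1
  calc |v| * 2 ^ (2 * A ^ 4 + 1) ≤ 1 / 2 ^ A ^ 8 * 2 ^ (2 * A ^ 4 + 1) :=
        mul_le_mul_of_nonneg_right h (by positivity)
    _ < 1 := by
        rw [div_mul_eq_mul_div, one_mul, div_lt_one (by positivity)]
        exact h2

theorem asg_inj {A : ℕ} (hA : 2 ≤ A) {v : ℝ} {σ τ : SignType} (h : asg A v σ) (h' : asg A v τ) :
    σ = τ := by
  have hp : (0 : ℝ) < 2 ^ (2 * A ^ 4 + 1) := by positivity
  have e1 := le_abs_self v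
  have e2 := neg_abs_le v
  cases σ <;> cases τ <;> simp only [asg] at h h' <;> try rfl
  · have h3 := small_lt hA h
    nlinarith
  · have h3 := small_lt hA h
    nlinarith
  · have h3 := small_lt hA h'
    nlinarith
  · nlinarith
  · have h3 := small_lt hA h'
    nlinarith
  · nlinarith

/-- the size bound for the numerators of the coordinates -/
def Bnd (A : ℕ) : ℕ := (2 ^ A ^ 4 + 1) * 2 ^ (A ^ 8 + A ^ 6)

theorem sgn_iff {k D s A : ℕ} {b : ℕ → Bool} {L : List Tm} (σ : Tm → SignType)
    (hL : ∀ t ∈ L, rdeg k t ≤ D ∧ tsz t ≤ s)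
    (hA : (2 * D + 5) ^ (k + 1) + 3 * (s + 1) + 3 * L.length + 4 ≤ A) :
    (∃ u : ℕ → ℝ, ∀ t ∈ L, SignType.sign (t.eval (pt k b u)) = σ t) ↔
    ∃ a c : ℕ → ℕ, (∀ i < k, a i ≤ Bnd A ∧ c i ≤ Bnd A) ∧
      ∀ t ∈ L, asg A (t.eval (pt k b (dy (A ^ 8 + A ^ 6) a c))) (σ t) := by
  set E := L.filter (fun t => σ t = SignType.zero) with hE
  set F := L.filter (fun t => σ t = SignType.pos) ++
    (L.filter (fun t => σ t = SignType.neg)).map Tm.neg with hF
  have hE1 : Good k D (s + 1) E := by
    intro t ht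
    have := hL t (List.mem_of_mem_filter ht)
    exact ⟨this.1, this.2.trans (Nat.le_succ _)⟩
  have hF1 : Good k D (s + 1) F := by
    intro t ht
    rw [hF, List.mem_append, List.mem_map] at ht
    rcases ht with ht | ⟨t', ht', rfl⟩
    · have := hL t (List.mem_of_mem_filter ht)
      exact ⟨this.1, this.2.trans (Nat.le_succ _)⟩
    · have := hL t' (List.mem_of_mem_filter ht')
      exact ⟨this.1, Nat.succ_le_succ this.2⟩
  have hl1 : E.length ≤ L.length := List.length_filter_le _ _
  have hl2 : F.length ≤ L.length + L.length := by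
    rw [hF, List.length_append, List.length_map]
    exact Nat.add_le_add (List.length_filter_le _ _) (List.length_filter_le _ _)
  have key := exact_iff (b := b) hE1 hF1 (A := A) (by omega)
  have hEi : ∀ (f : Tm → Prop), (∀ t ∈ E, f t) ↔ ∀ t ∈ L, σ t = SignType.zero → f t := by
    intro f
    simp only [hE, List.mem_filter, decide_eq_true_eq, and_imp]
  have hFi : ∀ (f : Tm → Prop), (∀ t ∈ F, f t) ↔ ∀ t ∈ L, (σ t = SignType.pos → f t) ∧
      (σ t = SignType.neg → f (Tm.neg t)) := by
    intro f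
    simp only [hF, List.mem_append, List.mem_map, List.mem_filter, decide_eq_true_eq]
    constructor
    · intro h t ht
      exact ⟨fun h1 => h t (Or.inl ⟨ht, h1⟩), fun h1 => h _ (Or.inr ⟨t, ⟨ht, h1⟩, rfl⟩)⟩
    · rintro h t (⟨ht, h1⟩ | ⟨t', ⟨ht, h1⟩, rfl⟩)
      · exact (h t ht).1 h1
      · exact (h t' ht).2 h1
  constructor
  · rintro ⟨u, hu⟩
    obtain ⟨a, c, h1, h2, h3⟩ := key.1 ⟨u, by
      rw [hEi]
      intro t ht h0
      have := hu t ht
      rw [h0] at this
      exact sign_eq_zero_iff.1 this, by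
      rw [hFi]
      intro t ht
      refine ⟨fun h0 => ?_, fun h0 => ?_⟩
      · have := hu t ht
        rw [h0] at this
        exact sign_eq_one_iff.1 this
      · have := hu t ht
        rw [h0] at this
        have h4 := sign_eq_neg_one_iff.1 this
        simp only [Tm.eval]
        linarith⟩
    rw [hEi] at h2
    rw [hFi] at h3
    refine ⟨a, c, h1, fun t ht => ?_⟩
    cases h0 : σ t with
    | zero => exact h2 t ht h0
    | pos => exact (h3 t ht).1 h0
    | neg => exact (h3 t ht).2 h0
  · rintro ⟨a, c, h1, h2⟩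
    obtain ⟨u, h3, h4⟩ := key.2 ⟨a, c, h1, by
      rw [hEi]
      intro t ht h0
      have := h2 t ht
      rw [h0] at this
      exact this, by
      rw [hFi]
      intro t ht
      refine ⟨fun h0 => ?_, fun h0 => ?_⟩
      · have := h2 t ht
        rw [h0] at this
        exact this
      · have := h2 t ht
        rw [h0] at this
        exact this⟩
    rw [hEi] at h3
    rw [hFi] at h4
    refine ⟨u, fun t ht => ?_⟩
    cases h0 : σ t with
    | zero => exact sign_eq_zero_iff.2 (h3 t ht h0)
    | pos => exact sign_eq_one_iff.2 ((h4 t ht).1 h0)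
    | neg =>
      have h5 := (h4 t ht).2 h0
      simp only [Tm.eval] at h5
      exact sign_eq_neg_one_iff.2 (by linarith)

/-! ### Groups -/

/-- the number of the group of an expression -/
noncomputable def gidx (k K : ℕ) (t : Tm) : ℕ :=
  open Classical in if h : ∃ i ∈ tvars t, i < K then h.choose / k else 0

theorem gidx_spec {k K : ℕ} {t : Tm} (h : OneGroup k K t) : ∀ i ∈ tvars t, i < K →
    i / k = gidx k K t := by
  intro i hi hiK
  have h1 : ∃ i ∈ tvars t, i < K := ⟨i, hi, hiK⟩
  unfold gidx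
  rw [dif_pos h1]
  exact h i hi _ h1.choose_spec.1 hiK h1.choose_spec.2

theorem key_eval {k g : ℕ} {t : Tm} {j : ℕ} (h : ∀ i ∈ tvars t, i < k * g → i / k = j)
    (b : ℕ → Bool) (U : ℕ → ℕ → ℝ) :
    (ren (rho k (k * g)) t).eval (pt k (fun i => b (i - k)) (U j)) =
      t.eval (pt (k * g) b fun i => U (i / k) (i % k)) := by
  rw [eval_ren]
  apply eval_congr'
  intro i hi
  unfold pt
  have h1 := rho_lt (k := k) (g := g) i
  by_cases hK : i < k * g
  · rw [if_pos (h1.2 hK), if_pos hK]
    show U j (rho k (k * g) i) = U (i / k) (i % k)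
    unfold rho
    rw [if_pos hK, h i hi hK]
  · rw [if_neg (fun h2 => hK (h1.1 h2)), if_neg hK]
    show (if b (rho k (k * g) i - k) = true then (1 : ℝ) else 0) = _
    unfold rho
    rw [if_neg hK, Nat.add_sub_cancel]

/-- approximate truth -/
def AH (A : ℕ) (y : ℕ → ℝ) : Fm → Prop
  | .eq s t => asg A (Tm.eval y (.add s (.neg t))) .zero
  | .lt s t => asg A (Tm.eval y (.add s (.neg t))) .neg
  | .le s t => asg A (Tm.eval y (.add s (.neg t))) .zero ∨ asg A (Tm.eval y (.add s (.neg t))) .neg
  | .not φ => ¬ AH A y φ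
  | .and φ ψ => AH A y φ ∧ AH A y ψ
  | .or φ ψ => AH A y φ ∨ AH A y ψ

theorem AH_iff {A : ℕ} (hA : 2 ≤ A) {x y : ℕ → ℝ} : ∀ {φ : Fm},
    (∀ t ∈ atoms φ, asg A (t.eval y) (SignType.sign (t.eval x))) → (AH A y φ ↔ φ.Holds x)
  | .eq s t, h => by
    have h1 := h (.add s (.neg t)) (by simp [atoms])
    show asg A _ _ ↔ s.eval x = t.eval x
    have h2 : s.eval x = t.eval x ↔ SignType.sign (Tm.eval x (.add s (.neg t))) = 0 := by
      rw [sign_eq_zero_iff]
      simp only [Tm.eval]
      constructor <;> intro h <;> linarith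
    rw [h2]
    constructor
    · intro h3
      exact asg_inj hA h1 h3
    · intro h3
      rw [h3] at h1
      exact h1
  | .lt s t, h => by
    have h1 := h (.add s (.neg t)) (by simp [atoms])
    show asg A _ _ ↔ s.eval x < t.eval x
    have h2 : s.eval x < t.eval x ↔ SignType.sign (Tm.eval x (.add s (.neg t))) = -1 := by
      rw [sign_eq_neg_one_iff]
      simp only [Tm.eval]
      constructor <;> intro h <;> linarith
    rw [h2]
    constructor
    · intro h3
      exact asg_inj hA h1 h3
    · intro h3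
      rw [h3] at h1
      exact h1
  | .le s t, h => by
    have h1 := h (.add s (.neg t)) (by simp [atoms])
    show (asg A _ _ ∨ asg A _ _) ↔ s.eval x ≤ t.eval x
    have h2 : s.eval x ≤ t.eval x ↔ SignType.sign (Tm.eval x (.add s (.neg t))) = 0 ∨
        SignType.sign (Tm.eval x (.add s (.neg t))) = -1 := by
      rw [sign_eq_neg_one_iff, sign_eq_zero_iff, le_iff_lt_or_eq]
      simp only [Tm.eval]
      constructor
      · rintro (h | h)
        · right; linarith
        · left; linarith
      · rintro (h | h)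
        · right; linarith
        · left; linarith
    rw [h2]
    constructor
    · rintro (h3 | h3)
      · exact Or.inl (asg_inj hA h1 h3)
      · exact Or.inr (asg_inj hA h1 h3)
    · rintro (h3 | h3)
      · rw [h3] at h1
        exact Or.inl h1
      · rw [h3] at h1
        exact Or.inr h1
  | .not φ, h => not_congr (AH_iff hA (φ := φ) h)
  | .and φ ψ, h => and_congr
      (AH_iff hA (φ := φ) fun t ht => h t (by simp [atoms, ht]))
      (AH_iff hA (φ := ψ) fun t ht => h t (by simp [atoms, ht]))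
  | .or φ ψ, h => or_congr
      (AH_iff hA (φ := φ) fun t ht => h t (by simp [atoms, ht]))
      (AH_iff hA (φ := ψ) fun t ht => h t (by simp [atoms, ht]))

theorem main_iff {k g D s A : ℕ} {φ : Fm}
    (hat : ∀ t ∈ atoms φ, rdeg (k * g) t ≤ D ∧ tsz t ≤ s ∧ OneGroup k (k * g) t)
    (hA : (2 * D + 5) ^ (k + 1) + 3 * (s + 1) + 3 * (atoms φ).length + 4 ≤ A) :
    (∃ x : ℕ → ℝ, (∀ i, k * g ≤ i → x i = 0 ∨ x i = 1) ∧ φ.Holds x) ↔
    ∃ (b : ℕ → Bool) (a c : ℕ → ℕ), (∀ i, a i ≤ Bnd A ∧ c i ≤ Bnd A) ∧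
      (∀ t ∈ atoms φ, ∃ σ, asg A (t.eval (pt (k * g) b (dy (A ^ 8 + A ^ 6) a c))) σ) ∧
      AH A (pt (k * g) b (dy (A ^ 8 + A ^ 6) a c)) φ := by
  classical
  have hA2 : 2 ≤ A := by omega
  set L : ℕ → List Tm := fun j => ((atoms φ).filter fun t => gidx k (k * g) t = j).map
    (ren (rho k (k * g))) with hLdef
  have hL : ∀ j, ∀ t' ∈ L j, rdeg k t' ≤ D ∧ tsz t' ≤ s := by
    intro j t' ht'
    obtain ⟨t, ht, rfl⟩ := List.mem_map.1 ht'
    have h1 := hat t (List.mem_of_mem_filter ht)
    rw [rdeg_ren rho_lt, tsz_ren]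
    exact ⟨h1.1, h1.2.1⟩
  have hLA : ∀ j, (2 * D + 5) ^ (k + 1) + 3 * (s + 1) + 3 * (L j).length + 4 ≤ A := by
    intro j
    have : (L j).length ≤ (atoms φ).length := by
      rw [hLdef]
      simp only [List.length_map]
      exact List.length_filter_le _ _
    omega
  have hmem : ∀ t ∈ atoms φ, ren (rho k (k * g)) t ∈ L (gidx k (k * g) t) := by
    intro t ht
    exact List.mem_map_of_mem (List.mem_filter.2 ⟨ht, by simp⟩)
  have hdiv : ∀ i, k * (i / k) + i % k = i := fun i => Nat.div_add_mod i k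
  constructor
  · rintro ⟨x, hx, hφ⟩
    set b : ℕ → Bool := fun i => decide (x i = 1) with hb
    set U : ℕ → ℕ → ℝ := fun j r => x (k * j + r) with hU
    have hxe : x = pt (k * g) b fun i => U (i / k) (i % k) := by
      funext i
      unfold pt
      by_cases hi : i < k * g
      · rw [if_pos hi, hU]
        show x i = x _
        rw [hdiv]
      · rw [if_neg hi]
        rcases hx i (by omega) with h | h
        · simp [hb, h]
        · simp [hb, h]
    have h1 : ∀ j, ∃ a c : ℕ → ℕ, (∀ i < k, a i ≤ Bnd A ∧ c i ≤ Bnd A) ∧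
        ∀ t ∈ L j, asg A (t.eval (pt k (fun i => b (i - k)) (dy (A ^ 8 + A ^ 6) a c)))
          (SignType.sign (t.eval (pt k (fun i => b (i - k)) (U j)))) := fun j =>
      (sgn_iff (b := fun i => b (i - k)) (fun t => SignType.sign (t.eval (pt k
        (fun i => b (i - k)) (U j)))) (hL j) (hLA j)).1 ⟨U j, fun _ _ => rfl⟩
    choose a c h1 h2 using h1
    have hdy : (dy (A ^ 8 + A ^ 6) (fun i => if i < k * g then a (i / k) (i % k) else 0)
        (fun i => if i < k * g then c (i / k) (i % k) else 0)) =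
        fun i => (fun j => dy (A ^ 8 + A ^ 6) (fun r => if k * j + r < k * g then a j r else 0)
          (fun r => if k * j + r < k * g then c j r else 0)) (i / k) (i % k) := by
      funext i
      simp only [dy, hdiv]
    have hpt : pt (k * g) b (dy (A ^ 8 + A ^ 6)
        (fun i => if i < k * g then a (i / k) (i % k) else 0)
        (fun i => if i < k * g then c (i / k) (i % k) else 0)) =
        pt (k * g) b fun i => (fun j => dy (A ^ 8 + A ^ 6) (a j) (c j)) (i / k) (i % k) := by
      funext i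
      unfold pt
      by_cases hi : i < k * g
      · rw [if_pos hi, if_pos hi]
        simp only [dy, if_pos hi]
      · rw [if_neg hi, if_neg hi]
    have h3 : ∀ t ∈ atoms φ, asg A (t.eval (pt (k * g) b (dy (A ^ 8 + A ^ 6)
        (fun i => if i < k * g then a (i / k) (i % k) else 0)
        (fun i => if i < k * g then c (i / k) (i % k) else 0))))
        (SignType.sign (t.eval x)) := by
      intro t ht
      have h4 := h2 _ _ (hmem t ht)
      rw [key_eval (j := gidx k (k * g) t) (gidx_spec (hat t ht).2.2) b U,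
        key_eval (j := gidx k (k * g) t) (gidx_spec (hat t ht).2.2) b
          (fun j => dy (A ^ 8 + A ^ 6) (a j) (c j)), ← hxe] at h4
      rw [hpt]
      exact h4
    refine ⟨b, fun i => if i < k * g then a (i / k) (i % k) else 0,
      fun i => if i < k * g then c (i / k) (i % k) else 0, fun i => ?_,
      fun t ht => ⟨_, h3 t ht⟩, (AH_iff hA2 h3).2 hφ⟩
    by_cases hi : i < k * g
    · simp only [if_pos hi]
      have hk : 0 < k := by
        rcases Nat.eq_zero_or_pos k with h0 | h0
        · simp [h0] at hi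
        · exact h0
      exact h1 _ _ (Nat.mod_lt _ hk)
    · simp only [if_neg hi]
      exact ⟨Nat.zero_le _, Nat.zero_le _⟩
  · rintro ⟨b, a, c, hac, hv, hh⟩
    have hdy : dy (A ^ 8 + A ^ 6) a c = fun i => (fun j => dy (A ^ 8 + A ^ 6)
        (fun r => a (k * j + r)) (fun r => c (k * j + r))) (i / k) (i % k) := by
      funext i
      simp only [dy, hdiv]
    choose! σ hσ using hv
    have h1 : ∀ j, ∃ u : ℕ → ℝ, ∀ t ∈ L j, asg A (t.eval (pt k (fun i => b (i - k))
        (dy (A ^ 8 + A ^ 6) (fun r => a (k * j + r)) (fun r => c (k * j + r)))))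
        (SignType.sign (t.eval (pt k (fun i => b (i - k)) u))) := by
      intro j
      have h2 : ∀ t' ∈ L j, ∃ τ, asg A (t'.eval (pt k (fun i => b (i - k))
          (dy (A ^ 8 + A ^ 6) (fun r => a (k * j + r)) (fun r => c (k * j + r))))) τ := by
        intro t' ht'
        obtain ⟨t, ht0, rfl⟩ := List.mem_map.1 ht'
        obtain ⟨ht, hj⟩ := List.mem_filter.1 ht0
        have hj : gidx k (k * g) t = j := by simpa using hj
        clear ht0 ht'
        subst hj
        refine ⟨σ t, ?_⟩
        have h3 := key_eval (j := gidx k (k * g) t) (gidx_spec (hat t ht).2.2) b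
          (fun j => dy (A ^ 8 + A ^ 6) (fun r => a (k * j + r)) (fun r => c (k * j + r)))
        rw [h3, ← hdy]
        exact hσ t ht
      choose! τ hτ using h2
      obtain ⟨u, hu⟩ := (sgn_iff (b := fun i => b (i - k)) τ (hL j) (hLA j)).2
        ⟨_, _, fun i _ => ⟨(hac _).1, (hac _).2⟩, hτ⟩
      refine ⟨u, fun t ht => ?_⟩
      rw [hu t ht]
      exact hτ t ht
    choose u hu using h1
    refine ⟨pt (k * g) b fun i => u (i / k) (i % k), fun i hi => ?_, ?_⟩
    · unfold pt
      rw [if_neg (by omega)]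
      split_ifs
      · right; rfl
      · left; rfl
    · refine (AH_iff hA2 (y := pt (k * g) b (dy (A ^ 8 + A ^ 6) a c)) ?_).1 hh
      intro t ht
      have h4 := hu _ _ (hmem t ht)
      have h3 := key_eval (j := gidx k (k * g) t) (gidx_spec (hat t ht).2.2) b
          (fun j => dy (A ^ 8 + A ^ 6) (fun r => a (k * j + r)) (fun r => c (k * j + r)))
      have h5 := key_eval (j := gidx k (k * g) t) (gidx_spec (hat t ht).2.2) b u
      rw [← hdy] at h3
      rw [h5] at h4
      have h6 : (ren (rho k (k * g)) t).eval (pt k (fun i => b (i - k))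
          (dy (A ^ 8 + A ^ 6) (fun r => a (k * gidx k (k * g) t + r))
            (fun r => c (k * gidx k (k * g) t + r)))) =
          t.eval (pt (k * g) b (dy (A ^ 8 + A ^ 6) a c)) := h3
      rw [h6] at h4
      exact h4

end Pool.Agent.J6H79.FR
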