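import Pool.Agent.J6H79.FR.Mem3
import Pool.Agent.J6H79.RS.Fin

/-!
# Sharpness: `∃ℝ`-hard restrictions
-/

set_option autoImplicit false

namespace Pool.Agent.NPC.ER.J6H79

open Pool.Agent.J6H79.FR Pool.Agent.J6H79.RS Pool.Agent.NPC.H670R2

/-- the formula of a constraint -/
def conF : Con → Fm
  | .one i => .eq (.var i) .one
  | .add i j k => .eq (.add (.var i) (.var j)) (.var k)
  | .mul i j k => .eq (.mul (.var i) (.var j)) (.var k)

theorem holds_conF (x : ℕ → ℝ) (c : Con) : (conF c).Holds x ↔ c.Holds x := by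
  cases c <;> rfl

theorem conF_eq (c : Con) : conF c = if c.code.1 = 0 then .eq (.var c.code.2.1) .one else
    if c.code.1 = 1 then .eq (.add (.var c.code.2.1) (.var c.code.2.2.1)) (.var c.code.2.2.2) else
    .eq (.mul (.var c.code.2.1) (.var c.code.2.2.1)) (.var c.code.2.2.2) := by
  cases c <;> rfl

theorem poly_conF {α : Type} [TEnc α] {c : α → Con} (hc : Poly c) :
    Poly (fun a => conF (c a)) := by
  have h0 : Poly (fun a => (c a).code) := poly_con_code hc
  have h1 := Poly.fst h0
  have h2 := poly_tvar (Poly.fst (Poly.snd h0))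
  have h3 := poly_tvar (Poly.fst (Poly.snd (Poly.snd h0)))
  have h4 := poly_tvar (Poly.snd (Poly.snd (Poly.snd h0)))
  exact (Poly.ite (Poly.decide_eq h1 (Poly.const 0)) (poly_eq h2 (Poly.const .one))
    (Poly.ite (Poly.decide_eq h1 (Poly.const 1)) (poly_eq (poly_tadd h2 h3) h4)
      (poly_eq (poly_tmul h2 h3) h4))).congr fun a => (conF_eq _).symm

theorem atoms_conF {K : ℕ} {c : Con} {t : Tm} (h : t ∈ atoms (conF c)) :
    rdeg K t ≤ 2 ∧ ∀ i ∈ tvars t, i ∈ c.vars := by
  have hv : ∀ i, rdeg K (.var i) ≤ 1 := by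
    intro i
    simp only [rdeg]
    split_ifs <;> simp
  cases c with
  | one i =>
    simp only [conF, atoms, List.mem_singleton] at h
    subst h
    refine ⟨?_, by simp [tvars, Con.vars]⟩
    have := hv i
    simp only [rdeg] at this ⊢
    omega
  | add i j k =>
    simp only [conF, atoms, List.mem_singleton] at h
    subst h
    refine ⟨?_, by simp [tvars, Con.vars]⟩
    have := hv i
    have := hv j
    have := hv k
    simp only [rdeg] at *
    omega
  | mul i j k =>
    simp only [conF, atoms, List.mem_singleton] at h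
    subst h
    refine ⟨?_, by simp [tvars, Con.vars]⟩
    have := hv i
    have := hv j
    have := hv k
    simp only [rdeg] at *
    omega

theorem atoms_conj {l : List Fm} {t : Tm} (h : t ∈ atoms (conj l)) :
    t ∈ atoms tt ∨ ∃ φ ∈ l, t ∈ atoms φ := by
  induction l with
  | nil => exact Or.inl h
  | cons a l ih =>
    have h' : t ∈ atoms a ++ atoms (conj l) := h
    rcases List.mem_append.1 h' with h1 | h1
    · exact Or.inr ⟨a, by simp, h1⟩
    · rcases ih h1 with h2 | ⟨φ, h2, h3⟩
      · exact Or.inl h2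
      · exact Or.inr ⟨φ, by simp [h2], h3⟩

theorem sat_rL (S : List Con) : ER.Sat (rL S) ↔ ER.Sat S := by
  have hh : ∀ (f : ℕ → ℕ) (v : ℕ → ℝ) (c : Con), (rnm f c).Holds v ↔ c.Holds fun i => v (f i) := by
    intro f v c
    cases c <;> rfl
  constructor
  · rintro ⟨v, hv⟩
    refine ⟨fun i => v (nm S i), fun c hc => ?_⟩
    rw [← hh]
    exact hv _ (List.mem_map_of_mem hc)
  · rintro ⟨v, hv⟩
    refine ⟨fun i => v ((svars S).getD i 0), fun c hc => ?_⟩
    obtain ⟨c', hc', rfl⟩ := List.mem_map.1 hc
    rw [hh]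
    have h1 : ∀ i ∈ c'.vars, (svars S).getD (nm S i) 0 = i := by
      intro i hi
      have h2 : nm S i < (svars S).length := List.idxOf_lt_length_of_mem (mem_svars hc' hi)
      rw [List.getD_eq_getElem _ _ h2]
      exact List.getElem_idxOf h2
    have h3 := hv c' hc'
    cases c' <;> simp [Con.vars] at h1 <;> simpa [Con.Holds, h1] using h3

/-- the padded formula -/
def padF (c : ℕ) (S : List Con) : Fm :=
  conj ((rL S).map conF ++ List.replicate ((svars S).length ^ c) tt)

theorem etr_padF (c : ℕ) (S : List Con) : ETR (padF c S) ↔ ER.Sat S := by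
  rw [← sat_rL]
  unfold ETR padF
  apply exists_congr
  intro x
  rw [holds_conj]
  constructor
  · intro h d hd
    rw [← holds_conF]
    exact h _ (List.mem_append_left _ (List.mem_map_of_mem hd))
  · intro h φ hφ
    rcases List.mem_append.1 hφ with h1 | h1
    · obtain ⟨d, hd, rfl⟩ := List.mem_map.1 h1
      rw [holds_conF]
      exact h d hd
    · rw [(List.mem_replicate.1 h1).2]
      exact holds_tt x

theorem poly_padF (c : ℕ) : Poly (padF c) := by
  have h1 : UPoly (fun S : List Con => (svars S).length) := UPoly.length (poly_svars Poly.id)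
  have h2 : UPoly (fun S : List Con => (svars S).length ^ c) := by
    have := h1.eval (Polynomial.X ^ c)
    simpa using this
  have h3 : Poly (fun S : List Con => (rL S).map conF) :=
    Poly.map (F := fun _ d => conF d) (poly_rL Poly.id) (poly_conF (Poly.snd Poly.id))
  have h4 : Poly (fun S : List Con => List.replicate ((svars S).length ^ c) tt) := by
    have := poly_replicate (l := fun S : List Con => List.replicate ((svars S).length ^ c) ()) h2 tt
    simpa using this
  exact poly_conj (Poly.append h3 h4)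

/-- **`∃ℝ`-hardness with `n ^ (1 / c)` real variables.** -/
theorem hard_pow (c : ℕ) {L : Set (List Bool)} (hL : InER L) : ∃ f : List Bool → ℕ × Fm,
    PolyTime (fun w => bits (f w)) ∧ ∀ w, (f w).1 ^ c ≤ (f w).2.toks.length ∧
      (∀ t ∈ atoms (f w).2, rdeg (f w).1 t ≤ 2 ∧ ∀ i ∈ tvars t, i < (f w).1) ∧
      (w ∈ L ↔ ETR (f w).2) := by
  have hp : Poly (fun S : List Con => ((svars S).length, padF c S)) :=
    Poly.pair (Poly.length (poly_svars Poly.id)) (poly_padF c)
  obtain ⟨g, hg, hL⟩ := reduction' hp hL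
  refine ⟨fun w => ((svars (g w)).length, padF c (g w)), hg, fun w => ⟨?_, ?_, ?_⟩⟩
  · show (svars (g w)).length ^ c ≤ (padF c (g w)).toks.length
    unfold padF
    rw [toks_conj]
    simp only [List.length_append, List.length_replicate, List.length_map]
    omega
  · intro t ht
    rcases atoms_conj ht with h1 | ⟨φ, h1, h2⟩
    · simp only [tt, atoms, List.mem_singleton] at h1
      subst h1
      exact ⟨by simp [rdeg], by simp [tvars]⟩
    · rcases List.mem_append.1 h1 with h3 | h3
      · obtain ⟨d, hd, rfl⟩ := List.mem_map.1 h3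
        obtain ⟨h4, h5⟩ := atoms_conF h2
        exact ⟨h4, fun i hi => vars_rL d hd i (h5 i hi)⟩
      · rw [(List.mem_replicate.1 h3).2] at h2
        simp only [tt, atoms, List.mem_singleton] at h2
        subst h2
        exact ⟨by simp [rdeg], by simp [tvars]⟩
  · rw [hL w]
    exact (etr_padF c (g w)).symm

/-! ### Linked groups of three variables -/

/-- the copy of a constraint on the variables `3 p, 3 p + 1, 3 p + 2` -/
def cpy (p : ℕ) : Con → Con
  | .one _ => .one (3 * p)
  | .add _ _ _ => .add (3 * p) (3 * p + 1) (3 * p + 2)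
  | .mul _ _ _ => .mul (3 * p) (3 * p + 1) (3 * p + 2)

/-- the copies of variables, with the names of the variables -/
def slots (S : List Con) : List (ℕ × ℕ) :=
  S.zipIdx.flatMap fun q => q.1.vars.zipIdx.map fun r => (3 * q.2 + r.2, r.1)

/-- the formula with linked groups -/
def linkF (S : List Con) : Fm :=
  conj ((S.zipIdx.map fun q => conF (cpy q.2 q.1)) ++
    (slots S).flatMap fun a => ((slots S).filter fun b => decide (b.2 = a.2)).map fun b =>
      Fm.eq (.var a.1) (.var b.1))

theorem mem_slots {S : List Con} {s n : ℕ} : (s, n) ∈ slots S ↔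
    ∃ p c a, S[p]? = some c ∧ c.vars[a]? = some n ∧ s = 3 * p + a := by
  unfold slots
  simp only [List.mem_flatMap, List.mem_map, Prod.mk.injEq]
  constructor
  · rintro ⟨⟨c, p⟩, h1, ⟨n', a⟩, h2, h3, h4⟩
    rw [List.mk_mem_zipIdx_iff_getElem?] at h1 h2
    subst h4
    exact ⟨p, c, a, h1, h2, h3.symm⟩
  · rintro ⟨p, c, a, h1, h2, h3⟩
    exact ⟨(c, p), List.mk_mem_zipIdx_iff_getElem?.2 h1, (n, a),
      List.mk_mem_zipIdx_iff_getElem?.2 h2, h3.symm, rfl⟩

theorem etr_linkF (S : List Con) : ETR (linkF S) ↔ ER.Sat S := by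
  constructor
  · rintro ⟨x, hx⟩
    unfold linkF at hx
    rw [holds_conj] at hx
    have h1 : ∀ p c, S[p]? = some c → (cpy p c).Holds x := by
      intro p c h
      rw [← holds_conF]
      exact hx _ (List.mem_append_left _ (List.mem_map.2 ⟨(c, p),
        List.mk_mem_zipIdx_iff_getElem?.2 h, rfl⟩))
    have h2 : ∀ s s' n, (s, n) ∈ slots S → (s', n) ∈ slots S → x s = x s' := by
      intro s s' n hs hs'
      exact hx (Fm.eq (.var s) (.var s')) (List.mem_append_right _ (List.mem_flatMap.2
        ⟨(s, n), hs, List.mem_map.2 ⟨(s', n), List.mem_filter.2 ⟨hs', by simp⟩, rfl⟩⟩))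
    classical
    set v : ℕ → ℝ := fun n => if h : ∃ s, (s, n) ∈ slots S then x h.choose else 0 with hv
    refine ⟨v, fun c hc => ?_⟩
    obtain ⟨p, hp⟩ := List.mem_iff_getElem?.1 hc
    have h3 : ∀ a n, c.vars[a]? = some n → v n = x (3 * p + a) := by
      intro a n ha
      have h4 : (3 * p + a, n) ∈ slots S := mem_slots.2 ⟨p, c, a, hp, ha, rfl⟩
      have h5 : ∃ s, (s, n) ∈ slots S := ⟨_, h4⟩
      simp only [hv]
      rw [dif_pos h5]
      exact h2 _ _ _ h5.choose_spec h4
    have h4 := h1 p c hp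
    cases c with
    | one i =>
      show v i = 1
      rw [h3 0 i rfl]
      exact h4
    | add i j k =>
      show v i + v j = v k
      rw [h3 0 i rfl, h3 1 j rfl, h3 2 k rfl]
      exact h4
    | mul i j k =>
      show v i * v j = v k
      rw [h3 0 i rfl, h3 1 j rfl, h3 2 k rfl]
      exact h4
  · rintro ⟨v, hv⟩
    set x : ℕ → ℝ := fun s => v (match S[s / 3]? with
      | none => 0
      | some c => (c.vars[s % 3]?).getD 0) with hx
    have h1 : ∀ p c a n, S[p]? = some c → c.vars[a]? = some n → x (3 * p + a) = v n := by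
      intro p c a n hp ha
      have h2 : a < 3 := by
        have h3 := (List.getElem?_eq_some_iff.1 ha).1
        have h4 : c.vars.length ≤ 3 := by cases c <;> simp [Con.vars]
        omega
      simp only [hx]
      rw [show (3 * p + a) / 3 = p by omega, show (3 * p + a) % 3 = a by omega, hp]
      simp [ha]
    refine ⟨x, ?_⟩
    unfold linkF
    rw [holds_conj]
    intro φ hφ
    rcases List.mem_append.1 hφ with h2 | h2
    · obtain ⟨⟨c, p⟩, h3, rfl⟩ := List.mem_map.1 h2
      rw [List.mk_mem_zipIdx_iff_getElem?] at h3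
      show (conF (cpy p c)).Holds x
      rw [holds_conF]
      have h4 := hv c (List.mem_of_getElem? h3)
      cases c with
      | one i =>
        show x (3 * p) = 1
        have e1 := h1 p _ 0 i h3 rfl
        rw [add_zero] at e1
        rw [e1]
        exact h4
      | add i j k =>
        show x (3 * p) + x (3 * p + 1) = x (3 * p + 2)
        have e1 := h1 p _ 0 i h3 rfl
        rw [add_zero] at e1
        rw [e1, h1 p _ 1 j h3 rfl, h1 p _ 2 k h3 rfl]
        exact h4
      | mul i j k =>
        show x (3 * p) * x (3 * p + 1) = x (3 * p + 2)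
        have e1 := h1 p _ 0 i h3 rfl
        rw [add_zero] at e1
        rw [e1, h1 p _ 1 j h3 rfl, h1 p _ 2 k h3 rfl]
        exact h4
    · obtain ⟨⟨s, n⟩, h3, h4⟩ := List.mem_flatMap.1 h2
      obtain ⟨⟨s', n'⟩, h5, rfl⟩ := List.mem_map.1 h4
      obtain ⟨h6, h7⟩ := List.mem_filter.1 h5
      have h7 : n' = n := by simpa using h7
      subst h7
      obtain ⟨p, c, a, e1, e2, rfl⟩ := mem_slots.1 h3
      obtain ⟨p', c', a', e3, e4, rfl⟩ := mem_slots.1 h6
      show x _ = x _
      rw [h1 _ _ _ _ e1 e2, h1 _ _ _ _ e3 e4]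

theorem cpy_eq (p : ℕ) (c : Con) : cpy p c = if c.code.1 = 0 then .one (3 * p) else
    if c.code.1 = 1 then .add (3 * p) (3 * p + 1) (3 * p + 2) else
    .mul (3 * p) (3 * p + 1) (3 * p + 2) := by
  cases c <;> rfl

theorem poly_cpy {α : Type} [TEnc α] {p : α → ℕ} {c : α → Con} (hp : Poly p) (hc : Poly c) :
    Poly (fun a => cpy (p a) (c a)) := by
  have h1 := Poly.fst (poly_con_code hc)
  have h2 := Poly.mul (Poly.const 3) hp
  have h3 := Poly.add h2 (Poly.const 1)
  have h4 := Poly.add h2 (Poly.const 2)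
  exact (Poly.ite (Poly.decide_eq h1 (Poly.const 0)) (poly_con_one h2)
    (Poly.ite (Poly.decide_eq h1 (Poly.const 1)) (poly_con_add h2 h3 h4)
      (poly_con_mul h2 h3 h4))).congr fun a => (cpy_eq _ _).symm

theorem poly_slots : Poly slots := by
  refine Poly.flatMap (F := fun _ (q : Con × ℕ) => q.1.vars.zipIdx.map fun (r : ℕ × ℕ) =>
    (3 * q.2 + r.2, r.1)) (Poly.zipIdx Poly.id) ?_
  refine Poly.map (F := fun (q : List Con × Con × ℕ) (r : ℕ × ℕ) => (3 * q.2.2 + r.2, r.1))
    (Poly.zipIdx (poly_cvars (Poly.fst (Poly.snd Poly.id)))) ?_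
  exact Poly.pair (Poly.add (Poly.mul (Poly.const 3) (Poly.snd (Poly.snd (Poly.fst Poly.id))))
    (Poly.snd (Poly.snd Poly.id))) (Poly.fst (Poly.snd Poly.id))

theorem poly_linkF : Poly linkF := by
  refine poly_conj (Poly.append ?_ ?_)
  · exact Poly.map (F := fun _ (q : Con × ℕ) => conF (cpy q.2 q.1)) (Poly.zipIdx Poly.id)
      (poly_conF (poly_cpy (Poly.snd (Poly.snd Poly.id)) (Poly.fst (Poly.snd Poly.id))))
  · refine Poly.flatMap (F := fun S (a : ℕ × ℕ) => ((slots S).filter fun b =>
      decide (b.2 = a.2)).map fun b => Fm.eq (.var a.1) (.var b.1)) poly_slots ?_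
    refine Poly.map (F := fun (q : List Con × ℕ × ℕ) (b : ℕ × ℕ) =>
      Fm.eq (.var q.2.1) (.var b.1)) (Poly.filter
      (p := fun (q : List Con × ℕ × ℕ) (b : ℕ × ℕ) => decide (b.2 = q.2.2))
      (poly_slots.comp (Poly.fst Poly.id)) ?_) ?_
    · exact Poly.decide_eq (Poly.snd (Poly.snd Poly.id)) (Poly.snd (Poly.snd (Poly.fst Poly.id)))
    · exact poly_eq (poly_tvar (Poly.fst (Poly.snd (Poly.fst Poly.id))))
        (poly_tvar (Poly.fst (Poly.snd Poly.id)))

/-- **`∃ℝ`-hardness with linked groups of three variables.** -/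
theorem hard_link {L : Set (List Bool)} (hL : InER L) : ∃ f : List Bool → ℕ × Fm,
    PolyTime (fun w => bits (f w)) ∧ ∀ w,
      (∀ t ∈ atoms (f w).2, rdeg (3 * ((f w).1 + 1)) t ≤ 2 ∧
        (∀ i ∈ tvars t, i < 3 * ((f w).1 + 1)) ∧
        (OneGrp 3 (f w).1 t ∨ ∃ i j, t = .add (.var i) (.neg (.var j)))) ∧
      (w ∈ L ↔ ETR (f w).2) := by
  have hp : Poly (fun S : List Con => (S.length, linkF S)) :=
    Poly.pair (Poly.length Poly.id) poly_linkF
  obtain ⟨g, hg, hL⟩ := reduction' hp hL
  refine ⟨fun w => ((g w).length, linkF (g w)), hg, fun w => ⟨?_, ?_⟩⟩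
  · intro t ht
    change t ∈ atoms (linkF (g w)) at ht
    show rdeg (3 * ((g w).length + 1)) t ≤ 2 ∧ (∀ i ∈ tvars t, i < 3 * ((g w).length + 1)) ∧
      (OneGrp 3 (g w).length t ∨ _)
    rcases atoms_conj ht with h1 | ⟨φ, h1, h2⟩
    · simp only [tt, atoms, List.mem_singleton] at h1
      subst h1
      exact ⟨by simp [rdeg], by simp [tvars], Or.inl (by intro i hi; simp [tvars] at hi)⟩
    · rcases List.mem_append.1 h1 with h3 | h3
      · obtain ⟨⟨c, p⟩, hd, rfl⟩ := List.mem_map.1 h3
        rw [List.mk_mem_zipIdx_iff_getElem?] at hd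
        obtain ⟨hp, _⟩ := List.getElem?_eq_some_iff.1 hd
        obtain ⟨h4, h5⟩ := atoms_conF (K := 3 * ((g w).length + 1)) h2
        have h6 : ∀ i ∈ tvars t, i / 3 = p := by
          intro i hi
          have h7 : i ∈ (cpy p c).vars := h5 i hi
          cases c <;> simp [cpy, Con.vars] at h7 <;> omega
        have h8 : ∀ i ∈ tvars t, i < 3 * ((g w).length + 1) := by
          intro i hi
          have := h6 i hi
          omega
        refine ⟨h4, h8, Or.inl ?_⟩
        intro i hi j hj _ _
        unfold grp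
        rw [if_pos (h8 i hi), if_pos (h8 j hj), h6 i hi, h6 j hj]
      · obtain ⟨⟨s, n⟩, h4, h5⟩ := List.mem_flatMap.1 h3
        obtain ⟨⟨s', n'⟩, h6, rfl⟩ := List.mem_map.1 h5
        simp only [atoms, List.mem_singleton] at h2
        subst h2
        have h7 : ∀ s n, (s, n) ∈ slots (g w) → s < 3 * ((g w).length + 1) := by
          intro s n hs
          obtain ⟨p, c, a, e1, e2, rfl⟩ := mem_slots.1 hs
          have h3 := (List.getElem?_eq_some_iff.1 e2).1
          have h4 : c.vars.length ≤ 3 := by cases c <;> simp [Con.vars]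
          obtain ⟨hp, _⟩ := List.getElem?_eq_some_iff.1 e1
          omega
        have h8 := h7 s n h4
        have h9 := h7 s' n' (List.mem_filter.1 h6).1
        refine ⟨?_, ?_, Or.inr ⟨s, s', rfl⟩⟩
        · simp only [rdeg]
          split_ifs <;> simp
        · intro i hi
          simp only [tvars, List.mem_append, List.mem_singleton] at hi
          rcases hi with rfl | rfl
          · exact h8
          · exact h9
  · rw [hL w]
    exact (etr_linkF (g w)).symm

end Pool.Agent.NPC.ER.J6H79
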