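import Mathlib

/-!
# Basic solutions of systems of linear equations and inequalities
-/

set_option autoImplicit false

namespace Pool.Agent.J6H79.FR

section

variable {ι κ : Type} [Fintype ι] [Fintype κ]

theorem lin_apply [DecidableEq κ] (f : (κ → ℝ) →ₗ[ℝ] ℝ) (a : κ → ℝ) :
    f a = ∑ j, a j * f (Pi.single j 1) := by
  rw [LinearMap.pi_apply_eq_sum_univ f a]
  refine Finset.sum_congr rfl fun j _ => ?_
  rw [smul_eq_mul]
  congr 2
  funext i
  by_cases h : j = i
  · subst h
    simp
  · simp [h, Pi.single_apply, Ne.symm h]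

theorem exists_active (A : ι → κ → ℝ) (r : ι → ℝ) (E : ι → Prop) : ∀ (m : ℕ) (z0 : κ → ℝ),
    (∀ i, r i ≤ ∑ j, A i j * z0 j) → (∀ i, E i → ∑ j, A i j * z0 j = r i) →
    Fintype.card ι - Nat.card {i // ∑ j, A i j * z0 j = r i} = m →
    ∃ z : κ → ℝ, (∀ i, r i ≤ ∑ j, A i j * z j) ∧ (∀ i, E i → ∑ j, A i j * z j = r i) ∧
      ∀ i, A i ∈ Submodule.span ℝ (A '' {i | ∑ j, A i j * z j = r i}) := by
  classical
  intro m
  induction m using Nat.strong_induction_on with
  | _ m ih =>
  intro z h0 h0' hm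
  by_cases hall : ∀ i, A i ∈ Submodule.span ℝ (A '' {i | ∑ j, A i j * z j = r i})
  · exact ⟨z, h0, h0', hall⟩
  push Not at hall
  obtain ⟨i0, hi0⟩ := hall
  obtain ⟨f0, hf0, hW0⟩ := Submodule.exists_le_ker_of_notMem hi0
  obtain ⟨f, hf, hW⟩ : ∃ f : (κ → ℝ) →ₗ[ℝ] ℝ, f (A i0) < 0 ∧
      Submodule.span ℝ (A '' {i | ∑ j, A i j * z j = r i}) ≤ LinearMap.ker f := by
    rcases lt_or_gt_of_ne hf0 with h | h
    · exact ⟨f0, h, hW0⟩
    · refine ⟨-f0, by simpa using h, fun x hx => ?_⟩
      have := hW0 hx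
      simpa using this
  set v : κ → ℝ := fun j => f (Pi.single j 1) with hv
  have hfv : ∀ a, f a = ∑ j, a j * v j := lin_apply f
  have hact : ∀ i, ∑ j, A i j * z j = r i → f (A i) = 0 := by
    intro i hi
    exact hW (Submodule.subset_span ⟨i, hi, rfl⟩)
  have hne : (Finset.univ.filter fun i => f (A i) < 0).Nonempty := ⟨i0, by simpa using hf⟩
  obtain ⟨i1, hi1, hmin⟩ := Finset.exists_min_image (Finset.univ.filter fun i => f (A i) < 0)
    (fun i => (∑ j, A i j * z j - r i) / (-f (A i))) hne
  have hi1' : f (A i1) < 0 := by simpa using hi1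
  set s : ℝ := (∑ j, A i1 j * z j - r i1) / (-f (A i1)) with hs
  have hs0 : 0 ≤ s := div_nonneg (sub_nonneg.2 (h0 i1)) (by linarith)
  have hsum : ∀ i, ∑ j, A i j * (z j + s * v j) = ∑ j, A i j * z j + s * f (A i) := by
    intro i
    rw [hfv, Finset.mul_sum, ← Finset.sum_add_distrib]
    exact Finset.sum_congr rfl fun j _ => by ring
  have hfeas : ∀ i, r i ≤ ∑ j, A i j * (z j + s * v j) := by
    intro i
    rw [hsum]
    by_cases hi : f (A i) < 0
    · have h1 := hmin i (by simpa using hi)
      change s ≤ _ at h1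
      rw [le_div_iff₀ (by linarith)] at h1
      linarith
    · have := mul_nonneg hs0 (not_lt.1 hi)
      have := h0 i
      linarith
  have hact' : ∀ i, ∑ j, A i j * z j = r i → ∑ j, A i j * (z j + s * v j) = r i := by
    intro i hi
    rw [hsum, hact i hi, mul_zero, add_zero, hi]
  have hi1act : ∑ j, A i1 j * (z j + s * v j) = r i1 := by
    rw [hsum, hs]
    have : f (A i1) ≠ 0 := hi1'.ne
    field_simp
    ring
  have hi1n : ∑ j, A i1 j * z j ≠ r i1 := fun h => by
    have := hact i1 h
    linarith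
  have hcard : Nat.card {i // ∑ j, A i j * z j = r i} <
      Nat.card {i // ∑ j, A i j * (z j + s * v j) = r i} := by
    rw [Nat.card_eq_fintype_card, Nat.card_eq_fintype_card, Fintype.card_subtype,
      Fintype.card_subtype]
    apply Finset.card_lt_card
    rw [Finset.ssubset_iff_of_subset]
    · exact ⟨i1, by simpa using hi1act, by simpa using hi1n⟩
    · intro i hi
      simp only [Finset.mem_filter, Finset.mem_univ, true_and] at hi ⊢
      exact hact' i hi
  have hle : Nat.card {i // ∑ j, A i j * (z j + s * v j) = r i} ≤ Fintype.card ι := by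
    rw [Nat.card_eq_fintype_card]
    exact Fintype.card_subtype_le _
  exact ih _ (by omega) (fun j => z j + s * v j) hfeas (fun i hi => hact' i (h0' i hi)) rfl

/-- Existence of basic solutions. -/
theorem basic_solution (A : ι → κ → ℤ) (r : ι → ℝ) (E : ι → Prop) (z0 : κ → ℝ)
    (h0 : ∀ i, r i ≤ ∑ j, (A i j : ℝ) * z0 j) (h0' : ∀ i, E i → ∑ j, (A i j : ℝ) * z0 j = r i) :
    ∃ (s : ℕ) (e : Fin s → ι) (f : Fin s → κ), Function.Injective e ∧ Function.Injective f ∧
      (Matrix.of fun a b => A (e a) (f b)).det ≠ 0 ∧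
      ∀ w : Fin s → ℝ, (∀ a, ∑ b, (A (e a) (f b) : ℝ) * w b = r (e a)) →
      (∀ i, r i ≤ ∑ b, (A i (f b) : ℝ) * w b) ∧
      ∀ i, E i → ∑ b, (A i (f b) : ℝ) * w b = r i := by
  classical
  obtain ⟨z, h1, h2, h3⟩ := exists_active (fun i j => (A i j : ℝ)) r E _ z0 h0 h0' rfl
  obtain ⟨κ₁, a, ha, hspan, hli⟩ := exists_linearIndependent' ℝ
    (fun i : {i // ∑ j, (A i j : ℝ) * z j = r i} => fun j => (A i.1 j : ℝ))
  have hrow : ∀ i, (fun j => (A i j : ℝ)) ∈ Submodule.span ℝ
      (Set.range fun p : κ₁ => fun j => (A (a p).1 j : ℝ)) := by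
    intro i
    have h4 := h3 i
    have h5 : Submodule.span ℝ ((fun i j => (A i j : ℝ)) '' {i | ∑ j, (A i j : ℝ) * z j = r i}) =
        Submodule.span ℝ (Set.range fun p : κ₁ => fun j => (A (a p).1 j : ℝ)) := by
      have h6 : Set.range ((fun i : {i // ∑ j, (A i j : ℝ) * z j = r i} => fun j => (A i.1 j : ℝ)) ∘ a)
          = Set.range fun p : κ₁ => fun j => (A (a p).1 j : ℝ) := rfl
      rw [← h6, hspan]
      congr 1
      ext x
      simp only [Set.mem_image, Set.mem_setOf_eq, Set.mem_range, Subtype.exists]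
      constructor
      · rintro ⟨i, hi, rfl⟩
        exact ⟨i, hi, rfl⟩
      · rintro ⟨i, hi, rfl⟩
        exact ⟨i, hi, rfl⟩
    rw [← h5]
    exact h4
  haveI : Finite κ₁ := Finite.of_injective a ha
  haveI : Fintype κ₁ := Fintype.ofFinite κ₁
  obtain ⟨κ₂, c, hc, hspan2, hli2⟩ := exists_linearIndependent' ℝ
    (fun j : κ => fun p : κ₁ => (A (a p).1 j : ℝ))
  haveI : Finite κ₂ := Finite.of_injective c hc
  haveI : Fintype κ₂ := Fintype.ofFinite κ₂
  have htop : Submodule.span ℝ (Set.range fun j : κ => fun p : κ₁ => (A (a p).1 j : ℝ)) = ⊤ := by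
    by_contra hne
    obtain ⟨f, hf0, hf⟩ := Submodule.exists_le_ker_of_lt_top _ (lt_top_iff_ne_top.2 hne)
    apply hf0
    have h4 : ∀ j, ∑ p, (A (a p).1 j : ℝ) * f (Pi.single p 1) = 0 := by
      intro j
      rw [← lin_apply f]
      exact hf (Submodule.subset_span ⟨j, rfl⟩)
    have h5 := Fintype.linearIndependent_iff.1 hli (fun p => f (Pi.single p 1)) (by
      funext j
      simp only [Finset.sum_apply, Function.comp_apply, Pi.smul_apply, smul_eq_mul, Pi.zero_apply]
      rw [← h4 j]
      exact Finset.sum_congr rfl fun p _ => mul_comm _ _)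
    refine LinearMap.ext fun x => ?_
    rw [lin_apply f]
    simp [h5]
  have hcardEq : Fintype.card κ₂ = Fintype.card κ₁ := by
    have h4 : Submodule.span ℝ (Set.range ((fun j : κ => fun p : κ₁ => (A (a p).1 j : ℝ)) ∘ c)) =
        ⊤ := by rw [hspan2, htop]
    have b : Module.Basis κ₂ ℝ (κ₁ → ℝ) := Module.Basis.mk hli2 h4.ge
    have h5 := Module.finrank_eq_card_basis b
    rw [Module.finrank_fintype_fun_eq_card] at h5
    exact h5.symm
  let e1 : Fin (Fintype.card κ₁) ≃ κ₁ := (Fintype.equivFin κ₁).symm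
  let e2 : Fin (Fintype.card κ₁) ≃ κ₂ := (Fintype.equivOfCardEq (by simp [hcardEq]))
  refine ⟨Fintype.card κ₁, fun p => (a (e1 p)).1, fun q => c (e2 q), ?_, ?_, ?_, ?_⟩
  · intro p q hpq
    exact e1.injective (ha (Subtype.ext hpq))
  · intro p q hpq
    exact e2.injective (hc hpq)
  · intro hdet
    have h4 : LinearIndependent ℝ (Matrix.of fun p q : Fin (Fintype.card κ₁) =>
        (A (a (e1 p)).1 (c (e2 q)) : ℝ)).col := by
      have h5 : LinearIndependent ℝ (fun q : Fin (Fintype.card κ₁) =>
          ((fun j : κ => fun p : κ₁ => (A (a p).1 j : ℝ)) ∘ c) (e2 q)) := hli2.comp e2 e2.injective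
      have h6 := h5.map' (LinearEquiv.funCongrLeft ℝ ℝ e1).toLinearMap (LinearEquiv.ker _)
      exact h6
    rw [Matrix.linearIndependent_cols_iff_isUnit, Matrix.isUnit_iff_isUnit_det] at h4
    have h5 : (Matrix.of fun p q : Fin (Fintype.card κ₁) =>
        (A (a (e1 p)).1 (c (e2 q)) : ℝ)).det = ((Matrix.of fun p q : Fin (Fintype.card κ₁) =>
        A (a (e1 p)).1 (c (e2 q))).det : ℝ) := by
      have := RingHom.map_det (Int.castRingHom ℝ) (Matrix.of fun p q : Fin (Fintype.card κ₁) =>
        A (a (e1 p)).1 (c (e2 q)))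
      simp only [eq_intCast] at this
      rw [this]
      rfl
    rw [h5, hdet] at h4
    simp at h4
  · intro w hw
    have hker : ∀ i, ∑ q, (A i (c (e2 q)) : ℝ) * w q = ∑ j, (A i j : ℝ) * z j := by
      set z' : κ → ℝ := fun j => ∑ q, if c (e2 q) = j then w q else 0 with hz'
      have hz'sum : ∀ x : κ → ℝ, ∑ q, x (c (e2 q)) * w q = ∑ j, x j * z' j := by
        intro x
        simp only [hz', Finset.mul_sum]
        rw [Finset.sum_comm]
        refine Finset.sum_congr rfl fun q _ => ?_
        rw [Finset.sum_eq_single (c (e2 q))]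
        · simp
        · intro j _ hj
          rw [if_neg hj.symm, mul_zero]
        · intro h
          exact absurd (Finset.mem_univ _) h
      let g : (κ → ℝ) →ₗ[ℝ] ℝ :=
        { toFun := fun x => ∑ j, x j * (z' j - z j)
          map_add' := fun x y => by
            rw [← Finset.sum_add_distrib]
            exact Finset.sum_congr rfl fun j _ => by simp only [Pi.add_apply]; ring
          map_smul' := fun t x => by
            simp only [RingHom.id_apply, smul_eq_mul, Finset.mul_sum]
            exact Finset.sum_congr rfl fun j _ => by simp only [Pi.smul_apply, smul_eq_mul]; ring }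
      have hg : ∀ x ∈ Submodule.span ℝ (Set.range fun p : κ₁ => fun j => (A (a p).1 j : ℝ)),
          g x = 0 := by
        intro x hx
        induction hx using Submodule.span_induction with
        | mem x hx =>
          obtain ⟨p, rfl⟩ := hx
          show ∑ j, (A (a p).1 j : ℝ) * (z' j - z j) = 0
          have h4 := hw (e1.symm p)
          simp only [Equiv.apply_symm_apply] at h4
          rw [hz'sum (fun j => (A (a p).1 j : ℝ))] at h4
          have h5 := (a p).2
          simp only [mul_sub, Finset.sum_sub_distrib, h4, h5, sub_self]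
        | zero => exact map_zero g
        | add x y _ _ hx hy => rw [map_add, hx, hy, add_zero]
        | smul t x _ hx => rw [map_smul, hx, smul_zero]
      intro i
      have h4 := hg _ (hrow i)
      rw [hz'sum (fun j => (A i j : ℝ))]
      have h5 : ∑ j, (A i j : ℝ) * (z' j - z j) = 0 := h4
      simp only [mul_sub, Finset.sum_sub_distrib] at h5
      linarith
    exact ⟨fun i => by rw [hker]; exact h1 i, fun i hi => by rw [hker]; exact h2 i hi⟩

end

end Pool.Agent.J6H79.FR
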