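import Pool.Agent.J6H79.FR.Mem
import Pool.Agent.J6H79.FR.LP
import Pool.Agent.ER.Build

/-!
# Real variables that occur only linearly: decomposition and substitution
-/

set_option autoImplicit false

namespace Pool.Agent.J6H79.FR

open Pool.Agent.H625R2 Pool.Agent.NPC Pool.Agent.NPC.ER Pool.Agent.NPC.ER.Ball
open Pool.Agent.J6H79.RS

instance (K i : ℕ) : Decidable (isLin K i) := inferInstanceAs (Decidable (_ ∧ _))
instance (K i : ℕ) : Decidable (isReal K i) := inferInstanceAs (Decidable (_ ∨ _))

theorem isReal_of_isLin {K i : ℕ} (h : isLin K i) : isReal K i := Or.inr h.2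

/-- the coefficient of the variable `j` -/
def cof (v : ℕ → ℤ) (j : ℕ) : Tm → ℤ
  | .var i => if i = j then 1 else 0
  | .zero => 0
  | .one => 0
  | .add s t => cof v j s + cof v j t
  | .neg t => - cof v j t
  | .mul s t => cof v j s * tev v t + tev v s * cof v j t

theorem cof_zero (v : ℕ → ℤ) {j : ℕ} : ∀ {t : Tm}, j ∉ tvars t → cof v j t = 0
  | .var i, h => by
    simp only [tvars, List.mem_singleton] at h
    exact if_neg fun h' => h h'.symm
  | .zero, _ => rfl
  | .one, _ => rfl
  | .add s t, h => by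
    simp only [tvars, List.mem_append, not_or] at h
    simp only [cof, cof_zero v h.1, cof_zero v h.2, add_zero]
  | .neg t, h => by
    have h' : j ∉ tvars t := h
    simp only [cof, cof_zero v h', neg_zero]
  | .mul s t, h => by
    simp only [tvars, List.mem_append, not_or] at h
    simp only [cof, cof_zero v h.1, cof_zero v h.2, mul_zero, zero_mul, add_zero]

theorem eval_eq_tev {v : ℕ → ℤ} {y : ℕ → ℝ} : ∀ {t : Tm}, (∀ i ∈ tvars t, y i = v i) →
    t.eval y = (tev v t : ℤ)
  | .var i, h => h i (by simp [tvars])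
  | .zero, _ => by simp [tev, Tm.eval]
  | .one, _ => by simp [tev, Tm.eval]
  | .add s t, h => by
    have h1 := eval_eq_tev (t := s) fun i hi => h i (by simp [tvars, hi])
    have h2 := eval_eq_tev (t := t) fun i hi => h i (by simp [tvars, hi])
    simp only [Tm.eval, h1, h2, tev]
    push_cast
    rfl
  | .neg t, h => by
    have h2 := eval_eq_tev (t := t) fun i hi => h i (by simpa [tvars] using hi)
    simp only [Tm.eval, h2, tev]
    push_cast
    rfl
  | .mul s t, h => by
    have h1 := eval_eq_tev (t := s) fun i hi => h i (by simp [tvars, hi])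
    have h2 := eval_eq_tev (t := t) fun i hi => h i (by simp [tvars, hi])
    simp only [Tm.eval, h1, h2, tev]
    push_cast
    rfl

theorem abs_tev_le {v : ℕ → ℤ} (hv : ∀ i, |v i| ≤ 1) (t : Tm) : |tev v t| ≤ 2 ^ tsz t := by
  induction t with
  | var i => exact (hv i).trans (by simp [tsz])
  | zero => simp [tev, tsz]
  | one => simp [tev, tsz]
  | add s t hs ht =>
    simp only [tev, tsz]
    have h1 : (1 : ℤ) ≤ 2 ^ tsz s := one_le_pow₀ (by norm_num)
    have h2 : (1 : ℤ) ≤ 2 ^ tsz t := one_le_pow₀ (by norm_num)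
    rw [pow_succ, pow_add]
    refine (abs_add_le _ _).trans ?_
    nlinarith
  | neg t ht =>
    simp only [tev, tsz, abs_neg, pow_succ]
    have h2 : (1 : ℤ) ≤ 2 ^ tsz t := one_le_pow₀ (by norm_num)
    linarith
  | mul s t hs ht =>
    simp only [tev, tsz, abs_mul, pow_succ, pow_add]
    have h2 : |tev v s| * |tev v t| ≤ 2 ^ tsz s * 2 ^ tsz t :=
      mul_le_mul hs ht (abs_nonneg _) (by positivity)
    have h3 : (0 : ℤ) ≤ 2 ^ tsz s * 2 ^ tsz t := by positivity
    linarith

theorem abs_cof_le {v : ℕ → ℤ} (hv : ∀ i, |v i| ≤ 1) (j : ℕ) (t : Tm) :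
    |cof v j t| ≤ 2 ^ tsz t := by
  induction t with
  | var i =>
    simp only [cof, tsz]
    split_ifs <;> simp
  | zero => simp [cof, tsz]
  | one => simp [cof, tsz]
  | add s t hs ht =>
    simp only [cof, tsz]
    have h1 : (1 : ℤ) ≤ 2 ^ tsz s := one_le_pow₀ (by norm_num)
    have h2 : (1 : ℤ) ≤ 2 ^ tsz t := one_le_pow₀ (by norm_num)
    rw [pow_succ, pow_add]
    refine (abs_add_le _ _).trans ?_
    nlinarith
  | neg t ht =>
    simp only [cof, tsz, abs_neg, pow_succ]
    have h2 : (1 : ℤ) ≤ 2 ^ tsz t := one_le_pow₀ (by norm_num)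
    linarith
  | mul s t hs ht =>
    simp only [cof, tsz, pow_succ, pow_add]
    refine (abs_add_le _ _).trans ?_
    rw [abs_mul, abs_mul]
    have h1 : |cof v j s| * |tev v t| ≤ 2 ^ tsz s * 2 ^ tsz t :=
      mul_le_mul hs (abs_tev_le hv t) (abs_nonneg _) (by positivity)
    have h2 : |tev v s| * |cof v j t| ≤ 2 ^ tsz s * 2 ^ tsz t :=
      mul_le_mul (abs_tev_le hv s) ht (abs_nonneg _) (by positivity)
    linarith

/-- `z` on the linear variables, `x` on the other ones -/
def mix (K : ℕ) (z x : ℕ → ℝ) : ℕ → ℝ := fun i => if isLin K i then z i else x i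

theorem mix_self (K : ℕ) (x : ℕ → ℝ) : mix K x x = x := by
  funext i
  simp [mix]

theorem lin_dec {K : ℕ} {v : ℕ → ℤ} {x : ℕ → ℝ} (hv : ∀ i, ¬ isReal K i → x i = v i)
    {J : Finset ℕ} (hJ : ∀ j ∈ J, isLin K j) (z : ℕ → ℝ) : ∀ {t : Tm}, LinOK K t →
    (∀ i ∈ tvars t, isLin K i → i ∈ J) →
    t.eval (mix K z x) = t.eval (mix K 0 x) + ∑ j ∈ J, (cof v j t : ℝ) * z j
  | .var i, _, h => by
    have h' := h i (by simp [tvars])
    simp only [Tm.eval, mix, cof]
    by_cases hi : isLin K i
    · rw [if_pos hi, if_pos hi, Finset.sum_eq_single i]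
      · simp
      · intro j _ hj
        rw [if_neg (Ne.symm hj)]
        simp
      · intro h2
        exact absurd (h' hi) h2
    · rw [if_neg hi, if_neg hi, Finset.sum_eq_zero, add_zero]
      intro j hj
      rw [if_neg (fun h2 : i = j => hi (h2.symm ▸ hJ j hj))]
      simp
  | .zero, _, _ => by simp [Tm.eval, cof]
  | .one, _, _ => by simp [Tm.eval, cof]
  | .add s t, h1, h => by
    have e1 := lin_dec hv hJ z h1.1 fun i hi => h i (by simp [tvars, hi])
    have e2 := lin_dec hv hJ z h1.2 fun i hi => h i (by simp [tvars, hi])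
    simp only [Tm.eval, e1, e2, cof, Int.cast_add, add_mul, Finset.sum_add_distrib]
    ring
  | .neg t, h1, h => by
    have e2 := lin_dec (t := t) hv hJ z h1 fun i hi => h i (by simpa [tvars] using hi)
    simp only [Tm.eval, e2, cof, Int.cast_neg, neg_mul, Finset.sum_neg_distrib]
    ring
  | .mul s t, h1, h => by
    obtain ⟨hs, ht, h2, h3⟩ := h1
    have e1 := lin_dec hv hJ z hs fun i hi => h i (by simp [tvars, hi])
    have e2 := lin_dec hv hJ z ht fun i hi => h i (by simp [tvars, hi])
    have key : ∀ u : Tm, (∀ i ∈ tvars u, ¬ isReal K i) → ∀ z : ℕ → ℝ,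
        u.eval (mix K z x) = (tev v u : ℤ) := by
      intro u hu z
      apply eval_eq_tev
      intro i hi
      rw [mix, if_neg fun h' => hu i hi (isReal_of_isLin h')]
      exact hv i (hu i hi)
    have key2 : ∀ u : Tm, (∀ i ∈ tvars u, ¬ isLin K i) → ∀ j ∈ J, cof v j u = 0 := by
      intro u hu j hj
      exact cof_zero v fun h' => hu j h' (hJ j hj)
    by_cases ht' : ∀ i ∈ tvars t, ¬ isReal K i
    · have ht'' : ∀ i ∈ tvars t, ¬ isLin K i := fun i hi h' => ht' i hi (isReal_of_isLin h')
      simp only [Tm.eval, key t ht', e1]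
      rw [add_mul, Finset.sum_mul]
      congr 1
      refine Finset.sum_congr rfl fun j hj => ?_
      simp only [cof, key2 t ht'' j hj]
      push_cast
      ring
    · have hs1 : ∀ i ∈ tvars s, ¬ isLin K i := by
        rcases h2 with h2 | h2
        · exact h2
        · exact absurd h2 ht'
      have hs2 : s.eval (mix K z x) = s.eval (mix K 0 x) := by
        rw [e1, Finset.sum_eq_zero, add_zero]
        intro j hj
        rw [key2 s hs1 j hj]
        simp
      rcases h3 with h3 | h3
      · have ht2 : t.eval (mix K z x) = t.eval (mix K 0 x) := by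
          rw [e2, Finset.sum_eq_zero, add_zero]
          intro j hj
          rw [key2 t h3 j hj]
          simp
        simp only [Tm.eval, hs2, ht2]
        rw [Finset.sum_eq_zero, add_zero]
        intro j hj
        simp only [cof, key2 s hs1 j hj, key2 t h3 j hj]
        simp
      · simp only [Tm.eval, key s h3, e2]
        rw [mul_add, Finset.mul_sum]
        congr 1
        refine Finset.sum_congr rfl fun j hj => ?_
        simp only [cof, key2 s hs1 j hj]
        push_cast
        ring

/-! ### Substitution -/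

/-- substitution in expressions -/
def sub (S : ℕ → Tm) : Tm → Tm
  | .var i => S i
  | .zero => .zero
  | .one => .one
  | .add s t => .add (sub S s) (sub S t)
  | .neg t => .neg (sub S t)
  | .mul s t => .mul (sub S s) (sub S t)

/-- substitution in formulas -/
def subF (S : ℕ → Tm) : Fm → Fm
  | .eq s t => .eq (sub S s) (sub S t)
  | .lt s t => .lt (sub S s) (sub S t)
  | .le s t => .le (sub S s) (sub S t)
  | .not φ => .not (subF S φ)
  | .and φ ψ => .and (subF S φ) (subF S ψ)
  | .or φ ψ => .or (subF S φ) (subF S ψ)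

theorem eval_sub (S : ℕ → Tm) (x : ℕ → ℝ) (t : Tm) :
    (sub S t).eval x = t.eval fun i => (S i).eval x := by
  induction t <;> simp [sub, Tm.eval, *]

theorem holds_subF (S : ℕ → Tm) (x : ℕ → ℝ) (φ : Fm) :
    (subF S φ).Holds x ↔ φ.Holds fun i => (S i).eval x := by
  induction φ <;> simp [subF, Fm.Holds, eval_sub, *]

theorem atoms_subF (S : ℕ → Tm) (φ : Fm) : atoms (subF S φ) = (atoms φ).map (sub S) := by
  induction φ <;> simp [subF, atoms, sub, *]

theorem tvars_sub {S : ℕ → Tm} {m : ℕ} {t : Tm} : m ∈ tvars (sub S t) ↔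
    ∃ i ∈ tvars t, m ∈ tvars (S i) := by
  induction t with
  | var i => simp [sub, tvars]
  | zero => simp [sub, tvars]
  | one => simp [sub, tvars]
  | add s t hs ht =>
    simp only [sub, tvars, List.mem_append, hs, ht]
    constructor
    · rintro (⟨i, h1, h2⟩ | ⟨i, h1, h2⟩)
      · exact ⟨i, Or.inl h1, h2⟩
      · exact ⟨i, Or.inr h1, h2⟩
    · rintro ⟨i, h1 | h1, h2⟩
      · exact Or.inl ⟨i, h1, h2⟩
      · exact Or.inr ⟨i, h1, h2⟩
  | neg t ht => simpa only [sub, tvars] using ht
  | mul s t hs ht =>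
    simp only [sub, tvars, List.mem_append, hs, ht]
    constructor
    · rintro (⟨i, h1, h2⟩ | ⟨i, h1, h2⟩)
      · exact ⟨i, Or.inl h1, h2⟩
      · exact ⟨i, Or.inr h1, h2⟩
    · rintro ⟨i, h1 | h1, h2⟩
      · exact Or.inl ⟨i, h1, h2⟩
      · exact Or.inr ⟨i, h1, h2⟩

theorem rdeg_zero {K : ℕ} : ∀ {t : Tm}, (∀ m ∈ tvars t, K ≤ m) → rdeg K t = 0
  | .var i, h => if_neg (by have := h i (by simp [tvars]); omega)
  | .zero, _ => rfl
  | .one, _ => rfl
  | .add s t, h => by
    have h1 := rdeg_zero (t := s) fun i hi => h i (by simp [tvars, hi])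
    have h2 := rdeg_zero (t := t) fun i hi => h i (by simp [tvars, hi])
    simp [rdeg, h1, h2]
  | .neg t, h => by
    have h2 := rdeg_zero (t := t) fun i hi => h i (by simpa [tvars] using hi)
    simp [rdeg, h2]
  | .mul s t, h => by
    have h1 := rdeg_zero (t := s) fun i hi => h i (by simp [tvars, hi])
    have h2 := rdeg_zero (t := t) fun i hi => h i (by simp [tvars, hi])
    simp [rdeg, h1, h2]

/-- The degree after the substitution. -/
theorem rdeg_sub {K K' E : ℕ} {S : ℕ → Tm} (h0 : ∀ i, ¬ isLin K i → rdeg K' (S i) ≤ rdeg K (.var i))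
    (h1 : ∀ i, isLin K i → rdeg K' (S i) ≤ E) : ∀ {t : Tm}, LinOK K t →
    rdeg K' (sub S t) ≤ max (rdeg K t) E ∧
      ((∀ i ∈ tvars t, ¬ isLin K i) → rdeg K' (sub S t) ≤ rdeg K t)
  | .var i, _ => by
    refine ⟨?_, fun h => h0 i (h i (by simp [tvars]))⟩
    by_cases hi : isLin K i
    · exact (h1 i hi).trans (le_max_right _ _)
    · exact (h0 i hi).trans (le_max_left _ _)
  | .zero, _ => ⟨Nat.zero_le _, fun _ => Nat.zero_le _⟩
  | .one, _ => ⟨Nat.zero_le _, fun _ => Nat.zero_le _⟩
  | .add s t, h => by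
    obtain ⟨e1, e2⟩ := rdeg_sub h0 h1 h.1
    obtain ⟨e3, e4⟩ := rdeg_sub h0 h1 h.2
    refine ⟨?_, fun h2 => ?_⟩
    · simp only [sub, rdeg]
      omega
    · have e5 := e2 fun i hi => h2 i (by simp [tvars, hi])
      have e6 := e4 fun i hi => h2 i (by simp [tvars, hi])
      simp only [sub, rdeg]
      omega
  | .neg t, h => by
    obtain ⟨e3, e4⟩ := rdeg_sub (t := t) h0 h1 h
    exact ⟨e3, fun h2 => e4 fun i hi => h2 i (by simpa [tvars] using hi)⟩
  | .mul s t, h => by
    obtain ⟨hs, ht, h2, h3⟩ := h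
    obtain ⟨e1, e2⟩ := rdeg_sub h0 h1 hs
    obtain ⟨e3, e4⟩ := rdeg_sub h0 h1 ht
    have key : ∀ u : Tm, (∀ i ∈ tvars u, ¬ isReal K i) → rdeg K u = 0 := by
      intro u hu
      apply rdeg_zero
      intro m hm
      have := hu m hm
      unfold isReal at this
      omega
    refine ⟨?_, fun h4 => ?_⟩
    · simp only [sub, rdeg]
      by_cases ht' : ∀ i ∈ tvars t, ¬ isReal K i
      · have ht'' : ∀ i ∈ tvars t, ¬ isLin K i := fun i hi h' => ht' i hi (isReal_of_isLin h')
        have e5 := e4 ht''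
        have e6 := key t ht'
        omega
      · have hs1 : ∀ i ∈ tvars s, ¬ isLin K i := by
          rcases h2 with h2 | h2
          · exact h2
          · exact absurd h2 ht'
        have e5 := e2 hs1
        rcases h3 with h3 | h3
        · have e6 := e4 h3
          omega
        · have e6 := key s h3
          omega
    · have e5 := e2 fun i hi => h4 i (by simp [tvars, hi])
      have e6 := e4 fun i hi => h4 i (by simp [tvars, hi])
      simp only [sub, rdeg]
      omega

/-- Only the signs of the atomic formulas matter. -/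
theorem holds_congr {x y : ℕ → ℝ} : ∀ {φ : Fm},
    (∀ t ∈ atoms φ, SignType.sign (t.eval x) = SignType.sign (t.eval y)) →
    (φ.Holds x ↔ φ.Holds y)
  | .eq s t, h => by
    have h1 := h (.add s (.neg t)) (by simp [atoms])
    simp only [Tm.eval, ← sub_eq_add_neg] at h1
    show s.eval x = t.eval x ↔ s.eval y = t.eval y
    rw [← sub_eq_zero, ← sub_eq_zero (a := s.eval y), ← sign_eq_zero_iff, h1, sign_eq_zero_iff]
  | .lt s t, h => by
    have h1 := h (.add s (.neg t)) (by simp [atoms])
    simp only [Tm.eval, ← sub_eq_add_neg] at h1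
    show s.eval x < t.eval x ↔ s.eval y < t.eval y
    rw [← sub_neg, ← sub_neg (a := s.eval y), ← sign_eq_neg_one_iff, h1, sign_eq_neg_one_iff]
  | .le s t, h => by
    have h1 := h (.add s (.neg t)) (by simp [atoms])
    simp only [Tm.eval, ← sub_eq_add_neg] at h1
    show s.eval x ≤ t.eval x ↔ s.eval y ≤ t.eval y
    rw [← sub_nonpos, ← sub_nonpos (a := s.eval y), ← sign_nonpos_iff, h1, sign_nonpos_iff]
  | .not φ, h => not_congr (holds_congr (φ := φ) h)
  | .and φ ψ, h => and_congr
      (holds_congr (φ := φ) fun t ht => h t (by simp [atoms, ht]))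
      (holds_congr (φ := ψ) fun t ht => h t (by simp [atoms, ht]))
  | .or φ ψ, h => or_congr
      (holds_congr (φ := φ) fun t ht => h t (by simp [atoms, ht]))
      (holds_congr (φ := ψ) fun t ht => h t (by simp [atoms, ht]))

end Pool.Agent.J6H79.FR
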