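import Pool.Agent.J6H79.FR.Grp
import Pool.Agent.ER.Dec

/-!
# The verifier: a stack machine that evaluates a formula at a dyadic point
-/

set_option autoImplicit false

namespace Pool.Agent.NPC.ER.J6H79

open Pool.Agent.J6H79.FR

/-- Stack entries: numerators `a`, `b` and denominator `w` of the number `(a - b) / w`, degree,
least and greatest number of a group. For formulas: truth value, flag, and irrelevant entries. -/
abbrev V : Type := ℕ × ℕ × ℕ × ℕ × ℕ × ℕ

/-- The data `k, K, D, W, E₁, E₂` and the certificate. -/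
abbrev Env : Type := ℕ × ℕ × ℕ × ℕ × ℕ × ℕ × List (ℕ × ℕ × ℕ)

/-- the entry of the certificate for the variable `i` -/
def lk (C : List (ℕ × ℕ × ℕ)) (i : ℕ) : ℕ × ℕ :=
  ((C.filter fun e => decide (e.1 = i)).head?.getD (0, 0, 0)).2

def vadd (u v : V) : V :=
  (u.1 * v.2.2.1 + v.1 * u.2.2.1, u.2.1 * v.2.2.1 + v.2.1 * u.2.2.1, u.2.2.1 * v.2.2.1,
    max u.2.2.2.1 v.2.2.2.1, min u.2.2.2.2.1 v.2.2.2.2.1, max u.2.2.2.2.2 v.2.2.2.2.2)

def vmul (u v : V) : V :=
  (u.1 * v.1 + u.2.1 * v.2.1, u.1 * v.2.1 + u.2.1 * v.1, u.2.2.1 * v.2.2.1,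
    u.2.2.2.1 + v.2.2.2.1, min u.2.2.2.2.1 v.2.2.2.2.1, max u.2.2.2.2.2 v.2.2.2.2.2)

def vneg (u : V) : V := (u.2.1, u.1, u.2.2)

def vvar (e : Env) (i : ℕ) : V :=
  if i < e.2.1 then ((lk e.2.2.2.2.2.2 i).1, (lk e.2.2.2.2.2.2 i).2, e.2.2.2.1, 1, i / e.1, i / e.1)
  else (if (lk e.2.2.2.2.2.2 i).1 = 0 then 0 else 1, 0, 1, 0, e.2.1, 0)

def vcst (e : Env) (n : ℕ) : V := (n, 0, 1, 0, e.2.1, 0)

def zer (e : Env) (u : V) : Bool :=
  decide ((u.1 - u.2.1) * e.2.2.2.2.1 ≤ u.2.2.1) && decide ((u.2.1 - u.1) * e.2.2.2.2.1 ≤ u.2.2.1)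

def pos (e : Env) (u : V) : Bool := decide (u.2.2.1 ≤ (u.1 - u.2.1) * e.2.2.2.2.2.1)

def ng (e : Env) (u : V) : Bool := decide (u.2.2.1 ≤ (u.2.1 - u.1) * e.2.2.2.2.2.1)

def okk (e : Env) (u : V) : Bool :=
  (zer e u || (pos e u || ng e u)) && (decide (u.2.2.2.1 ≤ e.2.2.1) &&
    decide (u.2.2.2.2.2 ≤ u.2.2.2.2.1))

def vatom (e : Env) (c : ℕ) (u : V) : V :=
  (if (if c = 6 then zer e u else if c = 7 then ng e u else (zer e u || ng e u)) = true then 1 else 0,
    if okk e u = true then 1 else 0, 1, 0, 0, 0)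

def vnot (u : V) : V := (1 - u.1, u.2.1, 1, 0, 0, 0)

def vand (u v : V) : V := (min u.1 v.1, min u.2.1 v.2.1, 1, 0, 0, 0)

def vor (u v : V) : V := (max u.1 v.1, min u.2.1 v.2.1, 1, 0, 0, 0)

def vbin (e : Env) (c : ℕ) (u v : V) : V :=
  if c = 3 then vadd u v else if c = 5 then vmul u v else if c = 10 then vand u v
  else if c = 11 then vor u v else vatom e c (vadd u (vneg v))

/-- The stack machine. -/
def vstep (e : Env) (st : List V) (t : Tok) : List V :=
  if t.code.1 = 0 then vvar e t.code.2 :: st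
  else if t.code.1 = 1 then vcst e 0 :: st
  else if t.code.1 = 2 then vcst e 1 :: st
  else match st with
    | [] => []
    | v :: l =>
      if t.code.1 = 4 then vneg v :: l
      else if t.code.1 = 9 then vnot v :: l
      else match l with
        | [] => []
        | u :: l' => vbin e t.code.1 u v :: l'

/-- values of terms -/
def tv (e : Env) : Tm → V
  | .var i => vvar e i
  | .zero => vcst e 0
  | .one => vcst e 1
  | .add s t => vadd (tv e s) (tv e t)
  | .neg t => vneg (tv e t)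
  | .mul s t => vmul (tv e s) (tv e t)

/-- values of formulas -/
def fv (e : Env) : Fm → V
  | .eq s t => vatom e 6 (tv e (.add s (.neg t)))
  | .lt s t => vatom e 7 (tv e (.add s (.neg t)))
  | .le s t => vatom e 8 (tv e (.add s (.neg t)))
  | .not φ => vnot (fv e φ)
  | .and φ ψ => vand (fv e φ) (fv e ψ)
  | .or φ ψ => vor (fv e φ) (fv e ψ)

theorem foldl_tm (e : Env) (t : Tm) : ∀ st, t.toks.foldl (vstep e) st = tv e t :: st := by
  induction t with
  | var i => intro st; rfl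
  | zero => intro st; rfl
  | one => intro st; rfl
  | add s t ihs iht => intro st; simp [Tm.toks, ihs, iht, vstep, vbin, Tok.code, tv]
  | neg t ih => intro st; simp [Tm.toks, ih, vstep, Tok.code, tv]
  | mul s t ihs iht => intro st; simp [Tm.toks, ihs, iht, vstep, vbin, Tok.code, tv]

theorem foldl_fm (e : Env) (φ : Fm) : ∀ st, φ.toks.foldl (vstep e) st = fv e φ :: st := by
  induction φ with
  | eq s t => intro st; simp [Fm.toks, foldl_tm, vstep, vbin, Tok.code, fv, tv]
  | lt s t => intro st; simp [Fm.toks, foldl_tm, vstep, vbin, Tok.code, fv, tv]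
  | le s t => intro st; simp [Fm.toks, foldl_tm, vstep, vbin, Tok.code, fv, tv]
  | not φ ih => intro st; simp [Fm.toks, ih, vstep, Tok.code, fv]
  | and φ ψ ih1 ih2 => intro st; simp [Fm.toks, ih1, ih2, vstep, vbin, Tok.code, fv]
  | or φ ψ ih1 ih2 => intro st; simp [Fm.toks, ih1, ih2, vstep, vbin, Tok.code, fv]

/-- the values represented by a certificate -/
def cb (C : List (ℕ × ℕ × ℕ)) (i : ℕ) : Bool := decide ((lk C i).1 ≠ 0)

/-- the point represented by a certificate -/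
noncomputable def cpt (K P : ℕ) (C : List (ℕ × ℕ × ℕ)) : ℕ → ℝ :=
  pt K (cb C) (dy P (fun i => (lk C i).1) (fun i => (lk C i).2))

/-- the environment -/
def mkEnv (k g D P A : ℕ) (C : List (ℕ × ℕ × ℕ)) : Env :=
  (k, k * g, D, 2 ^ P, 2 ^ A ^ 8, 2 ^ (2 * A ^ 4 + 1), C)

structure TOk (k g D P A : ℕ) (C : List (ℕ × ℕ × ℕ)) (t : Tm) : Prop where
  w : 0 < (tv (mkEnv k g D P A C) t).2.2.1
  val : t.eval (cpt (k * g) P C) = ((tv (mkEnv k g D P A C) t).1 -
    (tv (mkEnv k g D P A C) t).2.1) / (tv (mkEnv k g D P A C) t).2.2.1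
  deg : (tv (mkEnv k g D P A C) t).2.2.2.1 = rdeg (k * g) t
  lo : ∀ i ∈ tvars t, i < k * g → (tv (mkEnv k g D P A C) t).2.2.2.2.1 ≤ i / k
  lo' : (tv (mkEnv k g D P A C) t).2.2.2.2.1 = k * g ∨ ∃ i ∈ tvars t, i < k * g ∧
    i / k = (tv (mkEnv k g D P A C) t).2.2.2.2.1
  hi : ∀ i ∈ tvars t, i < k * g → i / k ≤ (tv (mkEnv k g D P A C) t).2.2.2.2.2
  hi' : (tv (mkEnv k g D P A C) t).2.2.2.2.2 = 0 ∨ ∃ i ∈ tvars t, i < k * g ∧
    i / k = (tv (mkEnv k g D P A C) t).2.2.2.2.2

theorem div_sub_aux {a b w a' b' w' : ℝ} (hw : w ≠ 0) (hw' : w' ≠ 0) :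
    (a - b) / w + (a' - b') / w' = (a * w' + a' * w - (b * w' + b' * w)) / (w * w') := by
  field_simp
  ring

theorem tok (k g D P A : ℕ) (C : List (ℕ × ℕ × ℕ)) (t : Tm) : TOk k g D P A C t := by
  induction t with
  | var i =>
    by_cases hi : i < k * g
    · have h0 : tv (mkEnv k g D P A C) (.var i) = ((lk C i).1, (lk C i).2, 2 ^ P, 1, i / k, i / k) := by
        exact if_pos hi
      refine ⟨?_, ?_, ?_, ?_, ?_, ?_, ?_⟩ <;> rw [h0]
      · show 0 < 2 ^ P
        positivity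
      · show cpt (k * g) P C i = _
        unfold cpt pt
        rw [if_pos hi]
        simp [dy]
      · simp [rdeg, hi]
      · intro j hj _
        simp only [tvars, List.mem_singleton] at hj
        subst hj
        exact le_rfl
      · exact Or.inr ⟨i, by simp [tvars], hi, rfl⟩
      · intro j hj _
        simp only [tvars, List.mem_singleton] at hj
        subst hj
        exact le_rfl
      · exact Or.inr ⟨i, by simp [tvars], hi, rfl⟩
    · have h0 : tv (mkEnv k g D P A C) (.var i) = (if (lk C i).1 = 0 then 0 else 1, 0, 1, 0, k * g, 0) := by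
        exact if_neg hi
      refine ⟨?_, ?_, ?_, ?_, ?_, ?_, ?_⟩ <;> rw [h0]
      · show 0 < 1
        norm_num
      · show cpt (k * g) P C i = _
        unfold cpt pt cb
        rw [if_neg hi]
        by_cases h : (lk C i).1 = 0
        · simp [h]
        · simp [h]
      · simp [rdeg, hi]
      · intro j hj hj'
        simp only [tvars, List.mem_singleton] at hj
        subst hj
        exact absurd hj' hi
      · exact Or.inl rfl
      · intro j hj hj'
        simp only [tvars, List.mem_singleton] at hj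
        subst hj
        exact absurd hj' hi
      · exact Or.inl rfl
  | zero =>
    refine ⟨Nat.one_pos, ?_, rfl, ?_, Or.inl rfl, ?_, Or.inl rfl⟩
    · simp [tv, vcst, Tm.eval]
    · intro j hj
      simp [tvars] at hj
    · intro j hj
      simp [tvars] at hj
  | one =>
    refine ⟨Nat.one_pos, ?_, rfl, ?_, Or.inl rfl, ?_, Or.inl rfl⟩
    · simp [tv, vcst, Tm.eval]
    · intro j hj
      simp [tvars] at hj
    · intro j hj
      simp [tvars] at hj
  | add s t hs ht =>
    refine ⟨Nat.mul_pos hs.w ht.w, ?_, ?_, ?_, ?_, ?_, ?_⟩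
    · have h1 : ((tv (mkEnv k g D P A C) s).2.2.1 : ℝ) ≠ 0 := Nat.cast_ne_zero.2 hs.w.ne'
      have h2 : ((tv (mkEnv k g D P A C) t).2.2.1 : ℝ) ≠ 0 := Nat.cast_ne_zero.2 ht.w.ne'
      simp only [Tm.eval, hs.val, ht.val, tv, vadd]
      push_cast
      exact div_sub_aux h1 h2
    · simp only [tv, vadd, rdeg, hs.deg, ht.deg]
    · intro i hi hK
      simp only [tvars, List.mem_append] at hi
      simp only [tv, vadd]
      rcases hi with hi | hi
      · exact (min_le_left _ _).trans (hs.lo i hi hK)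
      · exact (min_le_right _ _).trans (ht.lo i hi hK)
    · simp only [tv, vadd]
      rcases min_choice (tv (mkEnv k g D P A C) s).2.2.2.2.1 (tv (mkEnv k g D P A C) t).2.2.2.2.1
        with h | h <;> rw [h]
      · rcases hs.lo' with h' | ⟨i, hi, h'⟩
        · exact Or.inl h'
        · exact Or.inr ⟨i, by simp [tvars, hi], h'⟩
      · rcases ht.lo' with h' | ⟨i, hi, h'⟩
        · exact Or.inl h'
        · exact Or.inr ⟨i, by simp [tvars, hi], h'⟩
    · intro i hi hK
      simp only [tvars, List.mem_append] at hi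
      simp only [tv, vadd]
      rcases hi with hi | hi
      · exact (hs.hi i hi hK).trans (le_max_left _ _)
      · exact (ht.hi i hi hK).trans (le_max_right _ _)
    · simp only [tv, vadd]
      rcases max_choice (tv (mkEnv k g D P A C) s).2.2.2.2.2 (tv (mkEnv k g D P A C) t).2.2.2.2.2
        with h | h <;> rw [h]
      · rcases hs.hi' with h' | ⟨i, hi, h'⟩
        · exact Or.inl h'
        · exact Or.inr ⟨i, by simp [tvars, hi], h'⟩
      · rcases ht.hi' with h' | ⟨i, hi, h'⟩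
        · exact Or.inl h'
        · exact Or.inr ⟨i, by simp [tvars, hi], h'⟩
  | neg t ht =>
    refine ⟨ht.w, ?_, ht.deg, ht.lo, ht.lo', ht.hi, ht.hi'⟩
    simp only [Tm.eval, ht.val, tv, vneg]
    ring
  | mul s t hs ht =>
    refine ⟨Nat.mul_pos hs.w ht.w, ?_, ?_, ?_, ?_, ?_, ?_⟩
    · have h1 : ((tv (mkEnv k g D P A C) s).2.2.1 : ℝ) ≠ 0 := Nat.cast_ne_zero.2 hs.w.ne'
      have h2 : ((tv (mkEnv k g D P A C) t).2.2.1 : ℝ) ≠ 0 := Nat.cast_ne_zero.2 ht.w.ne'
      simp only [Tm.eval, hs.val, ht.val, tv, vmul]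
      push_cast
      field_simp
      ring
    · simp only [tv, vmul, rdeg, hs.deg, ht.deg]
    · intro i hi hK
      simp only [tvars, List.mem_append] at hi
      simp only [tv, vmul]
      rcases hi with hi | hi
      · exact (min_le_left _ _).trans (hs.lo i hi hK)
      · exact (min_le_right _ _).trans (ht.lo i hi hK)
    · simp only [tv, vmul]
      rcases min_choice (tv (mkEnv k g D P A C) s).2.2.2.2.1 (tv (mkEnv k g D P A C) t).2.2.2.2.1
        with h | h <;> rw [h]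
      · rcases hs.lo' with h' | ⟨i, hi, h'⟩
        · exact Or.inl h'
        · exact Or.inr ⟨i, by simp [tvars, hi], h'⟩
      · rcases ht.lo' with h' | ⟨i, hi, h'⟩
        · exact Or.inl h'
        · exact Or.inr ⟨i, by simp [tvars, hi], h'⟩
    · intro i hi hK
      simp only [tvars, List.mem_append] at hi
      simp only [tv, vmul]
      rcases hi with hi | hi
      · exact (hs.hi i hi hK).trans (le_max_left _ _)
      · exact (ht.hi i hi hK).trans (le_max_right _ _)
    · simp only [tv, vmul]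
      rcases max_choice (tv (mkEnv k g D P A C) s).2.2.2.2.2 (tv (mkEnv k g D P A C) t).2.2.2.2.2
        with h | h <;> rw [h]
      · rcases hs.hi' with h' | ⟨i, hi, h'⟩
        · exact Or.inl h'
        · exact Or.inr ⟨i, by simp [tvars, hi], h'⟩
      · rcases ht.hi' with h' | ⟨i, hi, h'⟩
        · exact Or.inl h'
        · exact Or.inr ⟨i, by simp [tvars, hi], h'⟩

section

variable {k g D P A : ℕ} {C : List (ℕ × ℕ × ℕ)}

theorem oneGroup_iff (t : Tm) : (tv (mkEnv k g D P A C) t).2.2.2.2.2 ≤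
    (tv (mkEnv k g D P A C) t).2.2.2.2.1 ↔ OneGroup k (k * g) t := by
  have h := tok k g D P A C t
  constructor
  · intro h1 i hi j hj hiK hjK
    have e1 := h.lo i hi hiK
    have e2 := h.lo j hj hjK
    have e3 := h.hi i hi hiK
    have e4 := h.hi j hj hjK
    omega
  · intro h1
    rcases h.hi' with h2 | ⟨i, hi, hiK, h2⟩
    · rw [h2]
      exact Nat.zero_le _
    · rcases h.lo' with h3 | ⟨j, hj, hjK, h3⟩
      · rw [h3, ← h2]
        exact (Nat.div_le_self _ _).trans hiK.le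
      · rw [← h2, ← h3, h1 i hi j hj hiK hjK]

theorem zer_eq (u : V) : zer (mkEnv k g D P A C) u = true ↔
    ((u.1 - u.2.1) * 2 ^ A ^ 8 ≤ u.2.2.1 ∧ (u.2.1 - u.1) * 2 ^ A ^ 8 ≤ u.2.2.1) := by
  unfold zer
  rw [Bool.and_eq_true, decide_eq_true_eq, decide_eq_true_eq]
  exact Iff.rfl

theorem pos_eq (u : V) : pos (mkEnv k g D P A C) u = true ↔
    u.2.2.1 ≤ (u.1 - u.2.1) * 2 ^ (2 * A ^ 4 + 1) := by
  unfold pos
  rw [decide_eq_true_eq]
  exact Iff.rfl

theorem zer_iff (t : Tm) : zer (mkEnv k g D P A C) (tv (mkEnv k g D P A C) t) = true ↔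
    asg A (t.eval (cpt (k * g) P C)) .zero := by
  have h := tok k g D P A C t
  have hw : (0 : ℝ) < (tv (mkEnv k g D P A C) t).2.2.1 := Nat.cast_pos.2 h.w
  show _ ↔ |_| ≤ _
  rw [h.val, abs_div, abs_of_pos hw, div_le_div_iff₀ hw (by positivity), one_mul]
  rw [zer_eq]
  generalize tv (mkEnv k g D P A C) t = u at *
  have e1 : ((2 : ℝ) ^ A ^ 8) = ((2 ^ A ^ 8 : ℕ) : ℝ) := by push_cast; rfl
  rw [e1]
  rcases le_total u.2.1 u.1 with h1 | h1
  · have h2 : (0 : ℝ) ≤ (u.1 : ℝ) - u.2.1 := sub_nonneg.2 (Nat.cast_le.2 h1)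
    rw [abs_of_nonneg h2, ← Nat.cast_sub h1, ← Nat.cast_mul, Nat.cast_le]
    rw [Nat.sub_eq_zero_of_le h1, Nat.zero_mul]
    simp
  · have h2 : (u.1 : ℝ) - u.2.1 ≤ 0 := sub_nonpos.2 (Nat.cast_le.2 h1)
    rw [abs_of_nonpos h2, neg_sub, ← Nat.cast_sub h1, ← Nat.cast_mul, Nat.cast_le]
    rw [Nat.sub_eq_zero_of_le h1, Nat.zero_mul]
    simp

theorem pos_iff (t : Tm) : pos (mkEnv k g D P A C) (tv (mkEnv k g D P A C) t) = true ↔
    asg A (t.eval (cpt (k * g) P C)) .pos := by
  have h := tok k g D P A C t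
  have hw : (0 : ℝ) < (tv (mkEnv k g D P A C) t).2.2.1 := Nat.cast_pos.2 h.w
  show _ ↔ 1 ≤ _
  rw [h.val, div_mul_eq_mul_div, le_div_iff₀ hw, one_mul]
  have hw' := h.w
  rw [pos_eq]
  generalize tv (mkEnv k g D P A C) t = u at *
  have e1 : ((2 : ℝ) ^ (2 * A ^ 4 + 1)) = ((2 ^ (2 * A ^ 4 + 1) : ℕ) : ℝ) := by push_cast; rfl
  rw [e1]
  rcases le_total u.2.1 u.1 with h1 | h1
  · rw [← Nat.cast_sub h1, ← Nat.cast_mul, Nat.cast_le]
  · have h2 : (u.1 : ℝ) - u.2.1 ≤ 0 := sub_nonpos.2 (Nat.cast_le.2 h1)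
    rw [Nat.sub_eq_zero_of_le h1, Nat.zero_mul]
    constructor
    · intro h3
      omega
    · intro h3
      have h4 : ((u.1 : ℝ) - u.2.1) * ((2 ^ (2 * A ^ 4 + 1) : ℕ) : ℝ) ≤ 0 :=
        mul_nonpos_of_nonpos_of_nonneg h2 (Nat.cast_nonneg _)
      linarith

theorem ng_iff (t : Tm) : ng (mkEnv k g D P A C) (tv (mkEnv k g D P A C) t) = true ↔
    asg A (t.eval (cpt (k * g) P C)) .neg := by
  have h := pos_iff (k := k) (g := g) (D := D) (P := P) (A := A) (C := C) (.neg t)
  exact h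

theorem valid_iff {v : ℝ} : (∃ σ, asg A v σ) ↔ (asg A v .zero ∨ (asg A v .pos ∨ asg A v .neg)) := by
  constructor
  · rintro ⟨σ, h⟩
    cases σ
    · exact Or.inl h
    · exact Or.inr (Or.inr h)
    · exact Or.inr (Or.inl h)
  · rintro (h | h | h)
    · exact ⟨_, h⟩
    · exact ⟨_, h⟩
    · exact ⟨_, h⟩

theorem okk_iff (t : Tm) : okk (mkEnv k g D P A C) (tv (mkEnv k g D P A C) t) = true ↔
    (∃ σ, asg A (t.eval (cpt (k * g) P C)) σ) ∧ rdeg (k * g) t ≤ D ∧ OneGroup k (k * g) t := by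
  unfold okk
  rw [Bool.and_eq_true, Bool.or_eq_true, Bool.or_eq_true, Bool.and_eq_true, zer_iff, pos_iff,
    ng_iff, valid_iff, decide_eq_true_eq, decide_eq_true_eq, oneGroup_iff, (tok k g D P A C t).deg]
  rfl

/-- all atomic formulas are clearly decided, of small degree and contain real variables of one
group only -/
def AllOk (k g D P A : ℕ) (C : List (ℕ × ℕ × ℕ)) (φ : Fm) : Prop :=
  ∀ t ∈ atoms φ, (∃ σ, asg A (t.eval (cpt (k * g) P C)) σ) ∧ rdeg (k * g) t ≤ D ∧
    OneGroup k (k * g) t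

structure FOk (k g D P A : ℕ) (C : List (ℕ × ℕ × ℕ)) (φ : Fm) : Prop where
  le1 : (fv (mkEnv k g D P A C) φ).1 ≤ 1
  le2 : (fv (mkEnv k g D P A C) φ).2.1 ≤ 1
  h1 : (fv (mkEnv k g D P A C) φ).1 = 1 ↔ AH A (cpt (k * g) P C) φ
  h2 : (fv (mkEnv k g D P A C) φ).2.1 = 1 ↔ AllOk k g D P A C φ

theorem ite_le_one {p : Prop} [Decidable p] : (if p then 1 else 0 : ℕ) ≤ 1 := by
  split_ifs <;> simp

theorem ite_eq_one {p : Prop} [Decidable p] : (if p then 1 else 0 : ℕ) = 1 ↔ p := by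
  split_ifs <;> simp [*]

theorem fok (φ : Fm) : FOk k g D P A C φ := by
  induction φ with
  | eq s t =>
    refine ⟨ite_le_one, ite_le_one, ?_, ?_⟩
    · show (if _ then 1 else 0) = 1 ↔ _
      rw [ite_eq_one, if_pos rfl, zer_iff]
      rfl
    · show (if _ then 1 else 0) = 1 ↔ _
      rw [ite_eq_one, okk_iff]
      simp [AllOk, atoms]
  | lt s t =>
    refine ⟨ite_le_one, ite_le_one, ?_, ?_⟩
    · show (if _ then 1 else 0) = 1 ↔ _
      rw [ite_eq_one, if_neg (by norm_num), if_pos rfl, ng_iff]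
      rfl
    · show (if _ then 1 else 0) = 1 ↔ _
      rw [ite_eq_one, okk_iff]
      simp [AllOk, atoms]
  | le s t =>
    refine ⟨ite_le_one, ite_le_one, ?_, ?_⟩
    · show (if _ then 1 else 0) = 1 ↔ _
      rw [ite_eq_one, if_neg (by norm_num), if_neg (by norm_num), Bool.or_eq_true, zer_iff, ng_iff]
      rfl
    · show (if _ then 1 else 0) = 1 ↔ _
      rw [ite_eq_one, okk_iff]
      simp [AllOk, atoms]
  | not φ h =>
    refine ⟨Nat.sub_le _ _, h.le2, ?_, h.h2⟩
    show 1 - _ = 1 ↔ ¬ _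
    rw [← h.h1]
    have := h.le1
    omega
  | and φ ψ h h' =>
    have e1 := h.le1
    have e2 := h.le2
    have e3 := h'.le1
    have e4 := h'.le2
    refine ⟨(min_le_left _ _).trans e1, (min_le_left _ _).trans e2, ?_, ?_⟩
    · show min _ _ = 1 ↔ _ ∧ _
      rw [← h.h1, ← h'.h1]
      omega
    · have e5 : AllOk k g D P A C (.and φ ψ) ↔ AllOk k g D P A C φ ∧ AllOk k g D P A C ψ := by
        simp only [AllOk, atoms, List.mem_append]
        constructor
        · intro h
          exact ⟨fun t ht => h t (Or.inl ht), fun t ht => h t (Or.inr ht)⟩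
        · rintro ⟨h, h'⟩ t (ht | ht)
          · exact h t ht
          · exact h' t ht
      show min _ _ = 1 ↔ _
      rw [e5, ← h.h2, ← h'.h2]
      omega
  | or φ ψ h h' =>
    have e1 := h.le1
    have e2 := h.le2
    have e3 := h'.le1
    have e4 := h'.le2
    refine ⟨max_le e1 e3, (min_le_left _ _).trans e2, ?_, ?_⟩
    · show max _ _ = 1 ↔ _ ∨ _
      rw [← h.h1, ← h'.h1]
      omega
    · have e5 : AllOk k g D P A C (.or φ ψ) ↔ AllOk k g D P A C φ ∧ AllOk k g D P A C ψ := by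
        simp only [AllOk, atoms, List.mem_append]
        constructor
        · intro h
          exact ⟨fun t ht => h t (Or.inl ht), fun t ht => h t (Or.inr ht)⟩
        · rintro ⟨h, h'⟩ t (ht | ht)
          · exact h t ht
          · exact h' t ht
      show min _ _ = 1 ↔ _
      rw [e5, ← h.h2, ← h'.h2]
      omega

end

end Pool.Agent.NPC.ER.J6H79
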