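import Pool.Agent.J6H79.FR.Mach

/-!
# The verifier runs in polynomial time
-/

set_option autoImplicit false

namespace Pool.Agent.NPC.ER.J6H79

open Pool.Agent.J6H79.FR

section

variable {α : Type} [TEnc α]

theorem poly_lk {C : α → List (ℕ × ℕ × ℕ)} {i : α → ℕ} (hC : Poly C) (hi : Poly i) :
    Poly (fun a => lk (C a) (i a)) := by
  have h1 : Poly (fun a => ((C a).filter fun e => decide (e.1 = i a)).head?) :=
    Poly.head? (Poly.filter (p := fun a e => decide (e.1 = i a)) hC
      (Poly.decide_eq (Poly.fst (Poly.snd Poly.id)) (hi.comp (Poly.fst Poly.id))))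
  have h2 := Poly.optCases (g := fun _ => ((0, 0, 0) : ℕ × ℕ × ℕ)) (h := fun _ q => q) h1
    (Poly.const _) (Poly.snd Poly.id)
  refine (Poly.snd h2).congr fun a => ?_
  unfold lk
  generalize ((C a).filter fun e => decide (e.1 = i a)).head? = o
  cases o <;> rfl

variable {u v : α → V}

theorem p1 (h : Poly u) : Poly (fun a => (u a).1) := Poly.fst h
theorem p2 (h : Poly u) : Poly (fun a => (u a).2.1) := Poly.fst (Poly.snd h)
theorem p3 (h : Poly u) : Poly (fun a => (u a).2.2.1) := Poly.fst (Poly.snd (Poly.snd h))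
theorem p4 (h : Poly u) : Poly (fun a => (u a).2.2.2.1) :=
  Poly.fst (Poly.snd (Poly.snd (Poly.snd h)))
theorem p5 (h : Poly u) : Poly (fun a => (u a).2.2.2.2.1) :=
  Poly.fst (Poly.snd (Poly.snd (Poly.snd (Poly.snd h))))
theorem p6 (h : Poly u) : Poly (fun a => (u a).2.2.2.2.2) :=
  Poly.snd (Poly.snd (Poly.snd (Poly.snd (Poly.snd h))))

theorem poly_vadd (hu : Poly u) (hv : Poly v) : Poly (fun a => vadd (u a) (v a)) :=
  Poly.pair (Poly.add (Poly.mul (p1 hu) (p3 hv)) (Poly.mul (p1 hv) (p3 hu)))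
    (Poly.pair (Poly.add (Poly.mul (p2 hu) (p3 hv)) (Poly.mul (p2 hv) (p3 hu)))
    (Poly.pair (Poly.mul (p3 hu) (p3 hv))
    (Poly.pair (Poly.max (p4 hu) (p4 hv)) (Poly.pair (Poly.min (p5 hu) (p5 hv))
      (Poly.max (p6 hu) (p6 hv))))))

theorem poly_vmul (hu : Poly u) (hv : Poly v) : Poly (fun a => vmul (u a) (v a)) :=
  Poly.pair (Poly.add (Poly.mul (p1 hu) (p1 hv)) (Poly.mul (p2 hu) (p2 hv)))
    (Poly.pair (Poly.add (Poly.mul (p1 hu) (p2 hv)) (Poly.mul (p2 hu) (p1 hv)))
    (Poly.pair (Poly.mul (p3 hu) (p3 hv))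
    (Poly.pair (Poly.add (p4 hu) (p4 hv)) (Poly.pair (Poly.min (p5 hu) (p5 hv))
      (Poly.max (p6 hu) (p6 hv))))))

theorem poly_vneg (hu : Poly u) : Poly (fun a => vneg (u a)) :=
  Poly.pair (p2 hu) (Poly.pair (p1 hu) (Poly.snd (Poly.snd hu)))

theorem poly_tail : Poly (fun _ : α => ((1, 0, 0, 0) : ℕ × ℕ × ℕ × ℕ)) := Poly.const _

theorem poly_vnot (hu : Poly u) : Poly (fun a => vnot (u a)) :=
  Poly.pair (Poly.sub (Poly.const 1) (p1 hu)) (Poly.pair (p2 hu) poly_tail)

theorem poly_vand (hu : Poly u) (hv : Poly v) : Poly (fun a => vand (u a) (v a)) :=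
  Poly.pair (Poly.min (p1 hu) (p1 hv)) (Poly.pair (Poly.min (p2 hu) (p2 hv)) poly_tail)

theorem poly_vor (hu : Poly u) (hv : Poly v) : Poly (fun a => vor (u a) (v a)) :=
  Poly.pair (Poly.max (p1 hu) (p1 hv)) (Poly.pair (Poly.min (p2 hu) (p2 hv)) poly_tail)

variable {e : α → Env} {i c : α → ℕ}

theorem poly_vvar (he : Poly e) (hi : Poly i) : Poly (fun a => vvar (e a) (i a)) := by
  have h1 : Poly (fun a => lk (e a).2.2.2.2.2.2 (i a)) := poly_lk
    (Poly.snd (Poly.snd (Poly.snd (Poly.snd (Poly.snd (Poly.snd he)))))) hi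
  have hk : Poly (fun a => (e a).1) := Poly.fst he
  have hK : Poly (fun a => (e a).2.1) := Poly.fst (Poly.snd he)
  have hW : Poly (fun a => (e a).2.2.2.1) := Poly.fst (Poly.snd (Poly.snd (Poly.snd he)))
  exact Poly.ite (Poly.decide_lt hi hK)
    (Poly.pair (Poly.fst h1) (Poly.pair (Poly.snd h1) (Poly.pair hW (Poly.pair (Poly.const 1)
      (Poly.pair (Poly.div hi hk) (Poly.div hi hk))))))
    (Poly.pair (Poly.ite (Poly.decide_eq (Poly.fst h1) (Poly.const 0)) (Poly.const 0)
      (Poly.const 1)) (Poly.pair (Poly.const 0) (Poly.pair (Poly.const 1)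
      (Poly.pair (Poly.const 0) (Poly.pair hK (Poly.const 0))))))

theorem poly_vcst (he : Poly e) (n : ℕ) : Poly (fun a => vcst (e a) n) :=
  Poly.pair (Poly.const n) (Poly.pair (Poly.const 0) (Poly.pair (Poly.const 1)
    (Poly.pair (Poly.const 0) (Poly.pair (Poly.fst (Poly.snd he)) (Poly.const 0)))))

theorem poly_zer (he : Poly e) (hu : Poly u) : Poly (fun a => zer (e a) (u a)) := by
  have hE : Poly (fun a => (e a).2.2.2.2.1) :=
    Poly.fst (Poly.snd (Poly.snd (Poly.snd (Poly.snd he))))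
  exact Poly.and (Poly.decide_le (Poly.mul (Poly.sub (p1 hu) (p2 hu)) hE) (p3 hu))
    (Poly.decide_le (Poly.mul (Poly.sub (p2 hu) (p1 hu)) hE) (p3 hu))

theorem poly_pos (he : Poly e) (hu : Poly u) : Poly (fun a => pos (e a) (u a)) := by
  have hE : Poly (fun a => (e a).2.2.2.2.2.1) :=
    Poly.fst (Poly.snd (Poly.snd (Poly.snd (Poly.snd (Poly.snd he)))))
  exact Poly.decide_le (p3 hu) (Poly.mul (Poly.sub (p1 hu) (p2 hu)) hE)

theorem poly_ng (he : Poly e) (hu : Poly u) : Poly (fun a => ng (e a) (u a)) := by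
  have hE : Poly (fun a => (e a).2.2.2.2.2.1) :=
    Poly.fst (Poly.snd (Poly.snd (Poly.snd (Poly.snd (Poly.snd he)))))
  exact Poly.decide_le (p3 hu) (Poly.mul (Poly.sub (p2 hu) (p1 hu)) hE)

theorem poly_okk (he : Poly e) (hu : Poly u) : Poly (fun a => okk (e a) (u a)) := by
  have hD : Poly (fun a => (e a).2.2.1) := Poly.fst (Poly.snd (Poly.snd he))
  exact Poly.and (Poly.or (poly_zer he hu) (Poly.or (poly_pos he hu) (poly_ng he hu)))
    (Poly.and (Poly.decide_le (p4 hu) hD) (Poly.decide_le (p6 hu) (p5 hu)))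

theorem poly_vatom (he : Poly e) (hc : Poly c) (hu : Poly u) :
    Poly (fun a => vatom (e a) (c a) (u a)) := by
  have h1 := poly_zer he hu
  have h2 := poly_ng he hu
  have h3 : Poly (fun a => if c a = 6 then zer (e a) (u a) else if c a = 7 then ng (e a) (u a)
      else (zer (e a) (u a) || ng (e a) (u a))) :=
    Poly.ite (Poly.decide_eq hc (Poly.const 6)) h1
      (Poly.ite (Poly.decide_eq hc (Poly.const 7)) h2 (Poly.or h1 h2))
  exact Poly.pair (Poly.ite (Poly.decide_bool h3) (Poly.const 1) (Poly.const 0))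
    (Poly.pair (Poly.ite (Poly.decide_bool (poly_okk he hu)) (Poly.const 1) (Poly.const 0))
      poly_tail)

theorem poly_vbin (he : Poly e) (hc : Poly c) (hu : Poly u) (hv : Poly v) :
    Poly (fun a => vbin (e a) (c a) (u a) (v a)) :=
  Poly.ite (Poly.decide_eq hc (Poly.const 3)) (poly_vadd hu hv)
    (Poly.ite (Poly.decide_eq hc (Poly.const 5)) (poly_vmul hu hv)
    (Poly.ite (Poly.decide_eq hc (Poly.const 10)) (poly_vand hu hv)
    (Poly.ite (Poly.decide_eq hc (Poly.const 11)) (poly_vor hu hv)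
      (poly_vatom he hc (poly_vadd hu (poly_vneg hv))))))

theorem poly_vstep {st : α → List V} {t : α → Tok} (he : Poly e) (hst : Poly st) (ht : Poly t) :
    Poly (fun a => vstep (e a) (st a) (t a)) := by
  have hc : Poly (fun a => (t a).code) := Poly.of_toT (ht.toT'.congr fun _ => rfl)
  have hc1 : Poly (fun a => (t a).code.1) := Poly.fst hc
  have c0 : ∀ n : ℕ, Poly (fun a => decide ((t a).code.1 = n)) := fun n =>
    Poly.decide_eq hc1 (Poly.const _)
  have c1 : ∀ n : ℕ, Poly (fun q : α × V × List V => decide ((t q.1).code.1 = n)) := fun n =>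
    (c0 n).comp (Poly.fst Poly.id)
  refine Poly.ite (c0 0) (Poly.cons (poly_vvar he (Poly.snd hc)) hst) ?_
  refine Poly.ite (c0 1) (Poly.cons (poly_vcst he 0) hst) ?_
  refine Poly.ite (c0 2) (Poly.cons (poly_vcst he 1) hst) ?_
  have h3 : Poly (fun q : (α × V × List V) × V × List V =>
      vbin (e q.1.1) (t q.1.1).code.1 q.2.1 q.1.2.1 :: q.2.2) := by
    have e1 : Poly (fun q : (α × V × List V) × V × List V => q.1.1) :=
      Poly.fst (Poly.fst Poly.id)
    exact Poly.cons (poly_vbin (he.comp e1) (hc1.comp e1) (Poly.fst (Poly.snd Poly.id))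
      (Poly.fst (Poly.snd (Poly.fst Poly.id)))) (Poly.snd (Poly.snd Poly.id))
  have h2 : Poly (fun q : α × V × List V =>
      if (t q.1).code.1 = 4 then vneg q.2.1 :: q.2.2
      else if (t q.1).code.1 = 9 then vnot q.2.1 :: q.2.2
      else match q.2.2 with
        | [] => []
        | u :: l' => vbin (e q.1) (t q.1).code.1 u q.2.1 :: l') := by
    refine Poly.ite (c1 4) (Poly.cons (poly_vneg (Poly.fst (Poly.snd Poly.id)))
      (Poly.snd (Poly.snd Poly.id))) ?_
    refine Poly.ite (c1 9) (Poly.cons (poly_vnot (Poly.fst (Poly.snd Poly.id)))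
      (Poly.snd (Poly.snd Poly.id))) ?_
    refine (Poly.listCases (l := fun q : α × V × List V => q.2.2) (g := fun _ => ([] : List V))
      (h := fun q u l' => vbin (e q.1) (t q.1).code.1 u q.2.1 :: l') (Poly.snd (Poly.snd Poly.id))
      (Poly.const _) h3).congr fun q => ?_
    rcases q with ⟨a, v, l⟩
    cases l <;> rfl
  refine (Poly.listCases (l := st) (g := fun _ => ([] : List V))
    (h := fun a v l =>
      if (t a).code.1 = 4 then vneg v :: l
      else if (t a).code.1 = 9 then vnot v :: l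
      else match l with
        | [] => []
        | u :: l' => vbin (e a) (t a).code.1 u v :: l') hst (Poly.const _) h2).congr fun a => ?_
  cases st a <;> rfl

end

/-! ### Sizes -/

/-- measure of a stack entry -/
def mu (v : V) : ℕ := (v.1 + v.2.1 + v.2.2.1).size + v.2.2.2.1 + v.2.2.2.2.1.size + v.2.2.2.2.2.size

theorem size_mul_le' (x y : ℕ) : (x * y).size ≤ x.size + y.size := by
  rw [Nat.size_le, pow_add]
  have h1 := Nat.lt_size_self x
  have h2 := Nat.lt_size_self y
  have h3 : x + 1 ≤ 2 ^ x.size := h1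
  have h4 : y + 1 ≤ 2 ^ y.size := h2
  have := Nat.mul_le_mul h3 h4
  nlinarith

theorem size_add_one_le (x y : ℕ) : (x + y + 1).size ≤ x.size + y.size + 1 := by
  rw [Nat.size_le, pow_succ, pow_add]
  have h1 := Nat.lt_size_self x
  have h2 := Nat.lt_size_self y
  have h3 : 1 ≤ 2 ^ x.size := Nat.one_le_two_pow
  have h4 : 1 ≤ 2 ^ y.size := Nat.one_le_two_pow
  generalize 2 ^ x.size = X at *
  generalize 2 ^ y.size = Y at *
  have h5 : (X - 1) * (Y - 1) + X + Y = X * Y + 1 := by
    obtain ⟨X', rfl⟩ := Nat.exists_eq_add_of_le h3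
    obtain ⟨Y', rfl⟩ := Nat.exists_eq_add_of_le h4
    simp only [Nat.add_sub_cancel_left]
    ring
  have h6 : 1 ≤ X * Y := Nat.mul_pos h3 h4
  nlinarith

theorem size_mono {x y : ℕ} (h : x ≤ y) : x.size ≤ y.size := Nat.size_le_size h

theorem mu_vadd (u v : V) : mu (vadd u v) ≤ mu u + mu v := by
  obtain ⟨a, b, w, d, l, h⟩ := u
  obtain ⟨a', b', w', d', l', h'⟩ := v
  simp only [mu, vadd]
  have h1 : (a * w' + a' * w + (b * w' + b' * w) + w * w').size ≤
      (a + b + w).size + (a' + b' + w').size := by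
    refine (size_mono ?_).trans (size_mul_le' _ _)
    have e : (a + b + w) * (a' + b' + w') = a * w' + a' * w + (b * w' + b' * w) + w * w' +
      (a * a' + a * b' + b * a' + b * b') := by ring
    omega
  have h2 : (min l l').size ≤ l.size := size_mono (min_le_left _ _)
  have h3 : (max h h').size ≤ h.size + h'.size := by
    rcases max_choice h h' with e | e <;> rw [e] <;> omega
  omega

theorem mu_vmul (u v : V) : mu (vmul u v) ≤ mu u + mu v := by
  obtain ⟨a, b, w, d, l, h⟩ := u
  obtain ⟨a', b', w', d', l', h'⟩ := v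
  simp only [mu, vmul]
  have h1 : (a * a' + b * b' + (a * b' + b * a') + w * w').size ≤
      (a + b + w).size + (a' + b' + w').size := by
    refine (size_mono ?_).trans (size_mul_le' _ _)
    have e : (a + b + w) * (a' + b' + w') = a * a' + b * b' + (a * b' + b * a') + w * w' +
      (a * w' + b * w' + w * a' + w * b') := by ring
    omega
  have h2 : (min l l').size ≤ l.size := size_mono (min_le_left _ _)
  have h3 : (max h h').size ≤ h.size + h'.size := by
    rcases max_choice h h' with e | e <;> rw [e] <;> omega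
  omega

theorem mu_vneg (u : V) : mu (vneg u) = mu u := by
  simp only [mu, vneg]
  rw [Nat.add_comm u.2.1 u.1]

theorem mu_bool {x y z : ℕ} (h : x + y ≤ z) : mu (x, y, 1, 0, 0, 0) ≤ z.size + 1 := by
  have h1 := (size_mono (show x + y + 1 ≤ z + 0 + 1 by omega)).trans (size_add_one_le z 0)
  simp only [Nat.size_zero] at h1
  simp only [mu, Nat.size_zero]
  omega

theorem size_le_mu1 (u : V) : (u.1 + u.2.1).size ≤ mu u := by
  have : (u.1 + u.2.1).size ≤ (u.1 + u.2.1 + u.2.2.1).size := size_mono (by omega)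
  unfold mu
  omega

theorem mu_vnot (u : V) : mu (vnot u) ≤ mu u + 2 := by
  have h1 : mu (vnot u) ≤ ((u.1 + u.2.1) + 0 + 1).size + 1 := mu_bool (by
    show 1 - u.1 + u.2.1 ≤ _
    omega)
  have h2 := size_add_one_le (u.1 + u.2.1) 0
  have h3 := size_le_mu1 u
  simp only [Nat.size_zero] at h2
  omega

theorem mu_vand (u v : V) : mu (vand u v) ≤ mu u + mu v + 2 := by
  have h1 : mu (vand u v) ≤ (u.1 + u.2.1).size + 1 := mu_bool (by
    show min u.1 v.1 + min u.2.1 v.2.1 ≤ _
    omega)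
  have h3 := size_le_mu1 u
  omega

theorem mu_vor (u v : V) : mu (vor u v) ≤ mu u + mu v + 2 := by
  have h1 : mu (vor u v) ≤ ((u.1 + u.2.1) + (v.1 + v.2.1) + 1).size + 1 := mu_bool (by
    show max u.1 v.1 + min u.2.1 v.2.1 ≤ _
    omega)
  have h2 := size_add_one_le (u.1 + u.2.1) (v.1 + v.2.1)
  have h3 := size_le_mu1 u
  have h4 := size_le_mu1 v
  omega

theorem mu_vatom (e : Env) (c : ℕ) (u : V) : mu (vatom e c u) ≤ 3 := by
  have h1 : mu (vatom e c u) ≤ Nat.size 2 + 1 := mu_bool (by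
    have h2 := ite_le_one (p := (if c = 6 then zer e u else if c = 7 then ng e u
      else (zer e u || ng e u)) = true)
    have h3 := ite_le_one (p := okk e u = true)
    omega)
  have h2 : Nat.size 2 ≤ 2 := Nat.size_le.2 (by norm_num)
  omega

theorem mu_vbin (e : Env) (c : ℕ) (u v : V) : mu (vbin e c u v) ≤ mu u + mu v + 3 := by
  unfold vbin
  split_ifs
  · have := mu_vadd u v
    omega
  · have := mu_vmul u v
    omega
  · have := mu_vand u v
    omega
  · have := mu_vor u v
    omega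
  · have := mu_vatom e c (vadd u (vneg v))
    omega

/-- measure of a stack -/
def Mu (st : List V) : ℕ := (st.map mu).sum

theorem sz_lk (C : List (ℕ × ℕ × ℕ)) (i : ℕ) : sz (lk C i) ≤ sz C + 3 := by
  have key : ∀ o : Option (ℕ × ℕ × ℕ), (∀ q, o = some q → q ∈ C) →
      sz (o.getD (0, 0, 0)).2 ≤ sz C + 3 := by
    intro o ho
    cases o with
    | none =>
      have : sz (((0 : ℕ), (0 : ℕ))) = 3 := rfl
      show sz (((0 : ℕ), (0 : ℕ))) ≤ _
      omega
    | some q =>
      show sz q.2 ≤ _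
      have h2 := sz_le_of_mem (ho q rfl)
      have h3 : sz q = sz q.1 + sz q.2 + 1 := sz_pair _ _
      omega
  exact key _ fun q hq => List.mem_of_mem_filter (List.mem_of_mem_head? hq)

theorem mu_vvar (e : Env) (i : ℕ) : mu (vvar e i) ≤ 4 * sz e + 2 * i.size + 10 := by
  have hC : sz (lk e.2.2.2.2.2.2 i) ≤ sz e.2.2.2.2.2.2 + 3 := sz_lk _ _
  have he : sz e = sz e.1 + (sz e.2.1 + (sz e.2.2.1 + (sz e.2.2.2.1 + (sz e.2.2.2.2.1 +
      (sz e.2.2.2.2.2.1 + sz e.2.2.2.2.2.2 + 1) + 1) + 1) + 1) + 1) + 1 := by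
    obtain ⟨a1, a2, a3, a4, a5, a6, a7⟩ := e
    simp only [sz_pair]
  have hlk : sz (lk e.2.2.2.2.2.2 i) = sz (lk e.2.2.2.2.2.2 i).1 + sz (lk e.2.2.2.2.2.2 i).2 + 1 :=
    sz_pair _ _
  have s1 := size_le_sz (lk e.2.2.2.2.2.2 i).1
  have s2 := size_le_sz (lk e.2.2.2.2.2.2 i).2
  have s3 := size_le_sz e.2.2.2.1
  have s4 := size_le_sz e.2.1
  unfold vvar
  split_ifs with h1 h2
  · simp only [mu]
    have t1 := size_add_one_le (lk e.2.2.2.2.2.2 i).1 (lk e.2.2.2.2.2.2 i).2
    have t2 := size_add_one_le ((lk e.2.2.2.2.2.2 i).1 + (lk e.2.2.2.2.2.2 i).2) e.2.2.2.1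
    have t3 : ((lk e.2.2.2.2.2.2 i).1 + (lk e.2.2.2.2.2.2 i).2).size ≤
      ((lk e.2.2.2.2.2.2 i).1 + (lk e.2.2.2.2.2.2 i).2 + 1).size := size_mono (by omega)
    have t4 : ((lk e.2.2.2.2.2.2 i).1 + (lk e.2.2.2.2.2.2 i).2 + e.2.2.2.1).size ≤
      ((lk e.2.2.2.2.2.2 i).1 + (lk e.2.2.2.2.2.2 i).2 + e.2.2.2.1 + 1).size := size_mono (by omega)
    have t5 : (i / e.1).size ≤ i.size := size_mono (Nat.div_le_self _ _)
    omega
  · simp only [mu]
    have t1 : Nat.size (0 + 0 + 1) ≤ 1 := Nat.size_le.2 (by norm_num)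
    have t2 : Nat.size 0 = 0 := Nat.size_zero
    omega
  · simp only [mu]
    have t1 : Nat.size (1 + 0 + 1) ≤ 2 := Nat.size_le.2 (by norm_num)
    have t2 : Nat.size 0 = 0 := Nat.size_zero
    omega

theorem mu_vcst (e : Env) {n : ℕ} (hn : n ≤ 1) : mu (vcst e n) ≤ sz e + 2 := by
  have he : sz e = sz e.1 + (sz e.2.1 + (sz e.2.2.1 + (sz e.2.2.2.1 + (sz e.2.2.2.2.1 +
      (sz e.2.2.2.2.2.1 + sz e.2.2.2.2.2.2 + 1) + 1) + 1) + 1) + 1) + 1 := by
    obtain ⟨a1, a2, a3, a4, a5, a6, a7⟩ := e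
    simp only [sz_pair]
  have s4 := size_le_sz e.2.1
  simp only [mu, vcst]
  have t1 : Nat.size (n + 0 + 1) ≤ 2 := Nat.size_le.2 (by omega)
  have t2 : Nat.size 0 = 0 := Nat.size_zero
  omega

theorem Mu_step (e : Env) (st : List V) (t : Tok) :
    Mu (vstep e st t) ≤ Mu st + (4 * sz e + 2 * t.code.2.size + 10) ∧
      (vstep e st t).length ≤ st.length + 1 := by
  have b1 := mu_vvar e t.code.2
  have b2 := mu_vcst e (n := 0) (by norm_num)
  have b3 := mu_vcst e (n := 1) le_rfl
  rcases st with _ | ⟨v, _ | ⟨u, l⟩⟩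
  · unfold vstep
    dsimp only
    split_ifs <;> simp only [Mu, List.map_cons, List.map_nil, List.sum_cons, List.sum_nil,
      List.length_cons, List.length_nil] <;> constructor <;> omega
  · have b4 := mu_vneg v
    have b5 := mu_vnot v
    unfold vstep
    dsimp only
    split_ifs <;> simp only [Mu, List.map_cons, List.map_nil, List.sum_cons, List.sum_nil,
      List.length_cons, List.length_nil] <;> constructor <;> omega
  · have b4 := mu_vneg v
    have b5 := mu_vnot v
    have b6 := mu_vbin e t.code.1 u v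
    unfold vstep
    dsimp only
    split_ifs <;> simp only [Mu, List.map_cons, List.map_nil, List.sum_cons, List.sum_nil,
      List.length_cons, List.length_nil] <;> constructor <;> omega

theorem Mu_foldl (e : Env) (B : ℕ) : ∀ (w : List Tok), (∀ t ∈ w, t.code.2.size ≤ B) →
    ∀ st, Mu (w.foldl (vstep e) st) ≤ Mu st + w.length * (4 * sz e + 2 * B + 10) ∧
      (w.foldl (vstep e) st).length ≤ st.length + w.length
  | [], _, st => by simp
  | t :: w, h, st => by
    have h1 := Mu_foldl e B w (fun t ht => h t (List.mem_cons_of_mem _ ht)) (vstep e st t)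
    have h2 := Mu_step e st t
    have h3 := h t (by simp)
    rw [List.foldl_cons, List.length_cons, Nat.add_mul, Nat.one_mul]
    exact ⟨by omega, by omega⟩

theorem sz_V_le (v : V) : sz v ≤ 24 * mu v + 11 := by
  obtain ⟨a, b, w, d, l, h⟩ := v
  simp only [sz_pair, mu]
  have h1 := sz_nat_le a
  have h2 := sz_nat_le b
  have h3 := sz_nat_le w
  have h4 := sz_nat_le d
  have h5 := sz_nat_le l
  have h6 := sz_nat_le h
  have h7 : a.size ≤ (a + b + w).size := size_mono (by omega)
  have h8 : b.size ≤ (a + b + w).size := size_mono (by omega)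
  have h9 : w.size ≤ (a + b + w).size := size_mono (by omega)
  have h10 : d.size ≤ d := Nat.size_le.2 Nat.lt_two_pow_self
  omega

theorem sz_stack_le (st : List V) : sz st ≤ 24 * Mu st + 12 * st.length + 1 := by
  induction st with
  | nil => simp [Mu]
  | cons v l ih =>
    have := sz_V_le v
    simp only [sz_list_cons, Mu, List.map_cons, List.sum_cons, List.length_cons] at *
    omega

theorem poly_machine {α : Type} [TEnc α] {e : α → Env} {w : α → List Tok} (he : Poly e)
    (hw : Poly w) : Poly (fun a => (w a).foldl (vstep (e a)) []) := by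
  obtain ⟨r, hr⟩ := he.sz_le
  obtain ⟨r', hr'⟩ := hw.sz_le
  refine Poly.foldl (F := fun a => vstep (e a)) hw (Poly.const _)
    (poly_vstep (he.comp (Poly.fst Poly.id)) (Poly.fst (Poly.snd Poly.id))
      (Poly.snd (Poly.snd Poly.id)))
    (24 * (r' * (4 * r + 2 * r' + 10)) + 12 * r' + 1) ?_
  intro a k hk
  have h1 : ∀ t ∈ (w a).take k, t.code.2.size ≤ sz (w a) := by
    intro t ht
    have h2 := sz_le_of_mem (List.mem_of_mem_take ht)
    have h3 : sz t = sz t.code := rfl
    have h4 : sz t.code = sz t.code.1 + sz t.code.2 + 1 := sz_pair _ _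
    have h5 := size_le_sz t.code.2
    omega
  obtain ⟨h2, h3⟩ := Mu_foldl (e a) (sz (w a)) ((w a).take k) h1 []
  have h4 := sz_stack_le (((w a).take k).foldl (vstep (e a)) [])
  have h5 : ((w a).take k).length ≤ sz (w a) := by
    rw [List.length_take]
    exact (min_le_right _ _).trans (length_lt_sz _).le
  have h6 := hr a
  have h7 := hr' a
  have h8 : Mu [] = 0 := rfl
  have h9 : ([] : List V).length = 0 := rfl
  simp only [Polynomial.eval_add, Polynomial.eval_mul, Polynomial.eval_ofNat,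
    Polynomial.eval_one]
  have h10 : ((w a).take k).length * (4 * sz (e a) + 2 * sz (w a) + 10) ≤
      r'.eval (sz a) * (4 * r.eval (sz a) + 2 * r'.eval (sz a) + 10) :=
    Nat.mul_le_mul (h5.trans h7) (by omega)
  omega

/-! ### Powers -/

section

variable {α : Type} [TEnc α]

theorem poly_two_pow {n : α → ℕ} (hn : UPoly n) : Poly (fun a => 2 ^ n a) := by
  have h1 : Poly (fun a => (List.replicate (n a) ()).map fun _ => false) :=
    Poly.map (F := fun _ _ => false) hn (Poly.const _)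
  refine (Poly.valBits (Poly.append h1 (Poly.const [true]))).congr fun a => ?_
  rw [List.map_replicate, valB_replicate_false]
  simp

theorem iter_mul (m : ℕ) : ∀ n s : ℕ, (fun s => s * m)^[n] s = s * m ^ n
  | 0, s => by simp
  | n + 1, s => by
    rw [Function.iterate_succ_apply, iter_mul m n, pow_succ]
    ring

theorem size_pow_le (m : ℕ) : ∀ n : ℕ, (m ^ n).size ≤ n * m.size + 1
  | 0 => by simp
  | n + 1 => by
    have h1 := size_pow_le m n
    have h2 := size_mul_le' (m ^ n) m
    rw [pow_succ, Nat.add_mul, Nat.one_mul]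
    omega

theorem poly_pow {m n : α → ℕ} (hm : Poly m) (hn : UPoly n) : Poly (fun a => m a ^ n a) := by
  obtain ⟨r, hr⟩ := hm.sz_le
  obtain ⟨r', hr'⟩ := hn.sz_le
  refine (Poly.iterLen (l := fun a => List.replicate (n a) ()) (s := fun _ => 1)
    (F := fun a s => s * m a) hn (Poly.const _)
    (Poly.mul (Poly.snd Poly.id) (hm.comp (Poly.fst Poly.id)))
    (4 * (r' * r + 1) + 1) ?_).congr fun a => ?_
  · intro a k hk
    rw [iter_mul, Nat.one_mul]
    have h1 := sz_nat_le (m a ^ k)
    have h2 := size_pow_le (m a) k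
    have h3 := hr a
    have h4 := hr' a
    have h5 := length_lt_sz (List.replicate (n a) ())
    have h6 := size_le_sz (m a)
    have h7 : k * (m a).size ≤ r'.eval (sz a) * r.eval (sz a) :=
      Nat.mul_le_mul (by omega) (by omega)
    simp only [Polynomial.eval_add, Polynomial.eval_mul, Polynomial.eval_ofNat,
      Polynomial.eval_one]
    omega
  · rw [iter_mul, Nat.one_mul, List.length_replicate]

end

end Pool.Agent.NPC.ER.J6H79
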