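import Pool.Agent.J6H79.FR.MachP

/-!
# Membership in `NP`
-/

set_option autoImplicit false

namespace Pool.Agent.NPC.ER.J6H79

open Pool.Agent.J6H79.FR

/-! ### Sizes of atomic formulas -/

theorem tvars_toks : ∀ {t : Tm} {i : ℕ}, i ∈ tvars t → Tok.var i ∈ t.toks
  | .var j, i, h => by
    simp only [tvars, List.mem_singleton] at h
    simp [Tm.toks, h]
  | .zero, i, h => by simp [tvars] at h
  | .one, i, h => by simp [tvars] at h
  | .add s t, i, h => by
    simp only [tvars, List.mem_append] at h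
    rcases h with h | h
    · simp [Tm.toks, tvars_toks h]
    · simp [Tm.toks, tvars_toks h]
  | .neg t, i, h => by
    have h' : i ∈ tvars t := h
    simp [Tm.toks, tvars_toks h']
  | .mul s t, i, h => by
    simp only [tvars, List.mem_append] at h
    rcases h with h | h
    · simp [Tm.toks, tvars_toks h]
    · simp [Tm.toks, tvars_toks h]

theorem diff_toks {s t : Tm} {i : ℕ} (h : i ∈ tvars (.add s (.neg t))) :
    Tok.var i ∈ s.toks ++ t.toks := by
  simp only [tvars, List.mem_append] at h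
  rcases h with h | h
  · simp [tvars_toks h]
  · simp [tvars_toks h]

theorem atoms_toks : ∀ {φ : Fm} {t : Tm}, t ∈ atoms φ → (∀ i ∈ tvars t, Tok.var i ∈ φ.toks) ∧
    tsz t ≤ φ.toks.length + 1
  | .eq a b, t, h => by
    simp only [atoms, List.mem_singleton] at h
    subst h
    refine ⟨fun i hi => ?_, ?_⟩
    · simp only [Fm.toks]
      exact List.mem_append_left _ (diff_toks hi)
    · simp only [Fm.toks, List.length_append, tsz_eq, List.length_cons, List.length_nil, tsz]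
      omega
  | .lt a b, t, h => by
    simp only [atoms, List.mem_singleton] at h
    subst h
    refine ⟨fun i hi => ?_, ?_⟩
    · simp only [Fm.toks]
      exact List.mem_append_left _ (diff_toks hi)
    · simp only [Fm.toks, List.length_append, tsz_eq, List.length_cons, List.length_nil, tsz]
      omega
  | .le a b, t, h => by
    simp only [atoms, List.mem_singleton] at h
    subst h
    refine ⟨fun i hi => ?_, ?_⟩
    · simp only [Fm.toks]
      exact List.mem_append_left _ (diff_toks hi)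
    · simp only [Fm.toks, List.length_append, tsz_eq, List.length_cons, List.length_nil, tsz]
      omega
  | .not φ, t, h => by
    obtain ⟨h1, h2⟩ := atoms_toks (φ := φ) h
    refine ⟨fun i hi => ?_, ?_⟩
    · simp [Fm.toks, h1 i hi]
    · simp only [Fm.toks, List.length_append, List.length_cons, List.length_nil]
      omega
  | .and φ ψ, t, h => by
    simp only [atoms, List.mem_append] at h
    rcases h with h | h
    · obtain ⟨h1, h2⟩ := atoms_toks (φ := φ) h
      refine ⟨fun i hi => ?_, ?_⟩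
      · simp [Fm.toks, h1 i hi]
      · simp only [Fm.toks, List.length_append, List.length_cons, List.length_nil]
        omega
    · obtain ⟨h1, h2⟩ := atoms_toks (φ := ψ) h
      refine ⟨fun i hi => ?_, ?_⟩
      · simp [Fm.toks, h1 i hi]
      · simp only [Fm.toks, List.length_append, List.length_cons, List.length_nil]
        omega
  | .or φ ψ, t, h => by
    simp only [atoms, List.mem_append] at h
    rcases h with h | h
    · obtain ⟨h1, h2⟩ := atoms_toks (φ := φ) h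
      refine ⟨fun i hi => ?_, ?_⟩
      · simp [Fm.toks, h1 i hi]
      · simp only [Fm.toks, List.length_append, List.length_cons, List.length_nil]
        omega
    · obtain ⟨h1, h2⟩ := atoms_toks (φ := ψ) h
      refine ⟨fun i hi => ?_, ?_⟩
      · simp [Fm.toks, h1 i hi]
      · simp only [Fm.toks, List.length_append, List.length_cons, List.length_nil]
        omega

theorem atoms_length (φ : Fm) : (atoms φ).length ≤ φ.toks.length := by
  induction φ with
  | eq s t => simp only [atoms, Fm.toks, List.length_append, List.length_cons, List.length_nil]; omega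
  | lt s t => simp only [atoms, Fm.toks, List.length_append, List.length_cons, List.length_nil]; omega
  | le s t => simp only [atoms, Fm.toks, List.length_append, List.length_cons, List.length_nil]; omega
  | not φ h => simp only [atoms, Fm.toks, List.length_append, List.length_cons, List.length_nil]; omega
  | and φ ψ h h' =>
    simp only [atoms, Fm.toks, List.length_append, List.length_cons, List.length_nil]; omega
  | or φ ψ h h' =>
    simp only [atoms, Fm.toks, List.length_append, List.length_cons, List.length_nil]; omega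

theorem AH_congr {A : ℕ} {x y : ℕ → ℝ} : ∀ {φ : Fm}, (∀ t ∈ atoms φ, t.eval x = t.eval y) →
    (AH A x φ ↔ AH A y φ)
  | .eq s t, h => by
    simp only [AH]
    rw [h (.add s (.neg t)) (by simp [atoms])]
  | .lt s t, h => by
    simp only [AH]
    rw [h (.add s (.neg t)) (by simp [atoms])]
  | .le s t, h => by
    simp only [AH]
    rw [h (.add s (.neg t)) (by simp [atoms])]
  | .not φ, h => not_congr (AH_congr (φ := φ) h)
  | .and φ ψ, h => and_congr
      (AH_congr (φ := φ) fun t ht => h t (by simp [atoms, ht]))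
      (AH_congr (φ := ψ) fun t ht => h t (by simp [atoms, ht]))
  | .or φ ψ, h => or_congr
      (AH_congr (φ := φ) fun t ht => h t (by simp [atoms, ht]))
      (AH_congr (φ := ψ) fun t ht => h t (by simp [atoms, ht]))

/-! ### Certificates -/

theorem lk_map (f : ℕ → ℕ × ℕ) (i : ℕ) : ∀ w : List Tok, (∃ t ∈ w, t.code.2 = i) →
    lk (w.map fun t => (t.code.2, f t.code.2)) i = f i
  | [], h => by
    obtain ⟨t, ht, _⟩ := h
    simp at ht
  | t :: w, h => by
    unfold lk
    by_cases hi : t.code.2 = i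
    · subst hi
      simp
    · rw [List.map_cons, List.filter_cons_of_neg (by simpa using hi)]
      refine lk_map f i w ?_
      obtain ⟨u, hu, hu'⟩ := h
      rcases List.mem_cons.1 hu with h1 | h1
      · subst h1
        exact absurd hu' hi
      · exact ⟨u, h1, hu'⟩

theorem lk_bd {C : List (ℕ × ℕ × ℕ)} {B : ℕ} (h : ∀ e ∈ C, e.2.1 ≤ B ∧ e.2.2 ≤ B) (i : ℕ) :
    (lk C i).1 ≤ B ∧ (lk C i).2 ≤ B := by
  have key : ∀ o : Option (ℕ × ℕ × ℕ), (∀ q, o = some q → q ∈ C) →
      (o.getD (0, 0, 0)).2.1 ≤ B ∧ (o.getD (0, 0, 0)).2.2 ≤ B := by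
    intro o ho
    cases o with
    | none => exact ⟨Nat.zero_le _, Nat.zero_le _⟩
    | some q => exact h q (ho q rfl)
  exact key _ fun q hq => List.mem_of_mem_filter (List.mem_of_mem_head? hq)

/-- the polynomial `x ^ c + 6 x + 10` -/
noncomputable def pA (c : ℕ) : Polynomial ℕ := Polynomial.X ^ c + 6 * Polynomial.X + 10

theorem pA_eval (c n : ℕ) : (pA c).eval n = n ^ c + 6 * n + 10 := by
  simp [pA]

/-- The problem: `k` real variables in each of `g` groups, atomic formulas of degree at most `D` in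
the real variables, each containing real variables of one group only; all other variables take the
values 0 and 1. -/
def FewReal (c : ℕ) (I : ℕ × ℕ × ℕ × Fm) : Prop :=
  (2 * I.2.2.1 + 5) ^ (I.1 + 1) ≤ I.2.2.2.toks.length ^ c ∧
  (∀ t ∈ atoms I.2.2.2, rdeg (I.1 * I.2.1) t ≤ I.2.2.1 ∧ OneGroup I.1 (I.1 * I.2.1) t) ∧
  ∃ x : ℕ → ℝ, (∀ i, I.1 * I.2.1 ≤ i → x i = 0 ∨ x i = 1) ∧ I.2.2.2.Holds x

/-- the top of the stack after the evaluation -/
noncomputable def out (c : ℕ) (p : (ℕ × ℕ × ℕ × Fm) × List (ℕ × ℕ × ℕ)) : V :=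
  (p.1.2.2.2.toks.foldl (vstep (mkEnv p.1.1 p.1.2.1 p.1.2.2.1
    ((pA c).eval p.1.2.2.2.toks.length ^ 8 + (pA c).eval p.1.2.2.2.toks.length ^ 6)
    ((pA c).eval p.1.2.2.2.toks.length) p.2)) []).head?.getD (0, 0, 0, 0, 0, 0)

/-- the verifier -/
noncomputable def ver (c : ℕ) (p : (ℕ × ℕ × ℕ × Fm) × List (ℕ × ℕ × ℕ)) : Bool :=
  (decide (p.1.1 ≤ p.1.2.2.2.toks.length ^ c) &&
    decide ((2 * p.1.2.2.1 + 5) ^ (min p.1.1 (p.1.2.2.2.toks.length ^ c) + 1) ≤
      p.1.2.2.2.toks.length ^ c)) &&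
  ((p.2.all fun e => decide (e.2.1 ≤ Bnd ((pA c).eval p.1.2.2.2.toks.length)) &&
    decide (e.2.2 ≤ Bnd ((pA c).eval p.1.2.2.2.toks.length))) &&
  (decide ((out c p).1 = 1) && decide ((out c p).2.1 = 1)))

section

variable {c k g D : ℕ} {φ : Fm} {C : List (ℕ × ℕ × ℕ)}

theorem out_eq : out c ((k, g, D, φ), C) = fv (mkEnv k g D
    ((pA c).eval φ.toks.length ^ 8 + (pA c).eval φ.toks.length ^ 6)
    ((pA c).eval φ.toks.length) C) φ := by
  unfold out
  rw [foldl_fm]
  rfl

theorem ver_iff : ver c ((k, g, D, φ), C) = true ↔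
    (2 * D + 5) ^ (k + 1) ≤ φ.toks.length ^ c ∧
    (∀ e ∈ C, e.2.1 ≤ Bnd ((pA c).eval φ.toks.length) ∧ e.2.2 ≤ Bnd ((pA c).eval φ.toks.length)) ∧
    AH ((pA c).eval φ.toks.length) (cpt (k * g)
      ((pA c).eval φ.toks.length ^ 8 + (pA c).eval φ.toks.length ^ 6) C) φ ∧
    AllOk k g D ((pA c).eval φ.toks.length ^ 8 + (pA c).eval φ.toks.length ^ 6)
      ((pA c).eval φ.toks.length) C φ := by
  have h := fok (k := k) (g := g) (D := D)
    (P := (pA c).eval φ.toks.length ^ 8 + (pA c).eval φ.toks.length ^ 6)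
    (A := (pA c).eval φ.toks.length) (C := C) φ
  unfold ver
  rw [out_eq]
  simp only [Bool.and_eq_true, decide_eq_true_eq, List.all_eq_true, h.h1, h.h2]
  constructor
  · rintro ⟨⟨h1, h2⟩, h3, h4, h5⟩
    rw [min_eq_left h1] at h2
    exact ⟨h2, h3, h4, h5⟩
  · rintro ⟨h2, h3, h4, h5⟩
    have h1 : k ≤ φ.toks.length ^ c := by
      have h6 : k + 1 < (2 * D + 5) ^ (k + 1) := Nat.lt_pow_self (by omega)
      omega
    refine ⟨⟨h1, ?_⟩, h3, h4, h5⟩
    rw [min_eq_left h1]
    exact h2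

theorem hA_aux (h : (2 * D + 5) ^ (k + 1) ≤ φ.toks.length ^ c) :
    (2 * D + 5) ^ (k + 1) + 3 * (φ.toks.length + 1 + 1) + 3 * (atoms φ).length + 4 ≤
      (pA c).eval φ.toks.length := by
  rw [pA_eval]
  have := atoms_length φ
  omega

theorem Bnd_pos (A : ℕ) : 1 ≤ Bnd A := Nat.mul_pos (Nat.succ_pos _) (by positivity)

theorem size_Bnd (A : ℕ) : (Bnd A).size ≤ A ^ 4 + 2 + (A ^ 8 + A ^ 6) := by
  rw [Nat.size_le]
  unfold Bnd
  rw [pow_add 2 (A ^ 4 + 2) (A ^ 8 + A ^ 6)]
  apply Nat.mul_lt_mul_of_pos_right _ (by positivity)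
  have h1 : 2 ^ (A ^ 4 + 2) = 2 ^ A ^ 4 * 4 := by rw [pow_add]; norm_num
  have h3 : 1 ≤ 2 ^ A ^ 4 := Nat.one_le_two_pow
  omega

/-- the size of the certificates -/
noncomputable def pC (c : ℕ) : Polynomial ℕ :=
  Polynomial.X * (Polynomial.X + 8 * (pA c ^ 4 + 2 + (pA c ^ 8 + pA c ^ 6)) + 5) + 1

theorem fewReal_of_ver {c : ℕ} {I : ℕ × ℕ × ℕ × Fm} {C : List (ℕ × ℕ × ℕ)}
    (h : ver c (I, C) = true) : FewReal c I := by
  obtain ⟨k, g, D, φ⟩ := I
  obtain ⟨h1, h2, h3, h4⟩ := ver_iff.1 h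
  have h5 : ∀ t ∈ atoms φ, rdeg (k * g) t ≤ D ∧ tsz t ≤ φ.toks.length + 1 ∧
      OneGroup k (k * g) t := fun t ht => ⟨(h4 t ht).2.1, (atoms_toks ht).2, (h4 t ht).2.2⟩
  refine ⟨h1, fun t ht => (h4 t ht).2, ?_⟩
  exact (main_iff h5 (hA_aux h1)).2 ⟨_, _, _, lk_bd h2, fun t ht => (h4 t ht).1, h3⟩

theorem fewReal_iff {c : ℕ} (I : ℕ × ℕ × ℕ × Fm) : FewReal c I ↔
    ∃ C : List (ℕ × ℕ × ℕ), sz C ≤ (pC c).eval (sz I) ∧ ver c (I, C) = true := by
  constructor
  swap
  · rintro ⟨C, _, h⟩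
    exact fewReal_of_ver h
  obtain ⟨k, g, D, φ⟩ := I
  · rintro ⟨h1, h2, h3⟩
    change (2 * D + 5) ^ (k + 1) ≤ φ.toks.length ^ c at h1
    change ∀ t ∈ atoms φ, rdeg (k * g) t ≤ D ∧ OneGroup k (k * g) t at h2
    change ∃ x : ℕ → ℝ, (∀ i, k * g ≤ i → x i = 0 ∨ x i = 1) ∧ φ.Holds x at h3
    rw [main_iff (fun t ht => ⟨(h2 t ht).1, (atoms_toks ht).2, (h2 t ht).2⟩) (hA_aux h1)] at h3
    set A := (pA c).eval φ.toks.length with hA
    obtain ⟨b, a, a', hB, h4, h5⟩ := h3
    set f : ℕ → ℕ × ℕ := fun i => if i < k * g then (a i, a' i) else (if b i then 1 else 0, 0)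
      with hf
    have hfB : ∀ i, (f i).1 ≤ Bnd A ∧ (f i).2 ≤ Bnd A := by
      intro i
      have h6 := Bnd_pos A
      simp only [hf]
      split_ifs
      · exact hB i
      · exact ⟨h6, Nat.zero_le _⟩
      · exact ⟨Nat.zero_le _, Nat.zero_le _⟩
    set C := φ.toks.map (fun t => (t.code.2, f t.code.2)) with hC
    have hev : ∀ t ∈ atoms φ, t.eval (cpt (k * g) (A ^ 8 + A ^ 6) C) =
        t.eval (pt (k * g) b (dy (A ^ 8 + A ^ 6) a a')) := by
      intro t ht
      apply eval_congr'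
      intro i hi
      have h6 : lk C i = f i := lk_map f i φ.toks ⟨Tok.var i, (atoms_toks ht).1 i hi, rfl⟩
      unfold cpt pt cb dy
      simp only [h6, hf]
      by_cases hK : i < k * g
      · simp only [if_pos hK]
      · simp only [if_neg hK]
        by_cases hb : b i = true
        · simp [hb]
        · simp [hb]
    refine ⟨C, ?_, ver_iff.2 ⟨h1, ?_, ?_, ?_⟩⟩
    · have e1 : ∀ e ∈ C, sz e ≤ sz φ.toks + 8 * (A ^ 4 + 2 + (A ^ 8 + A ^ 6)) + 4 := by
        intro e he
        obtain ⟨t, ht, rfl⟩ := List.mem_map.1 he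
        have h6 := sz_le_of_mem ht
        have h7 : sz t = sz t.code.1 + sz t.code.2 + 1 := sz_pair _ _
        have h8 := hfB t.code.2
        have h9 := size_Bnd A
        have h10 := sz_nat_le (f t.code.2).1
        have h11 := sz_nat_le (f t.code.2).2
        have h12 := size_mono h8.1
        have h13 := size_mono h8.2
        have h14 : sz (t.code.2, f t.code.2) = sz t.code.2 + (sz (f t.code.2).1 +
          sz (f t.code.2).2 + 1) + 1 := by
          have h15 : sz (f t.code.2) = sz (f t.code.2).1 + sz (f t.code.2).2 + 1 := sz_pair _ _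
          rw [sz_pair, h15]
        rw [h14]
        omega
      have e2 := sz_le_length_mul C _ e1
      have e3 : C.length = φ.toks.length := List.length_map _
      have e4 : φ.toks.length ≤ sz φ.toks := (length_lt_sz _).le
      have e5 : sz (k, g, D, φ) = sz k + (sz g + (sz D + sz φ.toks + 1) + 1) + 1 := by
        simp only [sz_pair]
        rfl
      have e6 : A ≤ (pA c).eval (sz (k, g, D, φ)) := eval_mono _ (by omega)
      have e7 : A ^ 4 + 2 + (A ^ 8 + A ^ 6) ≤ (pA c).eval (sz (k, g, D, φ)) ^ 4 + 2 +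
          ((pA c).eval (sz (k, g, D, φ)) ^ 8 + (pA c).eval (sz (k, g, D, φ)) ^ 6) :=
        Nat.add_le_add (Nat.add_le_add_right (Nat.pow_le_pow_left e6 4) 2)
          (Nat.add_le_add (Nat.pow_le_pow_left e6 8) (Nat.pow_le_pow_left e6 6))
      have e8 : (pC c).eval (sz (k, g, D, φ)) = sz (k, g, D, φ) * (sz (k, g, D, φ) +
          8 * ((pA c).eval (sz (k, g, D, φ)) ^ 4 + 2 +
          ((pA c).eval (sz (k, g, D, φ)) ^ 8 + (pA c).eval (sz (k, g, D, φ)) ^ 6)) + 5) + 1 := by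
        simp [pC]
      rw [e8]
      refine e2.trans (Nat.add_le_add_right (Nat.mul_le_mul (by omega) (by omega)) 1)
    · intro e he
      obtain ⟨t, _, rfl⟩ := List.mem_map.1 he
      exact hfB _
    · rw [AH_congr hev]
      exact h5
    · intro t ht
      rw [hev t ht]
      exact ⟨h4 t ht, (h2 t ht).1, (h2 t ht).2⟩

end

/-! ### Polynomial time -/

theorem poly_ver (c : ℕ) : Poly (ver c) := by
  have hφ : Poly (fun p : (ℕ × ℕ × ℕ × Fm) × List (ℕ × ℕ × ℕ) => p.1.2.2.2) :=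
    Poly.snd (Poly.snd (Poly.snd (Poly.fst Poly.id)))
  have hk : Poly (fun p : (ℕ × ℕ × ℕ × Fm) × List (ℕ × ℕ × ℕ) => p.1.1) :=
    Poly.fst (Poly.fst Poly.id)
  have hg : Poly (fun p : (ℕ × ℕ × ℕ × Fm) × List (ℕ × ℕ × ℕ) => p.1.2.1) :=
    Poly.fst (Poly.snd (Poly.fst Poly.id))
  have hD : Poly (fun p : (ℕ × ℕ × ℕ × Fm) × List (ℕ × ℕ × ℕ) => p.1.2.2.1) :=
    Poly.fst (Poly.snd (Poly.snd (Poly.fst Poly.id)))
  have hC : Poly (fun p : (ℕ × ℕ × ℕ × Fm) × List (ℕ × ℕ × ℕ) => p.2) := Poly.snd Poly.id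
  have hw : Poly (fun p : (ℕ × ℕ × ℕ × Fm) × List (ℕ × ℕ × ℕ) => p.1.2.2.2.toks) := poly_toks hφ
  have hL : UPoly (fun p : (ℕ × ℕ × ℕ × Fm) × List (ℕ × ℕ × ℕ) => p.1.2.2.2.toks.length) :=
    UPoly.length hw
  have hA : UPoly (fun p : (ℕ × ℕ × ℕ × Fm) × List (ℕ × ℕ × ℕ) =>
      (pA c).eval p.1.2.2.2.toks.length) := hL.eval _
  have hLc : UPoly (fun p : (ℕ × ℕ × ℕ × Fm) × List (ℕ × ℕ × ℕ) =>
      p.1.2.2.2.toks.length ^ c) := by
    have := hL.eval (Polynomial.X ^ c)
    simpa using this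
  have hpw : ∀ n : ℕ, UPoly (fun p : (ℕ × ℕ × ℕ × Fm) × List (ℕ × ℕ × ℕ) =>
      (pA c).eval p.1.2.2.2.toks.length ^ n) := by
    intro n
    have := hA.eval (Polynomial.X ^ n)
    simpa using this
  have hP : UPoly (fun p : (ℕ × ℕ × ℕ × Fm) × List (ℕ × ℕ × ℕ) =>
      (pA c).eval p.1.2.2.2.toks.length ^ 8 + (pA c).eval p.1.2.2.2.toks.length ^ 6) :=
    (hpw 8).add (hpw 6)
  have hE2 : UPoly (fun p : (ℕ × ℕ × ℕ × Fm) × List (ℕ × ℕ × ℕ) =>
      2 * (pA c).eval p.1.2.2.2.toks.length ^ 4 + 1) :=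
    ((UPoly.const 2).mul (hpw 4)).add (UPoly.const 1)
  have henv : Poly (fun p : (ℕ × ℕ × ℕ × Fm) × List (ℕ × ℕ × ℕ) =>
      mkEnv p.1.1 p.1.2.1 p.1.2.2.1
        ((pA c).eval p.1.2.2.2.toks.length ^ 8 + (pA c).eval p.1.2.2.2.toks.length ^ 6)
        ((pA c).eval p.1.2.2.2.toks.length) p.2) :=
    Poly.pair hk (Poly.pair (Poly.mul hk hg) (Poly.pair hD (Poly.pair (poly_two_pow hP)
      (Poly.pair (poly_two_pow (hpw 8)) (Poly.pair (poly_two_pow hE2) hC)))))
  have hout : Poly (fun p => out c p) := Poly.head?_getD (poly_machine henv hw) _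
  have hB : Poly (fun p : (ℕ × ℕ × ℕ × Fm) × List (ℕ × ℕ × ℕ) =>
      Bnd ((pA c).eval p.1.2.2.2.toks.length)) :=
    Poly.mul (Poly.add (poly_two_pow (hpw 4)) (Poly.const 1)) (poly_two_pow hP)
  have hmin : UPoly (fun p : (ℕ × ℕ × ℕ × Fm) × List (ℕ × ℕ × ℕ) =>
      min p.1.1 (p.1.2.2.2.toks.length ^ c) + 1) :=
    (UPoly.of_le (Poly.min hk hLc.toPoly) hLc fun p => min_le_right _ _).add (UPoly.const 1)
  have hpow : Poly (fun p : (ℕ × ℕ × ℕ × Fm) × List (ℕ × ℕ × ℕ) =>
      (2 * p.1.2.2.1 + 5) ^ (min p.1.1 (p.1.2.2.2.toks.length ^ c) + 1)) :=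
    poly_pow (Poly.add (Poly.mul (Poly.const 2) hD) (Poly.const 5)) hmin
  refine Poly.and (Poly.and (Poly.decide_le hk hLc.toPoly) (Poly.decide_le hpow hLc.toPoly))
    (Poly.and (Poly.all (p := fun p e => decide (e.2.1 ≤ Bnd ((pA c).eval p.1.2.2.2.toks.length)) &&
      decide (e.2.2 ≤ Bnd ((pA c).eval p.1.2.2.2.toks.length))) hC ?_)
    (Poly.and (Poly.decide_eq (p1 hout) (Poly.const 1)) (Poly.decide_eq (p2 hout) (Poly.const 1))))
  exact Poly.and (Poly.decide_le (Poly.fst (Poly.snd (Poly.snd Poly.id)))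
      (hB.comp (Poly.fst Poly.id)))
    (Poly.decide_le (Poly.snd (Poly.snd (Poly.snd Poly.id))) (hB.comp (Poly.fst Poly.id)))

/-- **Membership in `NP`.** -/
theorem inNPP_fewReal (c : ℕ) : InNPP (FewReal c) :=
  inNPP_of (poly_ver c) (pC c) fewReal_iff

end Pool.Agent.NPC.ER.J6H79
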