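import Pool.Agent.J6H79.FR.Glob

/-!
# Few nonlinear real variables: membership in `NP`
-/

set_option autoImplicit false

namespace Pool.Agent.NPC.ER.J6H79

open Pool.Agent.J6H79.FR

/-- substitution on the level of tokens -/
def tsub (S : ℕ → List Tok) (u : Tok) : List Tok := if u.code.1 = 0 then S u.code.2 else [u]

theorem toks_sub (S : ℕ → Tm) (t : Tm) :
    (sub S t).toks = t.toks.flatMap (tsub fun i => (S i).toks) := by
  induction t with
  | var i => simp [sub, Tm.toks, tsub, Tok.code]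
  | zero => simp [sub, Tm.toks, tsub, Tok.code]
  | one => simp [sub, Tm.toks, tsub, Tok.code]
  | add s t hs ht => simp [sub, Tm.toks, hs, ht]; simp [tsub, Tok.code]
  | neg t ht => simp [sub, Tm.toks, ht]; simp [tsub, Tok.code]
  | mul s t hs ht => simp [sub, Tm.toks, hs, ht]; simp [tsub, Tok.code]

theorem toks_subF (S : ℕ → Tm) (φ : Fm) :
    (subF S φ).toks = φ.toks.flatMap (tsub fun i => (S i).toks) := by
  induction φ with
  | eq s t => simp [subF, Fm.toks, toks_sub]; simp [tsub, Tok.code]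
  | lt s t => simp [subF, Fm.toks, toks_sub]; simp [tsub, Tok.code]
  | le s t => simp [subF, Fm.toks, toks_sub]; simp [tsub, Tok.code]
  | not φ h => simp [subF, Fm.toks, h]; simp [tsub, Tok.code]
  | and φ ψ h h' => simp [subF, Fm.toks, h, h']; simp [tsub, Tok.code]
  | or φ ψ h h' => simp [subF, Fm.toks, h, h']; simp [tsub, Tok.code]

/-- the entry of the certificate for the variable `j` -/
def lkw (w : List (ℕ × List Tok)) (j : ℕ) : List Tok :=
  ((w.filter fun e => decide (e.1 = j)).head?.getD (0, [Tok.zero])).2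

/-- the entries are terms -/
def validw (w : List (ℕ × List Tok)) : Bool :=
  w.all fun e => decide (e.2.foldl kstep (some []) = some [false])

theorem exists_tm {l : List Tok} (h : l.foldl kstep (some []) = some [false]) :
    ∃ t : Tm, t.toks = l := by
  obtain ⟨h1, h2⟩ := Pool.Agent.NPC.ER.foldl_kstep l [] _ h
  revert h1 h2
  generalize l.foldl Pool.Agent.NPC.ER.pstep [] = st
  intro h1 h2
  match st with
  | [] => simp at h1
  | [Sum.inl t] => exact ⟨t, by simpa [stoks, etoks] using h2⟩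
  | [Sum.inr φ] => simp [kind] at h1
  | _ :: _ :: _ => simp at h1

theorem exists_tau {w : List (ℕ × List Tok)} (h : validw w = true) :
    ∃ τ : ℕ → Tm, ∀ j, (τ j).toks = lkw w j := by
  have h1 : ∀ j, ∃ t : Tm, t.toks = lkw w j := by
    intro j
    have key : ∀ o : Option (ℕ × List Tok), (∀ q, o = some q → q ∈ w) →
        ∃ t : Tm, t.toks = (o.getD (0, [Tok.zero])).2 := by
      intro o ho
      cases o with
      | none => exact ⟨.zero, rfl⟩
      | some q =>
        have h2 := List.all_eq_true.1 h q (ho q rfl)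
        exact exists_tm (of_decide_eq_true h2)
    exact key _ fun q hq => List.mem_of_mem_filter (List.mem_of_mem_head? hq)
  choose τ hτ using h1
  exact ⟨τ, hτ⟩

/-- the substitution given by a certificate, on tokens -/
def sw (k g : ℕ) (w : List (ℕ × List Tok)) (i : ℕ) : List Tok :=
  if isLin (k * (g + 1)) i then lkw w i else [Tok.var (nv k g i)]

theorem toks_SS {k g : ℕ} {w : List (ℕ × List Tok)} {τ : ℕ → Tm} (h : ∀ j, (τ j).toks = lkw w j)
    (φ : Fm) : (subF (SS k g τ) φ).toks = φ.toks.flatMap (tsub (sw k g w)) := by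
  rw [toks_subF]
  congr 2
  funext i
  unfold SS sw
  split_ifs
  · exact h i
  · rfl

/-- the transformed instance -/
def tinst (p : (ℕ × ℕ × ℕ × Fm) × List (ℕ × List Tok)) : Option Fm :=
  ofToks (p.1.2.2.2.toks.flatMap (tsub (sw p.1.1 p.1.2.1 p.2)))

theorem tinst_eq {k g D : ℕ} {φ : Fm} {w : List (ℕ × List Tok)} {τ : ℕ → Tm}
    (h : ∀ j, (τ j).toks = lkw w j) : tinst ((k, g, D, φ), w) = some (subF (SS k g τ) φ) := by
  unfold tinst
  rw [← toks_SS h, ofToks_toks]

/-- the verifier -/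
noncomputable def ver2 (c : ℕ)
    (p : (ℕ × ℕ × ℕ × Fm) × List (ℕ × List Tok) × List (ℕ × ℕ × ℕ)) : Bool :=
  validw p.2.1 && (match tinst (p.1, p.2.1) with
    | none => false
    | some ψ => ver c ((p.1.1 + 2, p.1.2.1 + 1, p.1.2.2.1 + 2, ψ), p.2.2))

section

variable {α : Type} [TEnc α]

theorem poly_lkw {w : α → List (ℕ × List Tok)} {i : α → ℕ} (hw : Poly w) (hi : Poly i) :
    Poly (fun a => lkw (w a) (i a)) := by
  have h1 : Poly (fun a => ((w a).filter fun e => decide (e.1 = i a)).head?) :=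
    Poly.head? (Poly.filter (p := fun a e => decide (e.1 = i a)) hw
      (Poly.decide_eq (Poly.fst (Poly.snd Poly.id)) (hi.comp (Poly.fst Poly.id))))
  have h2 := Poly.optCases (g := fun _ => ((0, [Tok.zero]) : ℕ × List Tok)) (h := fun _ q => q) h1
    (Poly.const _) (Poly.snd Poly.id)
  refine (Poly.snd h2).congr fun a => ?_
  unfold lkw
  generalize ((w a).filter fun e => decide (e.1 = i a)).head? = o
  cases o <;> rfl

theorem poly_validw {w : α → List (ℕ × List Tok)} (hw : Poly w) :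
    Poly (fun a => validw (w a)) := by
  have h1 : Poly (fun q : α × (ℕ × List Tok) => q.2.2.foldl kstep (some [])) :=
    poly_foldl_kstep.comp (Poly.snd (Poly.snd Poly.id))
  have h2 : Poly (fun q : α × (ℕ × List Tok) =>
      decide (q.2.2.foldl kstep (some []) = some [false])) := Poly.decide_eq h1 (Poly.const _)
  exact Poly.all (p := fun _ e => decide (e.2.foldl kstep (some []) = some [false])) hw h2

theorem poly_nv {k g i : α → ℕ} (hk : Poly k) (hg : Poly g) (hi : Poly i) :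
    Poly (fun a => nv (k a) (g a) (i a)) := by
  have hg1 := Poly.add hg (Poly.const 1)
  exact Poly.ite (Poly.decide_lt hi (Poly.mul hk hg1))
    (Poly.add (Poly.mul (Poly.add hk (Poly.const 2)) (Poly.div hi hk)) (Poly.mod hi hk))
    (Poly.add hi (Poly.mul (Poly.const 2) hg1))

theorem poly_isLin {K i : α → ℕ} (hK : Poly K) (hi : Poly i) :
    Poly (fun a => decide (isLin (K a) (i a))) :=
  (Poly.decide_and (Poly.decide_le hK hi) (Poly.decide_eq (Poly.mod hi (Poly.const 2))
    (Poly.const 1))).congr fun a => by congr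

theorem poly_sw {k g i : α → ℕ} {w : α → List (ℕ × List Tok)} (hk : Poly k) (hg : Poly g)
    (hw : Poly w) (hi : Poly i) : Poly (fun a => sw (k a) (g a) (w a) (i a)) :=
  Poly.ite (poly_isLin (Poly.mul hk (Poly.add hg (Poly.const 1))) hi) (poly_lkw hw hi)
    (Poly.cons (poly_tok_var' (poly_nv hk hg hi)) (Poly.const []))

theorem poly_tsub {k g : α → ℕ} {w : α → List (ℕ × List Tok)} {u : α → Tok} (hk : Poly k)
    (hg : Poly g) (hw : Poly w) (hu : Poly u) :
    Poly (fun a => tsub (sw (k a) (g a) (w a)) (u a)) := by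
  have hc : Poly (fun a => (u a).code) := poly_tok_code hu
  exact Poly.ite (Poly.decide_eq (Poly.fst hc) (Poly.const 0)) (poly_sw hk hg hw (Poly.snd hc))
    (Poly.cons hu (Poly.const []))

theorem poly_flat {k g : α → ℕ} {w : α → List (ℕ × List Tok)} {l : α → List Tok} (hk : Poly k)
    (hg : Poly g) (hw : Poly w) (hl : Poly l) :
    Poly (fun a => (l a).flatMap (tsub (sw (k a) (g a) (w a)))) :=
  Poly.flatMap (F := fun a u => tsub (sw (k a) (g a) (w a)) u) hl
    (poly_tsub (hk.comp (Poly.fst Poly.id)) (hg.comp (Poly.fst Poly.id))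
      (hw.comp (Poly.fst Poly.id)) (Poly.snd Poly.id))

end

theorem poly_tinst : Poly tinst := by
  have hk : Poly (fun p : (ℕ × ℕ × ℕ × Fm) × List (ℕ × List Tok) => p.1.1) :=
    Poly.fst (Poly.fst Poly.id)
  have hg : Poly (fun p : (ℕ × ℕ × ℕ × Fm) × List (ℕ × List Tok) => p.1.2.1) :=
    Poly.fst (Poly.snd (Poly.fst Poly.id))
  have hw : Poly (fun p : (ℕ × ℕ × ℕ × Fm) × List (ℕ × List Tok) => p.2) := Poly.snd Poly.id
  have hl : Poly (fun p : (ℕ × ℕ × ℕ × Fm) × List (ℕ × List Tok) => p.1.2.2.2.toks) :=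
    poly_toks (Poly.snd (Poly.snd (Poly.snd (Poly.fst Poly.id))))
  exact poly_ofToks.comp (poly_flat hk hg hw hl)

theorem poly_ver2 (c : ℕ) : Poly (ver2 c) := by
  have h1 : Poly (fun p : (ℕ × ℕ × ℕ × Fm) × List (ℕ × List Tok) × List (ℕ × ℕ × ℕ) =>
      validw p.2.1) := poly_validw (Poly.fst (Poly.snd Poly.id))
  have h2 : Poly (fun p : (ℕ × ℕ × ℕ × Fm) × List (ℕ × List Tok) × List (ℕ × ℕ × ℕ) =>
      tinst (p.1, p.2.1)) :=
    poly_tinst.comp (Poly.pair (Poly.fst Poly.id) (Poly.fst (Poly.snd Poly.id)))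
  have h3 : Poly (fun q : ((ℕ × ℕ × ℕ × Fm) × List (ℕ × List Tok) × List (ℕ × ℕ × ℕ)) × Fm =>
      ver c ((q.1.1.1 + 2, q.1.1.2.1 + 1, q.1.1.2.2.1 + 2, q.2), q.1.2.2)) := by
    have e1 := Poly.fst (Poly.fst (Poly.fst (Poly.id (α :=
      ((ℕ × ℕ × ℕ × Fm) × List (ℕ × List Tok) × List (ℕ × ℕ × ℕ)) × Fm))))
    have e2 := Poly.fst (Poly.snd (Poly.fst (Poly.fst (Poly.id (α :=
      ((ℕ × ℕ × ℕ × Fm) × List (ℕ × List Tok) × List (ℕ × ℕ × ℕ)) × Fm)))))
    have e3 := Poly.fst (Poly.snd (Poly.snd (Poly.fst (Poly.fst (Poly.id (α :=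
      ((ℕ × ℕ × ℕ × Fm) × List (ℕ × List Tok) × List (ℕ × ℕ × ℕ)) × Fm))))))
    have e4 := Poly.snd (Poly.snd (Poly.fst (Poly.id (α :=
      ((ℕ × ℕ × ℕ × Fm) × List (ℕ × List Tok) × List (ℕ × ℕ × ℕ)) × Fm))))
    exact (poly_ver c).comp (Poly.pair (Poly.pair (Poly.add e1 (Poly.const 2))
      (Poly.pair (Poly.add e2 (Poly.const 1)) (Poly.pair (Poly.add e3 (Poly.const 2))
        (Poly.snd Poly.id)))) e4)
  exact Poly.and h1 ((Poly.optCases (g := fun _ => false)
    (h := fun p ψ => ver c ((p.1.1 + 2, p.1.2.1 + 1, p.1.2.2.1 + 2, ψ), p.2.2)) h2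
    (Poly.const _) h3).congr fun p => by cases tinst (p.1, p.2.1) <;> rfl)

/-- The syntactic conditions: at most `k` nonlinear real variables in each of the `g + 1` groups,
degrees at most `D`, linear real variables occur only linearly, and no atomic formula contains
real variables of two groups. -/
def Few (c k g D : ℕ) (φ : Fm) : Prop :=
  (2 * D + 5) ^ (k + 1) ≤ φ.toks.length ^ c ∧
  ∀ t ∈ atoms φ, rdeg (k * (g + 1)) t ≤ D ∧ LinOK (k * (g + 1)) t ∧ OneGrp k g t

/-- The formula is true for some values of the variables, where the variables with even index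
`≥ k (g + 1)` take the values 0 and 1 only. -/
def MSat (k g : ℕ) (φ : Fm) : Prop :=
  ∃ x : ℕ → ℝ, (∀ i, k * (g + 1) ≤ i → i % 2 = 0 → x i = 0 ∨ x i = 1) ∧ φ.Holds x

theorem sat_of_sub {k g : ℕ} {τ : ℕ → Tm} {φ : Fm} {x' : ℕ → ℝ}
    (hx : ∀ i, (k + 2) * (g + 1) ≤ i → x' i = 0 ∨ x' i = 1)
    (h : (subF (SS k g τ) φ).Holds x') : MSat k g φ := by
  rw [holds_subF] at h
  refine ⟨_, fun i hi h2 => ?_, h⟩
  have h1 : ¬ isLin (k * (g + 1)) i := by
    unfold isLin
    omega
  have h3 : (SS k g τ i).eval x' = x' (nv k g i) := by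
    unfold SS
    rw [if_neg h1]
    rfl
  rw [h3, nv_bit (by omega)]
  apply hx
  have : (k + 2) * (g + 1) = k * (g + 1) + 2 * (g + 1) := by ring
  omega

theorem sat_of_ver2 {c k g D : ℕ} {φ : Fm} {w : List (ℕ × List Tok)} {C : List (ℕ × ℕ × ℕ)}
    (h : ver2 c ((k, g, D, φ), w, C) = true) : MSat k g φ := by
  unfold ver2 at h
  rw [Bool.and_eq_true] at h
  obtain ⟨h1, h2⟩ := h
  obtain ⟨τ, hτ⟩ := exists_tau h1
  rw [tinst_eq hτ] at h2
  obtain ⟨_, _, x', hx', h3⟩ := fewReal_of_ver h2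
  exact sat_of_sub hx' h3

end Pool.Agent.NPC.ER.J6H79
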