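import Pool.Agent.J6H79.FR.Mem2

/-!
# Few nonlinear real variables: completeness of the certificates
-/

set_option autoImplicit false

namespace Pool.Agent.NPC.ER.J6H79

open Pool.Agent.J6H79.FR

/-- accepted with a certificate of size `≤ p` -/
def Acc (c : ℕ) (p : Polynomial ℕ) (I : ℕ × ℕ × ℕ × Fm) : Prop :=
  ∃ w : List (ℕ × List Tok) × List (ℕ × ℕ × ℕ), sz w ≤ p.eval (sz I) ∧ ver2 c (I, w) = true

theorem inNPP_acc (c : ℕ) (p : Polynomial ℕ) : InNPP (Acc c p) :=
  inNPP_of (poly_ver2 c) p fun _ => Iff.rfl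

theorem sz_code_le {n : ℕ} (h : n ≤ 11) : sz n ≤ 17 := by
  have h1 := sz_nat_le n
  have h2 : n.size ≤ 4 := Nat.size_le.2 (by omega)
  omega

theorem sz_tok_le {u : Tok} {M : ℕ} (h : u.code.2 ≤ M) : sz u ≤ 4 * M.size + 25 := by
  have h1 : sz u = sz u.code.1 + sz u.code.2 + 1 := sz_pair _ _
  have h2 := sz_nat_le u.code.2
  have h3 := size_mono h
  have h4 : sz u.code.1 ≤ 17 := by
    apply sz_code_le
    cases u <;> simp [Tok.code]
  omega

theorem sz_toks_le {M : ℕ} : ∀ {t : Tm}, (∀ m ∈ tvars t, m ≤ M) → ∀ u ∈ t.toks, u.code.2 ≤ M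
  | .var i, h, u, hu => by
    simp only [Tm.toks, List.mem_singleton] at hu
    subst hu
    exact h i (by simp [tvars])
  | .zero, _, u, hu => by
    simp only [Tm.toks, List.mem_singleton] at hu
    subst hu
    exact Nat.zero_le _
  | .one, _, u, hu => by
    simp only [Tm.toks, List.mem_singleton] at hu
    subst hu
    exact Nat.zero_le _
  | .add s t, h, u, hu => by
    simp only [Tm.toks, List.mem_append, List.mem_singleton] at hu
    rcases hu with (hu | hu) | hu
    · exact sz_toks_le (t := s) (fun m hm => h m (by simp [tvars, hm])) u hu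
    · exact sz_toks_le (t := t) (fun m hm => h m (by simp [tvars, hm])) u hu
    · subst hu
      exact Nat.zero_le _
  | .neg t, h, u, hu => by
    simp only [Tm.toks, List.mem_append, List.mem_singleton] at hu
    rcases hu with hu | hu
    · exact sz_toks_le (t := t) (fun m hm => h m (by simpa [tvars] using hm)) u hu
    · subst hu
      exact Nat.zero_le _
  | .mul s t, h, u, hu => by
    simp only [Tm.toks, List.mem_append, List.mem_singleton] at hu
    rcases hu with (hu | hu) | hu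
    · exact sz_toks_le (t := s) (fun m hm => h m (by simp [tvars, hm])) u hu
    · exact sz_toks_le (t := t) (fun m hm => h m (by simp [tvars, hm])) u hu
    · subst hu
      exact Nat.zero_le _

theorem lkw_map (f : ℕ → List Tok) (i : ℕ) : ∀ l : List Tok, (∃ t ∈ l, t.code.2 = i) →
    lkw (l.map fun t => (t.code.2, f t.code.2)) i = f i
  | [], h => by
    obtain ⟨t, ht, _⟩ := h
    simp at ht
  | t :: l, h => by
    unfold lkw
    by_cases hi : t.code.2 = i
    · subst hi
      simp
    · rw [List.map_cons, List.filter_cons_of_neg (by simpa using hi)]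
      refine lkw_map f i l ?_
      obtain ⟨u, hu, hu'⟩ := h
      rcases List.mem_cons.1 hu with h1 | h1
      · subst h1
        exact absurd hu' hi
      · exact ⟨u, h1, hu'⟩

/-- bound for the length of the terms in the certificates -/
noncomputable def pT : Polynomial ℕ :=
  Polynomial.X * (6 * (Polynomial.X * Polynomial.X + (Polynomial.X + 1) * Polynomial.X + 1) +
    (Polynomial.X + 1) + 7 + 1) + 3

theorem pT_eval (n : ℕ) : pT.eval n = tb n (n + 1) := by
  simp [pT, tb]

/-- bound for the size of the substitution -/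
noncomputable def pW : Polynomial ℕ :=
  Polynomial.X * (Polynomial.X + (pT * (8 * Polynomial.X + 42) + 1) + 1 + 1) + 1

theorem pW_eval (n : ℕ) : pW.eval n = n * (n + (tb n (n + 1) * (8 * n + 42) + 1) + 1 + 1) + 1 := by
  simp [pW, pT_eval]

theorem length_flatMap_ge {f : Tok → List Tok} : ∀ {l : List Tok},
    (∀ u ∈ l, 1 ≤ (f u).length) → l.length ≤ (l.flatMap f).length
  | [], _ => Nat.zero_le _
  | u :: l, h => by
    have h1 := h u (by simp)
    have h2 := length_flatMap_ge (f := f) (l := l) fun u hu => h u (by simp [hu])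
    rw [List.flatMap_cons, List.length_append, List.length_cons]
    omega

theorem pow_bound {D k L L' c : ℕ} (h : (2 * D + 5) ^ (k + 1) ≤ L ^ c) (hL : L ≤ L') :
    (2 * (D + 2) + 5) ^ (k + 2 + 1) ≤ L' ^ (6 * c) := by
  calc (2 * (D + 2) + 5) ^ (k + 2 + 1) ≤ ((2 * D + 5) ^ 2) ^ (k + 2 + 1) :=
        Nat.pow_le_pow_left (by nlinarith) _
    _ ≤ ((2 * D + 5) ^ 2) ^ (3 * (k + 1)) :=
        Nat.pow_le_pow_right (by positivity) (by omega)
    _ = ((2 * D + 5) ^ (k + 1)) ^ 6 := by rw [← pow_mul, ← pow_mul]; congr 1; ring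
    _ ≤ (L ^ c) ^ 6 := Nat.pow_le_pow_left h 6
    _ = L ^ (6 * c) := by rw [← pow_mul]; congr 1; ring
    _ ≤ L' ^ (6 * c) := Nat.pow_le_pow_left hL _

theorem exists_cert {c k g D : ℕ} {φ : Fm} (h : Few c k g D φ) (hs : MSat k g φ) :
    ∃ (w : List (ℕ × List Tok)) (ψ : Fm), validw w = true ∧ tinst ((k, g, D, φ), w) = some ψ ∧
      sz w ≤ pW.eval (sz (k, g, D, φ)) ∧ FewReal (6 * c) (k + 2, g + 1, D + 2, ψ) := by
  obtain ⟨hc, hat⟩ := h
  obtain ⟨x, hx, hφ⟩ := hs
  set S := sz (k, g, D, φ) with hS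
  have hSe : S = sz k + (sz g + (sz D + sz φ.toks + 1) + 1) + 1 := by
    rw [hS]
    simp only [sz_pair]
    rfl
  have hL : φ.toks.length ≤ S := by
    have := (length_lt_sz φ.toks).le
    omega
  have htok : ∀ u ∈ φ.toks, sz u.code.2 ≤ S ∧ u.code.2 ≤ 2 ^ S := by
    intro u hu
    have h1 := sz_le_of_mem hu
    have h2 : sz u = sz u.code.1 + sz u.code.2 + 1 := sz_pair _ _
    have h3 := size_le_sz u.code.2
    have h4 : u.code.2 < 2 ^ S := Nat.size_le.1 (by omega)
    exact ⟨by omega, h4.le⟩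
  obtain ⟨τ, h1, h2, x', hx', h3⟩ := exists_sub (k := k) (g := g) (D := D)
    (T := φ.toks.length + 1) (M := 2 ^ S) (φ := φ) (fun t ht => by
      obtain ⟨e1, e2⟩ := atoms_toks ht
      exact ⟨(hat t ht).1, (hat t ht).2.1, (hat t ht).2.2, e2, fun i hi =>
        (htok _ (e1 i hi)).2⟩) hx hφ
  have hM : 2 ^ S + (k + 2) * (g + 1) + 2 * (g + 1) ≤ 2 ^ (2 * S + 3) := by
    have e1 := size_le_sz k
    have e2 := size_le_sz g
    have e3 : k < 2 ^ S := Nat.size_le.1 (by omega)
    have e4 : g < 2 ^ S := Nat.size_le.1 (by omega)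
    have e5 : 1 ≤ 2 ^ S := Nat.one_le_two_pow
    have e6 : 2 ^ (2 * S + 3) = 8 * (2 ^ S * 2 ^ S) := by
      rw [pow_add, two_mul, pow_add]; ring
    rw [e6]
    generalize 2 ^ S = Z at *
    have e7 : (k + 2) * (g + 1) ≤ (Z + 1) * Z := Nat.mul_le_mul (by omega) (by omega)
    nlinarith
  have hτsz : ∀ j, sz (τ j).toks ≤ tb S (S + 1) * (8 * S + 42) + 1 := by
    intro j
    obtain ⟨e1, e2⟩ := h1 j
    have e3 : ∀ u ∈ (τ j).toks, sz u ≤ 8 * S + 41 := by
      intro u hu
      have e4 := sz_toks_le e2 u hu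
      have e5 := sz_tok_le (e4.trans hM)
      have e6 : Nat.size (2 ^ (2 * S + 3)) ≤ 2 * S + 4 := by
        rw [Nat.size_le]
        exact Nat.pow_lt_pow_right (by norm_num) (Nat.lt_succ_self _)
      omega
    have e4 := sz_le_length_mul _ _ e3
    have e5 : (τ j).toks.length ≤ tb S (S + 1) := by
      rw [tsz_eq]
      refine e1.trans ?_
      refine (tb_mono ((atoms_length φ).trans hL) _).trans ?_
      unfold tb
      have e6 : (φ.toks.length + 1) * S ≤ (S + 1) * S := Nat.mul_le_mul_right _ (by omega)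
      exact Nat.add_le_add_right (Nat.mul_le_mul_left _ (by omega)) 3
    exact e4.trans (Nat.add_le_add_right (Nat.mul_le_mul e5 (by omega)) 1)
  set w : List (ℕ × List Tok) := φ.toks.map fun u => (u.code.2, (τ u.code.2).toks) with hw
  have hlk : ∀ u ∈ φ.toks, lkw w u.code.2 = (τ u.code.2).toks := fun u hu =>
    lkw_map (fun i => (τ i).toks) u.code.2 φ.toks ⟨u, hu, rfl⟩
  have hψ : (subF (SS k g τ) φ).toks = φ.toks.flatMap (tsub (sw k g w)) := by
    rw [toks_subF]
    apply List.flatMap_congr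
    intro u hu
    unfold tsub
    split_ifs
    · show (SS k g τ u.code.2).toks = sw k g w u.code.2
      unfold SS sw
      split_ifs
      · exact (hlk u hu).symm
      · rfl
    · rfl
  refine ⟨w, subF (SS k g τ) φ, ?_, ?_, ?_, ?_, h2, x', hx', h3⟩
  · unfold validw
    rw [List.all_eq_true]
    intro e he
    obtain ⟨u, _, rfl⟩ := List.mem_map.1 he
    exact decide_eq_true (Tm.foldl_kstep _ [])
  · unfold tinst
    rw [← hψ, ofToks_toks]
  · rw [pW_eval]
    have e1 : ∀ e ∈ w, sz e ≤ S + (tb S (S + 1) * (8 * S + 42) + 1) + 1 := by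
      intro e he
      obtain ⟨u, hu, rfl⟩ := List.mem_map.1 he
      have e2 := (htok u hu).1
      have e3 := hτsz u.code.2
      rw [sz_pair]
      omega
    have e2 := sz_le_length_mul w _ e1
    have e3 : w.length = φ.toks.length := List.length_map _
    rw [e3] at e2
    exact e2.trans (Nat.add_le_add_right (Nat.mul_le_mul_right _ hL) 1)
  · show (2 * (D + 2) + 5) ^ (k + 2 + 1) ≤ (subF (SS k g τ) φ).toks.length ^ (6 * c)
    refine pow_bound hc ?_
    rw [toks_subF]
    apply length_flatMap_ge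
    intro u _
    unfold tsub
    split_ifs
    · rw [tsz_eq]
      exact tsz_pos _
    · simp

/-- the map to the instance of the problem without linear variables, with the token list in place
of the formula -/
def tmap (p : (ℕ × ℕ × ℕ × Fm) × List (ℕ × List Tok)) : ℕ × ℕ × ℕ × List Tok :=
  (p.1.1 + 2, p.1.2.1 + 1, p.1.2.2.1 + 2, p.1.2.2.2.toks.flatMap (tsub (sw p.1.1 p.1.2.1 p.2)))

theorem poly_tmap : Poly tmap := by
  have hk : Poly (fun p : (ℕ × ℕ × ℕ × Fm) × List (ℕ × List Tok) => p.1.1) :=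
    Poly.fst (Poly.fst Poly.id)
  have hg : Poly (fun p : (ℕ × ℕ × ℕ × Fm) × List (ℕ × List Tok) => p.1.2.1) :=
    Poly.fst (Poly.snd (Poly.fst Poly.id))
  have hD : Poly (fun p : (ℕ × ℕ × ℕ × Fm) × List (ℕ × List Tok) => p.1.2.2.1) :=
    Poly.fst (Poly.snd (Poly.snd (Poly.fst Poly.id)))
  have hw : Poly (fun p : (ℕ × ℕ × ℕ × Fm) × List (ℕ × List Tok) => p.2) := Poly.snd Poly.id
  have hl : Poly (fun p : (ℕ × ℕ × ℕ × Fm) × List (ℕ × List Tok) => p.1.2.2.2.toks) :=
    poly_toks (Poly.snd (Poly.snd (Poly.snd (Poly.fst Poly.id))))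
  exact Poly.pair (Poly.add hk (Poly.const 2)) (Poly.pair (Poly.add hg (Poly.const 1))
    (Poly.pair (Poly.add hD (Poly.const 2)) (poly_flat hk hg hw hl)))

/-- **Membership in `NP`** of the problem with few nonlinear real variables, as a promise
problem. -/
theorem promise (c : ℕ) : ∃ A : Set (List Bool), InNP A ∧ ∀ (k g D : ℕ) (φ : Fm), Few c k g D φ →
    (bits (k, g, D, φ) ∈ A ↔ MSat k g φ) := by
  obtain ⟨r, hr⟩ := poly_tmap.sz_le
  refine ⟨_, inNPP_acc (6 * c) (pW + (pC (6 * c)).comp (r.comp (Polynomial.X + pW + 1)) + 1), ?_⟩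
  intro k g D φ hF
  rw [bits_mem_lang]
  constructor
  · rintro ⟨⟨w, C⟩, _, h⟩
    exact sat_of_ver2 h
  · intro hs
    obtain ⟨w, ψ, h1, h2, h3, h4⟩ := exists_cert hF hs
    obtain ⟨C, h5, h6⟩ := (fewReal_iff _).1 h4
    have h7 : sz (k + 2, g + 1, D + 2, ψ) = sz (tmap ((k, g, D, φ), w)) := by
      have h8 : ψ.toks = φ.toks.flatMap (tsub (sw k g w)) := by
        unfold tinst at h2
        exact toks_of_ofToks h2
      show sz (k + 2, g + 1, D + 2, ψ) =
        sz (k + 2, g + 1, D + 2, φ.toks.flatMap (tsub (sw k g w)))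
      rw [← h8]
      simp only [sz_pair]
      rfl
    refine ⟨(w, C), ?_, ?_⟩
    · rw [sz_pair]
      simp only [Polynomial.eval_add, Polynomial.eval_comp, Polynomial.eval_X,
        Polynomial.eval_one]
      have e1 := hr ((k, g, D, φ), w)
      rw [← h7] at e1
      have e2 : sz ((k, g, D, φ), w) ≤ sz (k, g, D, φ) + pW.eval (sz (k, g, D, φ)) + 1 := by
        rw [sz_pair ((k, g, D, φ) : ℕ × ℕ × ℕ × Fm) w]
        omega
      have e3 := e1.trans (eval_mono r e2)
      have e4 := h5.trans (eval_mono (pC (6 * c)) e3)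
      omega
    · show (validw w && _) = true
      rw [h1, Bool.true_and, h2]
      exact h6

end Pool.Agent.NPC.ER.J6H79
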