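import Pool.Agent.ER.Ball

/-!
# The ball theorem and the gap theorem for piecewise polynomial functions

`G` is a nonnegative continuous function which at every point has, together with its first
derivatives, the values of one of finitely many integer polynomials of degree at most `e`.
-/

set_option autoImplicit false

namespace Pool.Agent.J6H79.FR

open Polynomial Pool.Agent.H625R2 Filter Topology Pool.Agent.NPC.ER.Ball

variable {n : ℕ}

/-- `G` is given by the polynomials in `S`, with its first derivatives. -/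
structure PW (G : (Fin n → ℝ) → ℝ) (S : Set (MvPolynomial (Fin n) ℤ)) (e γ : ℕ) : Prop where
  fin : S.Finite
  cont : Continuous G
  nonneg : ∀ y, 0 ≤ G y
  deg : ∀ g ∈ S, g.totalDegree ≤ e
  nrm : ∀ g ∈ S, mnrm g ≤ γ
  piece : ∀ y, ∃ g ∈ S, G y = MvPolynomial.aeval y g ∧
    ∀ i, HasDerivAt (fun s => G (Function.update y i s))
      (MvPolynomial.aeval y (MvPolynomial.pderiv i g)) (y i)

/-- the equations at a minimum -/
theorem PW.crit {G : (Fin n → ℝ) → ℝ} {S : Set (MvPolynomial (Fin n) ℤ)} {e γ : ℕ}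
    (h : PW G S e γ) {d : ℝ} {y : Fin n → ℝ}
    (hmin : ∀ z, ∑ i, y i ^ (e + 1) + (e + 1) * d * G y ≤ ∑ i, z i ^ (e + 1) + (e + 1) * d * G z) :
    ∃ g ∈ S, G y = MvPolynomial.aeval y g ∧
      ∀ i, y i ^ e = -d * MvPolynomial.aeval y (MvPolynomial.pderiv i g) := by
  obtain ⟨g, hg, hGg, hder⟩ := h.piece y
  refine ⟨g, hg, hGg, fun i => ?_⟩
  set P : MvPolynomial (Fin n) ℤ := ∑ j, MvPolynomial.X j ^ (e + 1) with hP
  have haP : ∀ z : Fin n → ℝ, MvPolynomial.aeval z P = ∑ j, z j ^ (e + 1) := by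
    intro z
    rw [hP]
    simp only [map_sum, map_pow, MvPolynomial.aeval_X]
  have hdP : MvPolynomial.aeval y (MvPolynomial.pderiv i P) = (e + 1) * y i ^ e := by
    classical
    rw [hP, map_sum, map_sum, Finset.sum_eq_single i]
    · rw [Derivation.leibniz_pow, MvPolynomial.pderiv_X_self]
      simp
    · intro j _ hj
      rw [Derivation.leibniz_pow, MvPolynomial.pderiv_X_of_ne hj]
      simp
    · intro h; exact absurd (Finset.mem_univ _) h
  have h1 := (hasDerivAt_update P y i (y i)).add ((hder i).const_mul (((e : ℝ) + 1) * d))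
  have h2 : IsLocalMin ((fun s => MvPolynomial.aeval (Function.update y i s) P) +
      fun s => ((e : ℝ) + 1) * d * G (Function.update y i s)) (y i) := by
    apply Filter.Eventually.of_forall
    intro s
    simp only [Pi.add_apply, haP, Function.update_eq_self]
    exact hmin _
  have h3 := h2.hasDerivAt_eq_zero h1
  rw [Function.update_eq_self, hdP] at h3
  have h4 : ((e : ℝ) + 1) *
      (y i ^ e + d * MvPolynomial.aeval y (MvPolynomial.pderiv i g)) = 0 := by linarith
  have h5 : ((e : ℝ) + 1) ≠ 0 := by positivity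
  have h6 := (mul_eq_zero.1 h4).resolve_left h5
  linarith

theorem compact_box {e : ℕ} (heven : Even (e + 1)) {T : ℝ} (hT1 : 1 ≤ T) :
    IsCompact {x : Fin n → ℝ | ∑ i, x i ^ (e + 1) ≤ T} := by
  have hcontP : Continuous fun x : Fin n → ℝ => ∑ i, x i ^ (e + 1) := by fun_prop
  have hterm : ∀ (x : Fin n → ℝ) (i : Fin n), 0 ≤ x i ^ (e + 1) := fun x i => heven.pow_nonneg _
  apply IsCompact.of_isClosed_subset (isCompact_univ_pi (fun _ : Fin n =>
    (isCompact_Icc : IsCompact (Set.Icc (-(T : ℝ)) T))))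
  · exact isClosed_le hcontP continuous_const
  · intro x hx i _
    have h1 : x i ^ (e + 1) ≤ T := (Finset.single_le_sum (f := fun i => x i ^ (e + 1))
      (fun i _ => hterm x i) (Finset.mem_univ i)).trans hx
    have h2 : |x i| ≤ T := by
      by_contra hlt
      push Not at hlt
      have h3 : (T : ℝ) ^ (e + 1) < |x i| ^ (e + 1) :=
        pow_lt_pow_left₀ hlt (by positivity) (by omega)
      rw [heven.pow_abs] at h3
      have h4 : (T : ℝ) ≤ T ^ (e + 1) := le_self_pow₀ hT1 (by omega)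
      linarith
    exact abs_le.1 h2

theorem BB_mono {n e c c' : ℕ} (h : c ≤ c') : BB n e c ≤ BB n e c' := by
  unfold BB
  gcongr

theorem Hb_mono {n e T γ γ' : ℕ} (h : γ ≤ γ') : Hb n e T γ ≤ Hb n e T γ' := by
  unfold Hb
  gcongr

/-- **Ball theorem.** -/
theorem PW.ball {G : (Fin n → ℝ) → ℝ} {S : Set (MvPolynomial (Fin n) ℤ)} {e γ : ℕ}
    (h : PW G S e γ) (he : Odd e) (x₀ : Fin n → ℝ) (hx₀ : G x₀ = 0) :
    ∃ y : Fin n → ℝ, G y = 0 ∧ ∀ i, |y i| ≤ max 1 (BB n e γ : ℕ) := by
  classical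
  have he0 : 0 < e := he.pos
  have heven : Even (e + 1) := he.add_one
  have hcontP : Continuous fun x : Fin n → ℝ => ∑ i, x i ^ (e + 1) := by fun_prop
  have hterm : ∀ (x : Fin n → ℝ) (i : Fin n), 0 ≤ x i ^ (e + 1) := fun x i => heven.pow_nonneg _
  set T : ℝ := ∑ i, x₀ i ^ (e + 1) + 1 with hT
  have hT1 : 1 ≤ T := by
    have := Finset.sum_nonneg fun i (_ : i ∈ Finset.univ) => hterm x₀ i
    linarith
  set B : Set (Fin n → ℝ) := {x | ∑ i, x i ^ (e + 1) ≤ T} with hB
  have hBc : IsCompact B := compact_box heven hT1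
  have hxB : x₀ ∈ B := by
    simp only [hB, Set.mem_ofPred_eq, hT]
    linarith
  -- minimisers
  have hmin : ∀ m : ℕ, ∃ y ∈ B, ∀ z, ∑ i, y i ^ (e + 1) + (e + 1) * (m : ℝ) * G y ≤
      ∑ i, z i ^ (e + 1) + (e + 1) * (m : ℝ) * G z := by
    intro m
    obtain ⟨y, hy, hymin⟩ := hBc.exists_isMinOn (f := fun z => ∑ i, z i ^ (e + 1) +
      (e + 1) * (m : ℝ) * G z) ⟨x₀, hxB⟩
      (hcontP.add (continuous_const.mul h.cont)).continuousOn
    refine ⟨y, hy, fun z => ?_⟩
    by_cases hz : z ∈ B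
    · exact hymin hz
    · have h1 := hymin hxB
      simp only [hB, Set.mem_ofPred_eq, not_le] at hz
      have h2 : 0 ≤ (e + 1) * (m : ℝ) * G z := mul_nonneg (by positivity) (h.nonneg z)
      simp only [Set.mem_ofPred_eq, hx₀, mul_zero, add_zero] at h1
      linarith
  choose y hyB hymin using hmin
  have hcrit : ∀ m : ℕ, ∃ g ∈ S, G (y m) = MvPolynomial.aeval (y m) g ∧
      ∀ i, y m i ^ e = -(m : ℝ) * MvPolynomial.aeval (y m) (MvPolynomial.pderiv i g) :=
    fun m => h.crit (hymin m)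
  choose p hpS _ hpc using hcrit
  -- a polynomial that occurs infinitely often
  have hinf : ∃ g ∈ S, {m : ℕ | p m = g}.Infinite := by
    by_contra hno
    push Not at hno
    have h1 : (Set.univ : Set ℕ) ⊆ ⋃ g ∈ S, {m : ℕ | p m = g} := by
      intro m _
      simp only [Set.mem_iUnion]
      exact ⟨p m, hpS m, rfl⟩
    have h2 : (⋃ g ∈ S, {m : ℕ | p m = g}).Finite :=
      h.fin.biUnion fun g hg => by
        have := hno g hg
        simpa using this
    exact Set.infinite_univ (h2.subset h1)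
  obtain ⟨g, hgS, hginf⟩ := hinf
  obtain ⟨ψ, hψ, hψg⟩ : ∃ ψ : ℕ → ℕ, StrictMono ψ ∧ ∀ k, p (ψ k) = g := by
    refine ⟨Nat.nth (fun m => p m = g), Nat.nth_strictMono hginf, fun k => ?_⟩
    exact Nat.nth_mem_of_infinite hginf k
  obtain ⟨y₀, hy₀, φ, hφ, hlim⟩ := hBc.tendsto_subseq (fun k => hyB (ψ k))
  have hdlim : Tendsto (fun k => (ψ (φ k) : ℝ)) atTop atTop :=
    tendsto_natCast_atTop_atTop.comp (hψ.tendsto_atTop.comp hφ.tendsto_atTop)
  refine ⟨y₀, ?_, ?_⟩
  · have h1 : Tendsto (fun k => G (y (ψ (φ k)))) atTop (𝓝 (G y₀)) :=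
      (h.cont.tendsto y₀).comp hlim
    have h2 : Tendsto (fun k => T / ((e + 1) * (ψ (φ k) : ℝ))) atTop (𝓝 0) :=
      Tendsto.div_atTop tendsto_const_nhds (hdlim.const_mul_atTop (by positivity))
    have h3 : ∀ᶠ k in atTop, G (y (ψ (φ k))) ≤ T / ((e + 1) * (ψ (φ k) : ℝ)) := by
      filter_upwards [hdlim.eventually_gt_atTop 0] with k hk
      rw [le_div_iff₀ (by positivity)]
      have h4 := hymin (ψ (φ k)) x₀
      rw [hx₀, mul_zero, add_zero] at h4
      have h5 : 0 ≤ ∑ i, y (ψ (φ k)) i ^ (e + 1) := Finset.sum_nonneg fun i _ => hterm _ i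
      have h6 : ∑ i, x₀ i ^ (e + 1) ≤ T := by linarith
      linarith
    exact le_antisymm (le_of_tendsto_of_tendsto h1 h2 h3) (h.nonneg y₀)
  · intro j
    have h1 : Tendsto (fun k => y (ψ (φ k)) j) atTop (𝓝 (y₀ j)) :=
      ((continuous_apply j).tendsto y₀).comp hlim
    have h2 := crit_limit he0 (G := fun i => MvPolynomial.pderiv i g) (c := e * mnrm g + 1)
      (by omega) (fun i => (mnrm_pderiv_le g i (h.deg g hgS)).trans (by omega))
      (fun i => totalDegree_pderiv_lt g i he0 (h.deg g hgS)) j hdlim h1 (fun k i => by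
        have := hpc (ψ (φ k)) i
        rw [hψg] at this
        exact this)
    refine h2.trans ?_
    have h3 : BB n e (mnrm g) ≤ BB n e γ := BB_mono (h.nrm g hgS)
    have h4 : max 1 (BB n e (mnrm g)) ≤ max 1 (BB n e γ) := max_le_max le_rfl h3
    exact_mod_cast h4

/-- **Gap theorem.** -/
theorem PW.gap {G : (Fin n → ℝ) → ℝ} {S : Set (MvPolynomial (Fin n) ℤ)} {e γ : ℕ}
    (h : PW G S e γ) (he : Odd e) (T : ℕ) (hT : 0 < T)
    (hpos : ∀ x : Fin n → ℝ, ∑ i, x i ^ (e + 1) ≤ T → 0 < G x) (x : Fin n → ℝ) :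
    (T : ℝ) ≤ ∑ i, x i ^ (e + 1) + (e + 1) * Hb n e T γ * G x := by
  have he0 : 0 < e := he.pos
  have heven : Even (e + 1) := he.add_one
  have hT1 : (1 : ℝ) ≤ T := by exact_mod_cast hT
  have hcont := h.cont
  have hcontP : Continuous fun x : Fin n → ℝ => ∑ i, x i ^ (e + 1) := by fun_prop
  have hterm : ∀ (x : Fin n → ℝ) (i : Fin n), 0 ≤ x i ^ (e + 1) := fun x i => heven.pow_nonneg _
  -- the region in space
  set B : Set (Fin n → ℝ) := {x | ∑ i, x i ^ (e + 1) ≤ T} with hB
  have hBc : IsCompact B := compact_box heven hT1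
  have hB0 : (0 : Fin n → ℝ) ∈ B := by
    rw [hB]
    simp
  obtain ⟨xm, hxm, hmin⟩ := hBc.exists_isMinOn ⟨0, hB0⟩ hcont.continuousOn
  have hm : 0 < G xm := hpos xm hxm
  -- the region in space and parameter
  set K : Set (ℝ × (Fin n → ℝ)) := {p | 0 ≤ p.1 ∧
    ∑ i, p.2 i ^ (e + 1) + (e + 1) * p.1 * G p.2 ≤ T} with hK
  have hKB : ∀ p ∈ K, p.2 ∈ B := by
    rintro ⟨d, y⟩ ⟨h1, h2⟩
    have : 0 ≤ (e + 1) * d * G y :=
      mul_nonneg (mul_nonneg (by positivity) h1) (h.nonneg y)
    simp only [hB, Set.mem_ofPred_eq] at h2 ⊢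
    linarith
  have hKc : IsCompact K := by
    apply IsCompact.of_isClosed_subset ((isCompact_Icc :
      IsCompact (Set.Icc (0 : ℝ) (T / ((e + 1) * G xm)))).prod hBc)
    · rw [hK]
      exact (isClosed_le continuous_const continuous_fst).inter
        (isClosed_le ((hcontP.comp continuous_snd).add
          ((continuous_const.mul continuous_fst).mul (hcont.comp continuous_snd)))
          continuous_const)
    · rintro ⟨d, y⟩ hp
      have hy := hKB _ hp
      obtain ⟨h1, h2⟩ := hp
      refine ⟨⟨h1, ?_⟩, hy⟩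
      rw [le_div_iff₀ (by positivity)]
      have h3 : G xm ≤ G y := hmin hy
      have h4 : 0 ≤ ∑ i, y i ^ (e + 1) := Finset.sum_nonneg fun i _ => hterm y i
      simp only at h1 h2 ⊢
      have h5 : d * ((e + 1) * G xm) ≤ (e + 1) * d * G y := by
        have : (0 : ℝ) ≤ (e + 1) * d := by positivity
        nlinarith
      linarith
  have hK0 : K.Nonempty := ⟨(0, 0), by simp [hK]⟩
  obtain ⟨⟨d, y⟩, hp, hmax⟩ := hKc.exists_isMaxOn hK0 continuous_fst.continuousOn
  obtain ⟨hd0, hFy⟩ := hp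
  simp only at hd0 hFy
  have hge : ∀ z : Fin n → ℝ, (T : ℝ) ≤ ∑ i, z i ^ (e + 1) + (e + 1) * d * G z := by
    intro z
    by_contra hlt
    push Not at hlt
    have hzB : z ∈ B := by
      have : 0 ≤ (e + 1) * d * G z :=
        mul_nonneg (mul_nonneg (by positivity) hd0) (h.nonneg z)
      simp only [hB, Set.mem_ofPred_eq]
      linarith
    have hz := hpos z hzB
    set η := (T - (∑ i, z i ^ (e + 1) + (e + 1) * d * G z)) / ((e + 1) * G z) with hη
    have hη0 : 0 < η := div_pos (by linarith) (by positivity)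
    have h1 : (d + η, z) ∈ K := by
      refine ⟨by simp only; linarith, ?_⟩
      simp only
      have h2 : (e + 1) * η * G z = T - (∑ i, z i ^ (e + 1) + (e + 1) * d * G z) := by
        rw [hη]
        field_simp
      have h3 : ((e : ℝ) + 1) * (d + η) * G z = (e + 1) * d * G z + (e + 1) * η * G z := by ring
      rw [h3, h2]
      linarith
    have h2 : d + η ≤ d := hmax h1
    linarith
  have hFT : (T : ℝ) = ∑ i, y i ^ (e + 1) + (e + 1) * d * G y :=
    le_antisymm (hge y) hFy
  -- critical point equations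
  obtain ⟨g, hgS, hGg, hcrit⟩ := h.crit (d := d) (y := y) (fun z => by
    rw [← hFT]; exact hge z)
  have hdeg := h.deg g hgS
  -- the polynomial `h`
  set q : MvPolynomial (Fin n) ℤ := MvPolynomial.C ((e : ℤ) + 1) * g -
    ∑ i, MvPolynomial.X i * MvPolynomial.pderiv i g with hq
  have hqd : (T : ℝ) = d * MvPolynomial.aeval y q := by
    have h1 : ∑ i, y i ^ (e + 1) = -d * ∑ i, y i * MvPolynomial.aeval y (MvPolynomial.pderiv i g) := by
      rw [Finset.mul_sum]
      apply Finset.sum_congr rfl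
      intro i _
      rw [pow_succ, hcrit i]
      ring
    have h2 : MvPolynomial.aeval y q = (e + 1) * MvPolynomial.aeval y g -
        ∑ i, y i * MvPolynomial.aeval y (MvPolynomial.pderiv i g) := by
      rw [hq, map_sub, map_mul, map_sum]
      simp only [map_mul, MvPolynomial.aeval_X]
      congr 2
      simp
    rw [hFT, h1, h2, ← hGg]
    ring
  have hqdeg : q.totalDegree ≤ e := by
    rw [hq]
    refine (MvPolynomial.totalDegree_sub _ _).trans (max_le ?_ ?_)
    · refine (MvPolynomial.totalDegree_mul _ _).trans ?_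
      rw [MvPolynomial.totalDegree_C]
      omega
    · refine MvPolynomial.totalDegree_finsetSum_le fun i _ => ?_
      refine (MvPolynomial.totalDegree_mul _ _).trans ?_
      rw [MvPolynomial.totalDegree_X]
      have := totalDegree_pderiv_lt g i he0 hdeg
      omega
  have hqn : mnrm q ≤ (e + 1) * γ + n * (e * γ) := by
    rw [hq]
    refine (mnrm_sub_le _ _).trans (Nat.add_le_add ?_ ?_)
    · refine (mnrm_mul_le _ _).trans ?_
      rw [mnrm_C]
      exact Nat.mul_le_mul (by omega) (h.nrm g hgS)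
    · refine (mnrm_sum_le _ _).trans ?_
      have h1 : ∀ i ∈ (Finset.univ : Finset (Fin n)),
          mnrm (MvPolynomial.X i * MvPolynomial.pderiv i g) ≤ e * γ := by
        intro i _
        refine (mnrm_mul_le _ _).trans ?_
        rw [mnrm_X, one_mul]
        exact (mnrm_pderiv_le g i hdeg).trans (Nat.mul_le_mul_left _ (h.nrm g hgS))
      have := Finset.sum_le_card_nsmul _ _ _ h1
      simpa using this
  have hdle := crit_le (n := n) (e := e) (G := fun i => MvPolynomial.pderiv i g)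
    (c := e * γ + 1) (by omega)
    (fun i => (mnrm_pderiv_le g i hdeg).trans (by
      have := Nat.mul_le_mul_left e (h.nrm g hgS)
      omega))
    (fun i => totalDegree_pderiv_lt g i he0 hdeg) he0 q T hT d y hcrit hqd
    (e + n * (e - 1)) (by omega)
  have hHb : d ≤ (Hb n e T γ : ℕ) := by
    refine hdle.trans ?_
    unfold Hb
    exact_mod_cast Nat.mul_le_mul_left _ (Nat.pow_le_pow_left
      (Nat.add_le_add_left (Nat.mul_le_mul_right _ hqn) _) _)
  have h9 := hge x
  have h10 : (e + 1) * d * G x ≤ (e + 1) * Hb n e T γ * G x := by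
    apply mul_le_mul_of_nonneg_right _ (h.nonneg x)
    apply mul_le_mul_of_nonneg_left hHb (by positivity)
  linarith

end Pool.Agent.J6H79.FR
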