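import Pool.Agent.J6H79.FR.Core

/-!
# Explicit parameters
-/

set_option autoImplicit false

namespace Pool.Agent.J6H79.FR

open Pool.Agent.H625R2 Pool.Agent.NPC Pool.Agent.NPC.ER Pool.Agent.NPC.ER.Ball
open Pool.Agent.J6H79.RS

/-! ### Lipschitz bounds -/

theorem eval_le {M : ℝ} (hM : 2 ≤ M) {x : ℕ → ℝ} (hx : ∀ i, |x i| ≤ M) (t : Tm) :
    |t.eval x| ≤ M ^ tsz t := by
  have hM1 : 1 ≤ M := by linarith
  induction t with
  | var i => simpa [Tm.eval, tsz] using hx i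
  | zero => simp [Tm.eval, tsz]; linarith
  | one => simp [Tm.eval, tsz]; linarith
  | add s t ihs iht =>
    simp only [Tm.eval, tsz]
    have h1 : M ^ tsz s ≤ M ^ (tsz s + tsz t) := pow_le_pow_right₀ hM1 (by omega)
    have h2 : M ^ tsz t ≤ M ^ (tsz s + tsz t) := pow_le_pow_right₀ hM1 (by omega)
    have h3 : 0 ≤ M ^ (tsz s + tsz t) := by positivity
    have h4 := abs_add_le (s.eval x) (t.eval x)
    rw [pow_succ]
    nlinarith
  | neg t ih =>
    simp only [Tm.eval, tsz, abs_neg]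
    exact ih.trans (pow_le_pow_right₀ hM1 (by omega))
  | mul s t ihs iht =>
    simp only [Tm.eval, tsz, abs_mul]
    calc |s.eval x| * |t.eval x| ≤ M ^ tsz s * M ^ tsz t :=
          mul_le_mul ihs iht (abs_nonneg _) (by positivity)
      _ = M ^ (tsz s + tsz t) := (pow_add _ _ _).symm
      _ ≤ _ := pow_le_pow_right₀ hM1 (by omega)

theorem eval_lip {M η : ℝ} (hM : 2 ≤ M) (hη : 0 ≤ η) {x x' : ℕ → ℝ} (hx : ∀ i, |x i| ≤ M)
    (hx' : ∀ i, |x' i| ≤ M) (h : ∀ i, |x i - x' i| ≤ η) (t : Tm) :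
    |t.eval x - t.eval x'| ≤ η * M ^ (2 * tsz t) := by
  have hM1 : 1 ≤ M := by linarith
  induction t with
  | var i =>
    simp only [Tm.eval]
    refine (h i).trans ?_
    have : 1 ≤ M ^ (2 * tsz (Tm.var i)) := one_le_pow₀ hM1
    nlinarith
  | zero => simp [Tm.eval]; positivity
  | one => simp [Tm.eval]; positivity
  | add s t ihs iht =>
    simp only [Tm.eval, tsz]
    have h1 : M ^ (2 * tsz s) ≤ M ^ (2 * tsz s + 2 * tsz t) := pow_le_pow_right₀ hM1 (by omega)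
    have h2 : M ^ (2 * tsz t) ≤ M ^ (2 * tsz s + 2 * tsz t) := pow_le_pow_right₀ hM1 (by omega)
    have h3 : 0 ≤ M ^ (2 * tsz s + 2 * tsz t) := by positivity
    have h4 := abs_add_le (s.eval x - s.eval x') (t.eval x - t.eval x')
    have h5 : s.eval x + t.eval x - (s.eval x' + t.eval x') =
      (s.eval x - s.eval x') + (t.eval x - t.eval x') := by ring
    rw [h5]
    have h6 : M ^ (2 * (tsz s + tsz t + 1)) = M ^ (2 * tsz s + 2 * tsz t) * M ^ 2 := by
      rw [← pow_add]; congr 1; ring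
    rw [h6]
    have h7 : 2 ≤ M ^ 2 := by nlinarith
    have h8 : η * (M ^ (2 * tsz s + 2 * tsz t) * 2) ≤
        η * (M ^ (2 * tsz s + 2 * tsz t) * M ^ 2) :=
      mul_le_mul_of_nonneg_left (mul_le_mul_of_nonneg_left h7 h3) hη
    have h9 := mul_le_mul_of_nonneg_left h1 hη
    have h10 := mul_le_mul_of_nonneg_left h2 hη
    linarith
  | neg t ih =>
    simp only [Tm.eval, tsz]
    have h5 : -t.eval x - -t.eval x' = -(t.eval x - t.eval x') := by ring
    rw [h5, abs_neg]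
    refine ih.trans (mul_le_mul_of_nonneg_left (pow_le_pow_right₀ hM1 (by omega)) hη)
  | mul s t ihs iht =>
    simp only [Tm.eval, tsz]
    have h5 : s.eval x * t.eval x - s.eval x' * t.eval x' =
      s.eval x * (t.eval x - t.eval x') + (s.eval x - s.eval x') * t.eval x' := by ring
    rw [h5]
    have h4 := abs_add_le (s.eval x * (t.eval x - t.eval x')) ((s.eval x - s.eval x') * t.eval x')
    rw [abs_mul, abs_mul] at h4
    have h6 : M ^ (2 * (tsz s + tsz t + 1)) = M ^ (2 * tsz s + 2 * tsz t) * M ^ 2 := by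
      rw [← pow_add]; congr 1; ring
    rw [h6]
    have h7 : 2 ≤ M ^ 2 := by nlinarith
    have h3 : 0 ≤ M ^ (2 * tsz s + 2 * tsz t) := by positivity
    have h8 : η * (M ^ (2 * tsz s + 2 * tsz t) * 2) ≤
        η * (M ^ (2 * tsz s + 2 * tsz t) * M ^ 2) :=
      mul_le_mul_of_nonneg_left (mul_le_mul_of_nonneg_left h7 h3) hη
    have h9 : |s.eval x| * |t.eval x - t.eval x'| ≤ η * M ^ (2 * tsz s + 2 * tsz t) := by
      calc |s.eval x| * |t.eval x - t.eval x'| ≤ M ^ tsz s * (η * M ^ (2 * tsz t)) :=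
            mul_le_mul (eval_le hM hx s) iht (abs_nonneg _) (by positivity)
        _ = η * M ^ (tsz s + 2 * tsz t) := by rw [pow_add]; ring
        _ ≤ _ := mul_le_mul_of_nonneg_left (pow_le_pow_right₀ hM1 (by omega)) hη
    have h10 : |s.eval x - s.eval x'| * |t.eval x'| ≤ η * M ^ (2 * tsz s + 2 * tsz t) := by
      calc |s.eval x - s.eval x'| * |t.eval x'| ≤ (η * M ^ (2 * tsz s)) * M ^ tsz t :=
            mul_le_mul ihs (eval_le hM hx' t) (abs_nonneg _) (by positivity)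
        _ = η * M ^ (2 * tsz s + tsz t) := by rw [pow_add]; ring
        _ ≤ _ := mul_le_mul_of_nonneg_left (pow_le_pow_right₀ hM1 (by omega)) hη
    linarith

/-! ### Numerical bounds -/

section num

variable {k D s A : ℕ} {E F : List Tm}

theorem gam_le : gam E F s ≤ 2 ^ (E.length + F.length + 2 * s + 2) := by
  unfold gam
  have h1 : E.length + F.length ≤ 2 ^ (E.length + F.length) := Nat.lt_two_pow_self.le
  have h2 : (2 ^ s + 1) ^ 2 ≤ 2 ^ (2 * s + 2) := by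
    calc (2 ^ s + 1) ^ 2 ≤ (2 ^ (s + 1)) ^ 2 := by
          apply Nat.pow_le_pow_left
          have := Nat.one_le_two_pow (n := s)
          rw [pow_succ]
          omega
      _ = 2 ^ (2 * s + 2) := by rw [← pow_mul]; congr 1; ring
  calc _ ≤ 2 ^ (E.length + F.length) * 2 ^ (2 * s + 2) := Nat.mul_le_mul h1 h2
    _ = _ := by rw [← pow_add]; congr 1

theorem facts {N n e : ℕ} (hN : N = e ^ n) (hn : n = k + 1) (he : e = 2 * D + 5) :
    e ≤ N ∧ n ≤ N ∧ 1 + n * (e - 1) ≤ N := by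
  subst hN
  refine ⟨?_, ?_, ?_⟩
  · calc e = e ^ 1 := (pow_one e).symm
      _ ≤ e ^ n := Nat.pow_le_pow_right (by omega) (by omega)
  · calc n ≤ 2 ^ n := Nat.lt_two_pow_self.le
      _ ≤ e ^ n := Nat.pow_le_pow_left (by omega) n
  · have h1 : (1 + (e - 1)) ^ n = e ^ n := by congr 1; omega
    have h2 : (1 : ℤ) + n * ((e : ℤ) - 1) ≤ (1 + ((e : ℤ) - 1)) ^ n :=
      one_add_mul_le_pow (by omega) n
    have h3 : ((1 + n * (e - 1) : ℕ) : ℤ) ≤ ((e ^ n : ℕ) : ℤ) := by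
      push_cast
      rw [Nat.cast_sub (by omega)]
      push_cast
      have h4 : (1 : ℤ) + ((e : ℤ) - 1) = e := by ring
      rw [h4] at h2
      exact h2
    exact_mod_cast h3

theorem eg_le (hA : (2 * D + 5) ^ (k + 1) + 3 * s + E.length + F.length + 4 ≤ A) :
    (2 * D + 5) * gam E F s + 1 ≤ 2 ^ A ∧ (2 * D + 5 + 1) * gam E F s ≤ 2 ^ A := by
  obtain ⟨h1, -, -⟩ := facts (k := k) (D := D) (N := (2 * D + 5) ^ (k + 1)) rfl rfl rfl
  set N := (2 * D + 5) ^ (k + 1) with hN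
  have h2 : 2 * D + 5 ≤ 2 ^ N := h1.trans Nat.lt_two_pow_self.le
  have h3 : (2 * D + 5) * gam E F s ≤ 2 ^ (N + (E.length + F.length + 2 * s + 2)) := by
    rw [pow_add]
    exact Nat.mul_le_mul h2 gam_le
  have h4 : 2 ^ (N + (E.length + F.length + 2 * s + 2)) * 2 ≤ 2 ^ A := by
    rw [← pow_succ]
    exact Nat.pow_le_pow_right (by norm_num) (by omega)
  have h5 : 1 ≤ 2 ^ (N + (E.length + F.length + 2 * s + 2)) := Nat.one_le_two_pow
  constructor
  · omega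
  · have h6 : (2 * D + 5 + 1) * gam E F s ≤ 2 * ((2 * D + 5) * gam E F s) := by nlinarith
    omega

theorem bb_le (hA : (2 * D + 5) ^ (k + 1) + 3 * s + E.length + F.length + 4 ≤ A) :
    max 1 (BB (k + 1) (2 * D + 5) (gam E F s)) ≤ 2 ^ A ^ 4 := by
  obtain ⟨h1, h2, h3⟩ := facts (k := k) (D := D) (N := (2 * D + 5) ^ (k + 1)) rfl rfl rfl
  obtain ⟨h4, -⟩ := eg_le hA
  refine max_le Nat.one_le_two_pow ?_
  unfold BB
  set N := (2 * D + 5) ^ (k + 1) with hN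
  have hNA : N + 4 ≤ A := by omega
  have hfact : N.factorial ≤ 2 ^ (N * N) := by
    calc N.factorial ≤ N ^ N := Nat.factorial_le_pow N
      _ ≤ (2 ^ N) ^ N := Nat.pow_le_pow_left Nat.lt_two_pow_self.le N
      _ = _ := (pow_mul _ _ _).symm
  have hb : 1 + ((2 * D + 5) * gam E F s + 1) ^ (1 + (k + 1) * (2 * D + 5 - 1)) ≤
      2 ^ (A * N + 1) := by
    have h5 : ((2 * D + 5) * gam E F s + 1) ^ (1 + (k + 1) * (2 * D + 5 - 1)) ≤ 2 ^ (A * N) := by
      calc _ ≤ (2 ^ A) ^ (1 + (k + 1) * (2 * D + 5 - 1)) := Nat.pow_le_pow_left h4 _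
        _ ≤ (2 ^ A) ^ N := Nat.pow_le_pow_right (by positivity) h3
        _ = _ := (pow_mul _ _ _).symm
    have h6 : 1 ≤ 2 ^ (A * N) := Nat.one_le_two_pow
    rw [pow_succ]
    omega
  calc _ ≤ 2 ^ (N * N) * (2 ^ (A * N + 1)) ^ N :=
        Nat.mul_le_mul hfact (Nat.pow_le_pow_left hb N)
    _ = 2 ^ (N * N + (A * N + 1) * N) := by rw [← pow_mul, ← pow_add]
    _ ≤ 2 ^ A ^ 4 := by
      apply Nat.pow_le_pow_right (by norm_num)
      have h7 : N ≤ A := by omega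
      have hA4 : 4 ≤ A := by omega
      calc N * N + (A * N + 1) * N ≤ A * A + (A * A + 1) * A := by gcongr
        _ ≤ A ^ 4 := by nlinarith [Nat.zero_le (A ^ 3), Nat.mul_le_mul hA4 (le_refl (A ^ 3)),
            Nat.mul_le_mul hA4 (le_refl (A ^ 2)), Nat.mul_le_mul hA4 (le_refl A)]

theorem hb_le (hA : (2 * D + 5) ^ (k + 1) + 3 * s + E.length + F.length + 4 ≤ A) :
    Hb (k + 1) (2 * D + 5) ((k + 1) * (2 * 2 ^ A ^ 4 + 2) ^ (2 * D + 6) + 1) (gam E F s) ≤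
      2 ^ A ^ 7 := by
  obtain ⟨h1, h2, h3⟩ := facts (k := k) (D := D) (N := (2 * D + 5) ^ (k + 1)) rfl rfl rfl
  obtain ⟨h4, h4'⟩ := eg_le hA
  unfold Hb
  set N := (2 * D + 5) ^ (k + 1) with hN
  have hNA : N + 4 ≤ A := by omega
  have hA4 : 4 ≤ A := by omega
  have hfact : N.factorial ≤ 2 ^ (A * A) := by
    calc N.factorial ≤ N ^ N := Nat.factorial_le_pow N
      _ ≤ (2 ^ N) ^ N := Nat.pow_le_pow_left Nat.lt_two_pow_self.le N
      _ = 2 ^ (N * N) := (pow_mul _ _ _).symm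
      _ ≤ _ := Nat.pow_le_pow_right (by norm_num) (Nat.mul_le_mul (by omega) (by omega))
  have hT : (k + 1) * (2 * 2 ^ A ^ 4 + 2) ^ (2 * D + 6) + 1 ≤ 2 ^ (A + (A ^ 4 + 2) * A + 1) := by
    have h5 : 2 * 2 ^ A ^ 4 + 2 ≤ 2 ^ (A ^ 4 + 2) := by
      have : 1 ≤ 2 ^ A ^ 4 := Nat.one_le_two_pow
      rw [pow_add]
      omega
    have h6 : k + 1 ≤ 2 ^ A := (h2.trans (by omega : N ≤ A)).trans Nat.lt_two_pow_self.le
    have h7 : (2 * 2 ^ A ^ 4 + 2) ^ (2 * D + 6) ≤ 2 ^ ((A ^ 4 + 2) * A) := by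
      calc _ ≤ (2 ^ (A ^ 4 + 2)) ^ (2 * D + 6) := Nat.pow_le_pow_left h5 _
        _ ≤ (2 ^ (A ^ 4 + 2)) ^ A := Nat.pow_le_pow_right (by positivity) (by omega)
        _ = _ := (pow_mul _ _ _).symm
    have h8 : (k + 1) * (2 * 2 ^ A ^ 4 + 2) ^ (2 * D + 6) ≤ 2 ^ (A + (A ^ 4 + 2) * A) := by
      rw [pow_add 2 A]
      exact Nat.mul_le_mul h6 h7
    have h9 : 1 ≤ 2 ^ (A + (A ^ 4 + 2) * A) := Nat.one_le_two_pow
    have h10 : 2 ^ (A + (A ^ 4 + 2) * A + 1) = 2 ^ (A + (A ^ 4 + 2) * A) * 2 := pow_succ _ _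
    omega
  have hS : ((2 * D + 5 + 1) * gam E F s + (k + 1) * ((2 * D + 5) * gam E F s)) *
      ((2 * D + 5) * gam E F s + 1) ^ (2 * D + 5 + (k + 1) * (2 * D + 5 - 1)) ≤
      2 ^ (2 * A + 1 + A * (2 * A)) := by
    rw [pow_add 2 (2 * A + 1)]
    apply Nat.mul_le_mul
    · have h6 : k + 1 ≤ 2 ^ A := (h2.trans (by omega : N ≤ A)).trans Nat.lt_two_pow_self.le
      have h7 : (k + 1) * ((2 * D + 5) * gam E F s) ≤ 2 ^ A * 2 ^ A :=
        Nat.mul_le_mul h6 (by omega)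
      have h8 : 2 ^ A ≤ 2 ^ A * 2 ^ A := Nat.le_mul_of_pos_right _ (by positivity)
      have h9 : 2 ^ (2 * A + 1) = 2 * (2 ^ A * 2 ^ A) := by
        rw [pow_succ, two_mul, pow_add]; ring
      omega
    · calc _ ≤ (2 ^ A) ^ (2 * D + 5 + (k + 1) * (2 * D + 5 - 1)) := Nat.pow_le_pow_left h4 _
        _ ≤ (2 ^ A) ^ (2 * A) := Nat.pow_le_pow_right (by positivity) (by omega)
        _ = _ := (pow_mul _ _ _).symm
  have hexp : 2 * A + 1 + A * (2 * A) ≤ A + (A ^ 4 + 2) * A + 1 := by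
    have e1 : A * A * 2 ≤ A ^ 4 * A := by
      calc A * A * 2 ≤ A * A * (A * A * A) := Nat.mul_le_mul_left _ (by nlinarith)
        _ = A ^ 4 * A := by ring
    have e2 : A * (2 * A) = A * A * 2 := by ring
    have e3 : (A ^ 4 + 2) * A = A ^ 4 * A + 2 * A := by ring
    omega
  have hsum : (k + 1) * (2 * 2 ^ A ^ 4 + 2) ^ (2 * D + 6) + 1 +
      ((2 * D + 5 + 1) * gam E F s + (k + 1) * ((2 * D + 5) * gam E F s)) *
      ((2 * D + 5) * gam E F s + 1) ^ (2 * D + 5 + (k + 1) * (2 * D + 5 - 1)) ≤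
      2 ^ (A + (A ^ 4 + 2) * A + 2) := by
    have h5 := hS.trans (Nat.pow_le_pow_right (by norm_num) hexp)
    have h6 : 2 ^ (A + (A ^ 4 + 2) * A + 2) = 2 ^ (A + (A ^ 4 + 2) * A + 1) +
        2 ^ (A + (A ^ 4 + 2) * A + 1) := by rw [pow_succ 2 (A + (A ^ 4 + 2) * A + 1)]; ring
    rw [h6]
    exact Nat.add_le_add hT h5
  calc _ ≤ 2 ^ (A * A) * (2 ^ (A + (A ^ 4 + 2) * A + 2)) ^ A := by
        apply Nat.mul_le_mul hfact
        exact (Nat.pow_le_pow_left hsum N).trans (Nat.pow_le_pow_right (by positivity) (by omega))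
    _ = 2 ^ (A * A + (A + (A ^ 4 + 2) * A + 2) * A) := by rw [← pow_mul, ← pow_add]
    _ ≤ 2 ^ A ^ 7 := by
      apply Nat.pow_le_pow_right (by norm_num)
      have e1 : A * A + (A + (A ^ 4 + 2) * A + 2) * A = A ^ 6 + 4 * A ^ 2 + 2 * A := by ring
      rw [e1]
      have e2 : A ^ 7 = A * A ^ 6 := by ring
      have e3 : 4 * A ^ 6 ≤ A * A ^ 6 := Nat.mul_le_mul_right _ hA4
      have e4 : A ^ 2 ≤ A ^ 6 := Nat.pow_le_pow_right (by omega) (by norm_num)
      have e5 : 4 * A ^ 2 + 2 * A ≤ 3 * A ^ 6 := by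
        have e6 : A ^ 6 = A ^ 2 * A ^ 4 := by ring
        have e7 : 256 ≤ A ^ 4 := by
          calc 256 = 4 ^ 4 := by norm_num
            _ ≤ A ^ 4 := Nat.pow_le_pow_left hA4 4
        have e8 : A ^ 2 * 256 ≤ A ^ 2 * A ^ 4 := Nat.mul_le_mul_left _ e7
        have e9 : A ≤ A ^ 2 := by nlinarith
        omega
      omega

theorem delta_lt (hA : (2 * D + 5) ^ (k + 1) + 3 * s + E.length + F.length + 4 ≤ A) :
    (((2 * D + 6) * Hb (k + 1) (2 * D + 5) ((k + 1) * (2 * 2 ^ A ^ 4 + 2) ^ (2 * D + 6) + 1)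
      (gam E F s) * E.length : ℕ) : ℝ) * (1 / 2 ^ A ^ 8) ^ 2 < 1 := by
  obtain ⟨h1, h2, h3⟩ := facts (k := k) (D := D) (N := (2 * D + 5) ^ (k + 1)) rfl rfl rfl
  have hb := hb_le hA
  set N := (2 * D + 5) ^ (k + 1) with hN
  have hA4 : 4 ≤ A := by omega
  have h5 : (2 * D + 6) * Hb (k + 1) (2 * D + 5) ((k + 1) * (2 * 2 ^ A ^ 4 + 2) ^ (2 * D + 6) + 1)
      (gam E F s) * E.length ≤ 2 ^ A * 2 ^ A ^ 7 * 2 ^ A := by
    apply Nat.mul_le_mul (Nat.mul_le_mul _ hb)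
    · exact (by omega : E.length ≤ A).trans Nat.lt_two_pow_self.le
    · exact (by omega : 2 * D + 6 ≤ A).trans Nat.lt_two_pow_self.le
  have h6 : 2 ^ A * 2 ^ A ^ 7 * 2 ^ A < 2 ^ (2 * A ^ 8) := by
    rw [← pow_add, ← pow_add]
    apply Nat.pow_lt_pow_right (by norm_num)
    have e1 : A ^ 8 = A * A ^ 7 := by ring
    have e2 : 4 * A ^ 7 ≤ A * A ^ 7 := Nat.mul_le_mul_right _ hA4
    have e3 : A ≤ A ^ 7 := Nat.le_self_pow (by norm_num) A
    omega
  have h7 : (((2 * D + 6) * Hb (k + 1) (2 * D + 5)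
      ((k + 1) * (2 * 2 ^ A ^ 4 + 2) ^ (2 * D + 6) + 1)
      (gam E F s) * E.length : ℕ) : ℝ) < ((2 ^ (2 * A ^ 8) : ℕ) : ℝ) := by
    exact_mod_cast h5.trans_lt h6
  have h8 : ((1 : ℝ) / 2 ^ A ^ 8) ^ 2 = 1 / 2 ^ (2 * A ^ 8) := by
    rw [div_pow, one_pow, ← pow_mul]
    congr 2
    ring
  rw [h8, mul_one_div, div_lt_one (by positivity)]
  push_cast at h7 ⊢
  exact h7

end num

/-! ### The equivalence -/

/-- the dyadic numbers -/
noncomputable def dy (P : ℕ) (a c : ℕ → ℕ) : ℕ → ℝ := fun i => ((a i : ℝ) - c i) / 2 ^ P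

/-- **Exact and approximate solutions.** -/
theorem exact_iff {k D s A : ℕ} {b : ℕ → Bool} {E F : List Tm} (hE : Good k D s E)
    (hF : Good k D s F) (hA : (2 * D + 5) ^ (k + 1) + 3 * s + E.length + F.length + 4 ≤ A) :
    (∃ u : ℕ → ℝ, (∀ t ∈ E, t.eval (pt k b u) = 0) ∧ ∀ t ∈ F, 0 < t.eval (pt k b u)) ↔
    ∃ a c : ℕ → ℕ, (∀ i < k, a i ≤ (2 ^ A ^ 4 + 1) * 2 ^ (A ^ 8 + A ^ 6) ∧
        c i ≤ (2 ^ A ^ 4 + 1) * 2 ^ (A ^ 8 + A ^ 6)) ∧
      (∀ t ∈ E, |t.eval (pt k b (dy (A ^ 8 + A ^ 6) a c))| ≤ 1 / 2 ^ A ^ 8) ∧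
      ∀ t ∈ F, 1 ≤ t.eval (pt k b (dy (A ^ 8 + A ^ 6) a c)) * 2 ^ (2 * A ^ 4 + 1) := by
  have hA4 : 4 ≤ A := by omega
  constructor
  · rintro ⟨u, hu1, hu2⟩
    obtain ⟨u', h1, h2, h3⟩ := exact_bounded hE hF hu1 hu2
    set R0 : ℕ := max 1 (BB (k + 1) (2 * D + 5) (gam E F s)) with hR0
    have hR0le : (R0 : ℝ) ≤ 2 ^ A ^ 4 := by exact_mod_cast bb_le hA
    set P := A ^ 8 + A ^ 6 with hP
    set m : ℕ → ℤ := fun i => ⌊u' i * 2 ^ P⌋ with hm
    have hP0 : (0 : ℝ) < 2 ^ P := by positivity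
    have hdy : ∀ i, dy P (fun i => (m i).toNat) (fun i => (-m i).toNat) i = m i / 2 ^ P := by
      intro i
      unfold dy
      congr 1
      have : ((m i).toNat : ℤ) - ((-m i).toNat : ℤ) = m i := by omega
      exact_mod_cast this
    have hclose : ∀ i, |m i / 2 ^ P - u' i| ≤ 1 / 2 ^ P := by
      intro i
      have h4 := Int.floor_le (u' i * 2 ^ P)
      have h5 := Int.lt_floor_add_one (u' i * 2 ^ P)
      rw [abs_le]
      constructor
      · rw [le_sub_iff_add_le, div_eq_mul_inv, div_eq_mul_inv]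
        have h6 : u' i * 2 ^ P * (2 ^ P)⁻¹ = u' i := by field_simp
        have h7 : (0 : ℝ) ≤ (2 ^ P)⁻¹ := by positivity
        have h8 : (u' i * 2 ^ P - 1) * (2 ^ P)⁻¹ ≤ (m i : ℝ) * (2 ^ P)⁻¹ :=
          mul_le_mul_of_nonneg_right (by simp only [hm]; linarith) h7
        rw [sub_mul, h6] at h8
        linarith
      · rw [sub_le_iff_le_add, div_le_iff₀ hP0]
        have h6 : (1 / 2 ^ P + u' i) * 2 ^ P = 1 + u' i * 2 ^ P := by field_simp
        rw [h6]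
        simp only [hm]
        linarith
    have hmb : ∀ i, |(m i : ℝ)| ≤ (2 ^ A ^ 4 + 1) * 2 ^ P := by
      intro i
      have h4 := hclose i
      have h5 : |(m i : ℝ) / 2 ^ P| ≤ 2 ^ A ^ 4 + 1 := by
        have h6 : |(m i : ℝ) / 2 ^ P| ≤ |(m i : ℝ) / 2 ^ P - u' i| + |u' i| := by
          have := abs_add_le ((m i : ℝ) / 2 ^ P - u' i) (u' i)
          rwa [sub_add_cancel] at this
        have h7 : (1 : ℝ) / 2 ^ P ≤ 1 := by
          rw [div_le_one hP0]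
          exact one_le_pow₀ (by norm_num)
        have h8 := h1 i
        linarith
      rw [abs_div, abs_of_pos hP0, div_le_iff₀ hP0] at h5
      exact h5
    have hmbZ : ∀ i, |m i| ≤ (2 ^ A ^ 4 + 1) * 2 ^ P := by
      intro i
      have := hmb i
      exact_mod_cast this
    have hM : ∀ i, |pt k b u' i| ≤ 2 ^ A ^ 4 + 1 := by
      intro i
      unfold pt
      have h0 : (0 : ℝ) ≤ 2 ^ A ^ 4 := by positivity
      split_ifs
      · have := h1 i
        linarith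
      · rw [abs_one]; linarith
      · rw [abs_zero]; linarith
    have hM' : ∀ i, |pt k b (dy P (fun i => (m i).toNat) (fun i => (-m i).toNat)) i| ≤
        2 ^ A ^ 4 + 1 := by
      intro i
      unfold pt
      have h0 : (0 : ℝ) ≤ 2 ^ A ^ 4 := by positivity
      split_ifs
      · rw [hdy, abs_div, abs_of_pos hP0, div_le_iff₀ hP0]
        exact hmb i
      · rw [abs_one]; linarith
      · rw [abs_zero]; linarith
    have hd : ∀ i, |pt k b (dy P (fun i => (m i).toNat) (fun i => (-m i).toNat)) i -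
        pt k b u' i| ≤ 1 / 2 ^ P := by
      intro i
      unfold pt
      have h0 : (0 : ℝ) ≤ 1 / 2 ^ P := by positivity
      split_ifs
      · rw [hdy]
        exact hclose i
      · simp
      · simp
    have hlip : ∀ t : Tm, tsz t ≤ s →
        |t.eval (pt k b (dy P (fun i => (m i).toNat) (fun i => (-m i).toNat))) -
          t.eval (pt k b u')| ≤ 1 / 2 ^ A ^ 8 := by
      intro t ht
      have h0 : (1 : ℝ) ≤ 2 ^ A ^ 4 := one_le_pow₀ (by norm_num)
      have h4 := eval_lip (M := 2 ^ A ^ 4 + 1) (by linarith) (by positivity) hM' hM hd t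
      refine h4.trans ?_
      have h5 : ((2 : ℝ) ^ A ^ 4 + 1) ^ (2 * tsz t) ≤ 2 ^ A ^ 6 := by
        calc ((2 : ℝ) ^ A ^ 4 + 1) ^ (2 * tsz t) ≤ (2 ^ (A ^ 4 + 1)) ^ (2 * tsz t) := by
              apply pow_le_pow_left₀ (by positivity)
              have h6 : (2 : ℝ) ^ (A ^ 4 + 1) = 2 ^ A ^ 4 * 2 := pow_succ _ _
              linarith
          _ = 2 ^ ((A ^ 4 + 1) * (2 * tsz t)) := (pow_mul _ _ _).symm
          _ ≤ 2 ^ A ^ 6 := by
              apply pow_le_pow_right₀ (by norm_num)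
              have e1 : 2 * tsz t ≤ A := by omega
              have e2 : (A ^ 4 + 1) ≤ A ^ 5 := by
                have e3 : A ^ 5 = A * A ^ 4 := by ring
                have e4 : 4 * A ^ 4 ≤ A * A ^ 4 := Nat.mul_le_mul_right _ hA4
                have e5 : 1 ≤ A ^ 4 := Nat.one_le_pow _ _ (by omega)
                omega
              calc (A ^ 4 + 1) * (2 * tsz t) ≤ A ^ 5 * A := Nat.mul_le_mul e2 e1
                _ = A ^ 6 := by ring
      calc 1 / 2 ^ P * ((2 : ℝ) ^ A ^ 4 + 1) ^ (2 * tsz t) ≤ 1 / 2 ^ P * 2 ^ A ^ 6 :=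
            mul_le_mul_of_nonneg_left h5 (by positivity)
        _ = 1 / 2 ^ A ^ 8 := by
            rw [hP, pow_add]
            field_simp
    refine ⟨fun i => (m i).toNat, fun i => (-m i).toNat, ?_, ?_, ?_⟩
    · intro i _
      have h4 := abs_le.1 (hmbZ i)
      have h5 : ((2 : ℤ) ^ A ^ 4 + 1) * 2 ^ P = (((2 ^ A ^ 4 + 1) * 2 ^ P : ℕ) : ℤ) := by
        push_cast; ring
      rw [h5] at h4
      constructor
      · show (m i).toNat ≤ _
        omega
      · show (-m i).toNat ≤ _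
        omega
    · intro t ht
      have h4 := hlip t (hE t ht).2
      rw [h2 t ht, sub_zero] at h4
      exact h4
    · intro t ht
      have h4 := hlip t (hF t ht).2
      have h5 := h3 t ht
      have h6 : 0 < t.eval (pt k b u') := by
        by_contra hneg
        push Not at hneg
        have := mul_nonpos_of_nonpos_of_nonneg hneg (sq_nonneg (R0 : ℝ))
        linarith
      have h7 : 1 ≤ t.eval (pt k b u') * 2 ^ (2 * A ^ 4) := by
        refine h5.trans (mul_le_mul_of_nonneg_left ?_ h6.le)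
        calc (R0 : ℝ) ^ 2 ≤ (2 ^ A ^ 4) ^ 2 := pow_le_pow_left₀ (Nat.cast_nonneg _) hR0le 2
          _ = 2 ^ (2 * A ^ 4) := by rw [← pow_mul]; congr 1; ring
      have h8 := (abs_le.1 h4).1
      have h9 : (1 : ℝ) / 2 ^ A ^ 8 * 2 ^ (2 * A ^ 4 + 1) ≤ 1 := by
        rw [div_mul_eq_mul_div, one_mul, div_le_one (by positivity)]
        apply pow_le_pow_right₀ (by norm_num)
        have e1 : A ^ 8 = A ^ 4 * A ^ 4 := by ring
        have e2 : 256 ≤ A ^ 4 := by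
          calc 256 = 4 ^ 4 := by norm_num
            _ ≤ A ^ 4 := Nat.pow_le_pow_left hA4 4
        have e3 : 256 * A ^ 4 ≤ A ^ 4 * A ^ 4 := Nat.mul_le_mul_right _ e2
        omega
      have h10 : (0 : ℝ) < 2 ^ (2 * A ^ 4 + 1) := by positivity
      have h11 : t.eval (pt k b u') - 1 / 2 ^ A ^ 8 ≤
          t.eval (pt k b (dy P (fun i => (m i).toNat) (fun i => (-m i).toNat))) := by linarith
      have h12 := mul_le_mul_of_nonneg_right h11 h10.le
      have h13 : t.eval (pt k b u') * 2 ^ (2 * A ^ 4 + 1) =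
          2 * (t.eval (pt k b u') * 2 ^ (2 * A ^ 4)) := by rw [pow_succ]; ring
      rw [sub_mul, h13] at h12
      linarith
  · rintro ⟨a, c, h1, h2, h3⟩
    refine exact_of_approx hE hF (R := 2 ^ A ^ 4) Nat.one_le_two_pow (δ := 1 / 2 ^ A ^ 8)
      (u := dy (A ^ 8 + A ^ 6) a c) ?_ h2 ?_ (delta_lt hA)
    · intro i hi
      obtain ⟨h4, h5⟩ := h1 i hi
      unfold dy
      rw [abs_div, abs_of_pos (by positivity : (0 : ℝ) < 2 ^ (A ^ 8 + A ^ 6)),
        div_le_iff₀ (by positivity)]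
      have h6 : (a i : ℝ) ≤ (2 ^ A ^ 4 + 1) * 2 ^ (A ^ 8 + A ^ 6) := by exact_mod_cast h4
      have h7 : (c i : ℝ) ≤ (2 ^ A ^ 4 + 1) * 2 ^ (A ^ 8 + A ^ 6) := by exact_mod_cast h5
      have h8 : (0 : ℝ) ≤ a i := Nat.cast_nonneg _
      have h9 : (0 : ℝ) ≤ c i := Nat.cast_nonneg _
      push_cast
      rw [abs_le]
      constructor <;> linarith
    · intro t ht
      have h4 := h3 t ht
      have h5 : (2 : ℝ) * ((2 ^ A ^ 4 : ℕ) : ℝ) ^ 2 = 2 ^ (2 * A ^ 4 + 1) := by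
        push_cast
        rw [← pow_mul, pow_succ]
        ring
      rw [h5]
      exact h4

end Pool.Agent.J6H79.FR
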