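import Pool.Agent.J6H79.FR.PW

/-!
# Sums of squares of polynomials and of negative parts of polynomials
-/

set_option autoImplicit false

namespace Pool.Agent.J6H79.FR

open Polynomial Pool.Agent.H625R2 Filter Topology Pool.Agent.NPC.ER.Ball

variable {n : ℕ}

/-- the sum of the squares of the values of the first polynomials and of the negative parts of
the values of the other polynomials -/
noncomputable def Gf (E F : List (MvPolynomial (Fin n) ℤ)) (y : Fin n → ℝ) : ℝ :=
  (E.map fun p => MvPolynomial.aeval y p ^ 2).sum +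
    (F.map fun q => min 0 (MvPolynomial.aeval y q) ^ 2).sum

/-- the pieces -/
def Pc (E : List (MvPolynomial (Fin n) ℤ)) :
    List (MvPolynomial (Fin n) ℤ) → Set (MvPolynomial (Fin n) ℤ)
  | [] => {(E.map fun p => p ^ 2).sum}
  | q :: F => Pc E F ∪ (fun g => q ^ 2 + g) '' Pc E F

theorem hasDerivAt_minsq (r : ℝ) : HasDerivAt (fun r : ℝ => min 0 r ^ 2) (2 * min 0 r) r := by
  rcases lt_trichotomy r 0 with h | h | h
  · have h1 : HasDerivAt (fun r : ℝ => r ^ 2) (2 * r) r := by
      have := hasDerivAt_pow 2 r
      simpa using this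
    rw [min_eq_right h.le]
    refine h1.congr_of_eventuallyEq ?_
    filter_upwards [Iio_mem_nhds h] with x hx
    rw [min_eq_right (le_of_lt hx)]
  · subst h
    rw [min_self, mul_zero, hasDerivAt_iff_isLittleO_nhds_zero]
    refine Asymptotics.IsBigO.trans_isLittleO (g := fun h : ℝ => h ^ 2) ?_
      (Asymptotics.isLittleO_pow_id (by norm_num))
    refine Asymptotics.IsBigO.of_bound 1 (Eventually.of_forall fun x => ?_)
    simp only [zero_add, min_self, smul_zero, sub_zero, one_mul]
    rcases le_total 0 x with hx | hx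
    · rw [min_eq_left hx]
      simp
      positivity
    · rw [min_eq_right hx]
      simp
  · rw [min_eq_left h.le, mul_zero]
    refine (hasDerivAt_const r (0 : ℝ)).congr_of_eventuallyEq ?_
    filter_upwards [Ioi_mem_nhds h] with x hx
    rw [min_eq_left (le_of_lt hx)]
    norm_num

theorem continuous_aeval (p : MvPolynomial (Fin n) ℤ) :
    Continuous fun y : Fin n → ℝ => MvPolynomial.aeval y p := by
  have : (fun x : Fin n → ℝ => MvPolynomial.aeval x p) = fun x =>
      ∑ m ∈ p.support, ((p.coeff m : ℤ) : ℝ) * ∏ i, x i ^ m i := funext fun x => aeval_eq p x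
  rw [this]
  fun_prop

theorem Gf_cons (E F : List (MvPolynomial (Fin n) ℤ)) (q : MvPolynomial (Fin n) ℤ)
    (y : Fin n → ℝ) : Gf E (q :: F) y = min 0 (MvPolynomial.aeval y q) ^ 2 + Gf E F y := by
  simp only [Gf, List.map_cons, List.sum_cons]
  ring

theorem aeval_base (E : List (MvPolynomial (Fin n) ℤ)) (y : Fin n → ℝ) :
    MvPolynomial.aeval y (E.map fun p => p ^ 2).sum = Gf E [] y := by
  simp only [Gf, List.map_nil, List.sum_nil, add_zero, map_list_sum, List.map_map]
  congr 1
  apply List.map_congr_left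
  intro p _
  simp

theorem Gf_continuous (E F : List (MvPolynomial (Fin n) ℤ)) : Continuous (Gf E F) := by
  induction F with
  | nil =>
    have : Gf E [] = fun y => MvPolynomial.aeval y (E.map fun p => p ^ 2).sum := by
      funext y; exact (aeval_base E y).symm
    rw [this]
    exact continuous_aeval _
  | cons q F ih =>
    have : Gf E (q :: F) = fun y => min 0 (MvPolynomial.aeval y q) ^ 2 + Gf E F y := by
      funext y; exact Gf_cons E F q y
    rw [this]
    exact ((continuous_const.min (continuous_aeval q)).pow 2).add ih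

theorem Gf_nonneg (E F : List (MvPolynomial (Fin n) ℤ)) (y : Fin n → ℝ) : 0 ≤ Gf E F y := by
  unfold Gf
  apply add_nonneg <;> apply List.sum_nonneg <;>
  · intro x hx
    obtain ⟨p, _, rfl⟩ := List.mem_map.1 hx
    positivity

theorem Gf_eq_zero (E F : List (MvPolynomial (Fin n) ℤ)) (y : Fin n → ℝ) : Gf E F y = 0 ↔
    (∀ p ∈ E, MvPolynomial.aeval y p = 0) ∧ ∀ q ∈ F, 0 ≤ MvPolynomial.aeval y q := by
  induction F with
  | nil =>
    simp only [List.not_mem_nil, false_implies, implies_true, and_true]
    induction E with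
    | nil => simp [Gf]
    | cons p E ih =>
      rw [List.forall_mem_cons, ← ih]
      have h1 : Gf (p :: E) [] y = MvPolynomial.aeval y p ^ 2 + Gf E [] y := by
        simp [Gf]
      have h2 := Gf_nonneg E [] y
      have h3 := sq_nonneg (MvPolynomial.aeval y p : ℝ)
      rw [h1]
      constructor
      · intro h
        exact ⟨by
          have : (MvPolynomial.aeval y p : ℝ) ^ 2 = 0 := by linarith
          exact pow_eq_zero_iff (two_ne_zero) |>.1 this, by linarith⟩
      · rintro ⟨h4, h5⟩
        rw [h4, h5]; ring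
  | cons q F ih =>
    rw [List.forall_mem_cons, Gf_cons, and_left_comm, ← ih]
    have h2 := Gf_nonneg E F y
    have h3 := sq_nonneg (min 0 (MvPolynomial.aeval y q : ℝ))
    constructor
    · intro h
      refine ⟨?_, by linarith⟩
      have h4 : min 0 (MvPolynomial.aeval y q : ℝ) ^ 2 = 0 := by linarith
      have h5 := pow_eq_zero_iff (two_ne_zero) |>.1 h4
      exact min_eq_left_iff.1 h5
    · rintro ⟨h4, h5⟩
      rw [h5, min_eq_left h4]
      norm_num

theorem Pc_finite (E F : List (MvPolynomial (Fin n) ℤ)) : (Pc E F).Finite := by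
  induction F with
  | nil => exact Set.finite_singleton _
  | cons q F ih => exact ih.union (ih.image _)

theorem Pc_deg {E F : List (MvPolynomial (Fin n) ℤ)} {d : ℕ} (hE : ∀ p ∈ E, p.totalDegree ≤ d)
    (hF : ∀ p ∈ F, p.totalDegree ≤ d) : ∀ g ∈ Pc E F, g.totalDegree ≤ 2 * d := by
  have hsq : ∀ p : MvPolynomial (Fin n) ℤ, p.totalDegree ≤ d → (p ^ 2).totalDegree ≤ 2 * d := by
    intro p hp
    refine (MvPolynomial.totalDegree_pow _ _).trans ?_
    exact Nat.mul_le_mul_left _ hp
  induction F with
  | nil =>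
    rintro g rfl
    induction E with
    | nil => simp
    | cons p E ih =>
      rw [List.map_cons, List.sum_cons]
      exact (MvPolynomial.totalDegree_add _ _).trans (max_le (hsq p (hE p List.mem_cons_self))
        (ih fun p hp => hE p (List.mem_cons_of_mem _ hp)))
  | cons q F ih =>
    have ih' := ih fun p hp => hF p (List.mem_cons_of_mem _ hp)
    rintro g (hg | ⟨g, hg, rfl⟩)
    · exact ih' g hg
    · exact (MvPolynomial.totalDegree_add _ _).trans (max_le (hsq q (hF q List.mem_cons_self))
        (ih' g hg))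

theorem Pc_nrm {E F : List (MvPolynomial (Fin n) ℤ)} {μ : ℕ} (hE : ∀ p ∈ E, mnrm p ≤ μ)
    (hF : ∀ p ∈ F, mnrm p ≤ μ) : ∀ g ∈ Pc E F, mnrm g ≤ (E.length + F.length) * μ ^ 2 := by
  have hsq : ∀ p : MvPolynomial (Fin n) ℤ, mnrm p ≤ μ → mnrm (p ^ 2) ≤ μ ^ 2 := by
    intro p hp
    rw [pow_two, pow_two]
    exact (mnrm_mul_le _ _).trans (Nat.mul_le_mul hp hp)
  induction F with
  | nil =>
    rintro g rfl
    rw [List.length_nil, add_zero]
    induction E with
    | nil => simp [mnrm_zero]
    | cons p E ih =>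
      rw [List.map_cons, List.sum_cons, List.length_cons]
      refine (mnrm_add_le _ _).trans ?_
      have h1 := hsq p (hE p List.mem_cons_self)
      have h2 := ih fun p hp => hE p (List.mem_cons_of_mem _ hp)
      rw [Nat.succ_mul]
      omega
  | cons q F ih =>
    have ih' := ih fun p hp => hF p (List.mem_cons_of_mem _ hp)
    have h1 := hsq q (hF q List.mem_cons_self)
    rw [List.length_cons, ← add_assoc, Nat.succ_mul]
    rintro g (hg | ⟨g, hg, rfl⟩)
    · exact (ih' g hg).trans (Nat.le_add_right _ _)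
    · refine (mnrm_add_le _ _).trans ?_
      have h2 := ih' g hg
      omega

theorem Pc_piece (E F : List (MvPolynomial (Fin n) ℤ)) (y : Fin n → ℝ) :
    ∃ g ∈ Pc E F, Gf E F y = MvPolynomial.aeval y g ∧
      ∀ i, HasDerivAt (fun s => Gf E F (Function.update y i s))
        (MvPolynomial.aeval y (MvPolynomial.pderiv i g)) (y i) := by
  induction F with
  | nil =>
    refine ⟨_, rfl, (aeval_base E y).symm, fun i => ?_⟩
    have h1 := hasDerivAt_update (E.map fun p => p ^ 2).sum y i (y i)
    rw [Function.update_eq_self] at h1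
    refine h1.congr_of_eventuallyEq (Eventually.of_forall fun s => ?_)
    exact (aeval_base E _).symm
  | cons q F ih =>
    obtain ⟨g, hg, h1, h2⟩ := ih
    have h3 : ∀ i, HasDerivAt (fun s => Gf E (q :: F) (Function.update y i s))
        (2 * min 0 (MvPolynomial.aeval y q) * MvPolynomial.aeval y (MvPolynomial.pderiv i q) +
          MvPolynomial.aeval y (MvPolynomial.pderiv i g)) (y i) := by
      intro i
      have h4 := hasDerivAt_update q y i (y i)
      have h5 := HasDerivAt.comp (y i) (h₂ := fun r : ℝ => min 0 r ^ 2)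
        (h := fun s => MvPolynomial.aeval (Function.update y i s) q) (hasDerivAt_minsq _) h4
      rw [Function.update_eq_self] at h5
      refine (h5.add (h2 i)).congr_of_eventuallyEq (Eventually.of_forall fun s => ?_)
      exact Gf_cons E F q _
    rcases lt_or_ge (MvPolynomial.aeval y q : ℝ) 0 with hq | hq
    · refine ⟨q ^ 2 + g, Or.inr ⟨g, hg, rfl⟩, ?_, fun i => ?_⟩
      · rw [Gf_cons, h1, min_eq_right hq.le, map_add, map_pow]
      · refine (h3 i).congr_deriv ?_
        rw [min_eq_right hq.le, map_add, map_add, Derivation.leibniz_pow]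
        simp
        ring
    · refine ⟨g, Or.inl hg, ?_, fun i => ?_⟩
      · rw [Gf_cons, h1, min_eq_left hq]
        ring
      · refine (h3 i).congr_deriv ?_
        rw [min_eq_left hq]
        ring

/-- The function is piecewise polynomial. -/
theorem pw_Gf {E F : List (MvPolynomial (Fin n) ℤ)} {d μ e γ : ℕ}
    (hE : ∀ p ∈ E, p.totalDegree ≤ d ∧ mnrm p ≤ μ) (hF : ∀ p ∈ F, p.totalDegree ≤ d ∧ mnrm p ≤ μ)
    (he : 2 * d ≤ e) (hγ : (E.length + F.length) * μ ^ 2 ≤ γ) : PW (Gf E F) (Pc E F) e γ where
  fin := Pc_finite E F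
  cont := Gf_continuous E F
  nonneg := Gf_nonneg E F
  deg g hg := (Pc_deg (fun p hp => (hE p hp).1) (fun p hp => (hF p hp).1) g hg).trans he
  nrm g hg := (Pc_nrm (fun p hp => (hE p hp).2) (fun p hp => (hF p hp).2) g hg).trans hγ
  piece := Pc_piece E F

end Pool.Agent.J6H79.FR
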